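import Pool.Agent.H80.HF.ArchF
import Pool.Agent.H30.MM.Inf3

/-!
# HF Arch: `log |DD| ≤ 9 L² log(2L) - (27/2) L² + O(L log L)`

PROOF (helper30). The rows of the real matrix are the rows `jrow` of `Pool.Agent.H30.MM`, so `log_jet_det_le` (discrete Cauchy
formula, typed Vandermonde rows, discrete Polya lemma for the logarithmic kernel) with `m = 2L+1` and the bound `F_real` of
`ArchF` for the jets gives `(9/4) m² (log m - 3/2) + O(m log m)`.
-/

set_option autoImplicit false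

namespace Pool.Agent.H80.HF

open Finset

private theorem arch_coeff_lin_pow (u : ℚ) (i j : ℕ) :
    PowerSeries.coeff j (lin u ^ i) = u ^ (i - j) * (i.choose j : ℚ) := by
  have h1 : lin u = ((Polynomial.X + Polynomial.C u : Polynomial ℚ) : PowerSeries ℚ) := by
    rw [lin, Polynomial.coe_add, Polynomial.coe_X, Polynomial.coe_C]
  rw [h1, ← Polynomial.coe_pow, Polynomial.coeff_coe, Polynomial.coeff_X_add_C_pow]

/-- The real matrix is a jet matrix of `Pool.Agent.H30.MM`. -/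
private theorem arch_bridge (L : ℕ) (ρ : Col L → ℤ × Fin 3) :
    ((DD L ρ : ℚ) : ℝ) = (Matrix.of fun r => Pool.Agent.H30.MM.jrow (3 * L) (3 * L)
      (fun a k => ((PowerSeries.coeff k (FF a) : ℚ) : ℝ)) (ρ r).1 ((ρ r).2 : ℕ)).det := by
  have h1 : ((DD L ρ : ℚ) : ℝ) =
      ((Matrix.of fun c => ent L (ρ c)).map (algebraMap ℚ ℝ)).det := by
    have := RingHom.map_det (algebraMap ℚ ℝ) (Matrix.of fun c => ent L (ρ c))
    rw [RingHom.mapMatrix_apply] at this
    rw [← this, DD]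
    rfl
  rw [h1]
  congr 1
  ext r c
  rw [Matrix.map_apply, Matrix.of_apply, Matrix.of_apply]
  change ((ent L (ρ r) c : ℚ) : ℝ) = _
  rcases c with i | i
  · simp only [ent, Pool.Agent.H30.MM.jrow, Sum.elim_inl]
    rw [arch_coeff_lin_pow]
    push_cast
    ring
  · simp only [ent, Pool.Agent.H30.MM.jrow, Sum.elim_inr]
    rw [mul_comm (FF (ρ r).1), PowerSeries.coeff_mul,
      Finset.Nat.sum_antidiagonal_eq_sum_range_succ_mk]
    push_cast
    congr 1
    refine Finset.sum_congr rfl fun k _ => ?_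
    rw [arch_coeff_lin_pow]
    push_cast
    ring

theorem arch : ∃ C : ℝ, 0 ≤ C ∧ ∀ L : ℕ, 1 ≤ L → ∀ ρ : Col L → ℤ × Fin 3, Rows L ρ → DD L ρ ≠ 0 →
    Real.log |((DD L ρ : ℚ) : ℝ)| ≤
      9 * (L : ℝ) ^ 2 * Real.log (2 * L) - 27 / 2 * (L : ℝ) ^ 2 + C * L * (1 + Real.log L) := by
  refine ⟨300, by norm_num, ?_⟩
  intro L hL ρ hρ hne
  have hLr : (1 : ℝ) ≤ (L : ℝ) := by exact_mod_cast hL
  set F : ℤ → ℕ → ℝ := fun a k => ((PowerSeries.coeff k (FF a) : ℚ) : ℝ) with hF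
  have hbr := arch_bridge L ρ
  have hdet : (Matrix.of fun r => Pool.Agent.H30.MM.jrow (3 * L) (3 * L) F (ρ r).1
      ((ρ r).2 : ℕ)).det ≠ 0 := by
    rw [← hbr]
    exact_mod_cast hne
  have hFb : ∀ a ∈ Finset.Icc (-(L : ℤ)) L, ∀ k ≤ 2, |F a k| ≤ 1000 * ((L : ℝ) + 1) ^ 2 := by
    intro a ha k hk
    have ha' := Finset.mem_Icc.1 ha
    have h1 := F_real L hL a (abs_le.2 ha') k (by omega)
    have h2 : ((|PowerSeries.coeff k (FF a)| : ℚ) : ℝ) ≤ ((1000 * ((L : ℚ) + 1) ^ 2 : ℚ) : ℝ) := by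
      exact_mod_cast h1
    rw [Rat.cast_abs] at h2
    push_cast at h2
    exact h2
  have hmain := Pool.Agent.H30.MM.log_jet_det_le (3 * L) (3 * L) L F (1000 * ((L : ℝ) + 1) ^ 2)
    (by positivity) hFb (by omega) (by omega) (by omega) (fun r => (ρ r).1)
    (fun r => ((ρ r).2 : ℕ)) (by
      intro r s hrs
      apply hρ.inj
      have e1 : (ρ r).1 = (ρ s).1 := (Prod.ext_iff.1 hrs).1
      have e2 : ((ρ r).2 : ℕ) = ((ρ s).2 : ℕ) := (Prod.ext_iff.1 hrs).2
      exact Prod.ext e1 (Fin.ext e2))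
    (fun r => Finset.mem_Icc.2 (abs_le.1 (hρ.le r))) (fun r => by have := (ρ r).2.2; omega)
    hdet (2 * (L : ℝ) + 1) rfl
  rw [hbr]
  refine hmain.trans ?_
  set l : ℝ := Real.log L with hl
  have hl0 : 0 ≤ l := Real.log_nonneg hLr
  have hlog2 : Real.log 2 ≤ 0.7 := by
    have := Real.log_two_lt_d9
    linarith
  have hlog20 : 0 ≤ Real.log 2 := Real.log_nonneg (by norm_num)
  have h2L : Real.log (2 * (L : ℝ)) = Real.log 2 + l := by
    rw [Real.log_mul (by norm_num) (by positivity)]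
  set k : ℝ := Real.log (2 * (L : ℝ)) with hk
  have hk0 : 0 ≤ k := by rw [h2L]; linarith
  have hk1 : k ≤ 0.7 + l := by rw [h2L]; linarith
  -- the logarithm of m
  have hm : Real.log (2 * (L : ℝ) + 1) ≤ k + 1 / (2 * L) := by
    have e1 : (2 * (L : ℝ) + 1) = (2 * L) * (1 + 1 / (2 * L)) := by field_simp
    rw [e1, Real.log_mul (by positivity) (by positivity)]
    have h3 : Real.log (1 + 1 / (2 * (L : ℝ))) ≤ 1 / (2 * (L : ℝ)) := by
      have := Real.log_le_sub_one_of_pos (show (0 : ℝ) < 1 + 1 / (2 * L) by positivity)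
      linarith
    linarith
  have hinv : 1 / (2 * (L : ℝ)) ≤ 1 / 2 := by
    apply one_div_le_one_div_of_le (by norm_num)
    linarith
  have hm0 : 0 ≤ Real.log (2 * (L : ℝ) + 1) := Real.log_nonneg (by linarith)
  -- first term
  have t1 : (9 / 4) * (2 * (L : ℝ) + 1) ^ 2 * (Real.log (2 * (L : ℝ) + 1) - 3 / 2) ≤
      9 * (L : ℝ) ^ 2 * k - 27 / 2 * (L : ℝ) ^ 2 + 24 * L * (1 + l) := by
    have e0 : (9 / 4) * (2 * (L : ℝ) + 1) ^ 2 * (Real.log (2 * (L : ℝ) + 1) - 3 / 2) ≤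
        (9 / 4) * (2 * (L : ℝ) + 1) ^ 2 * (k + 1 / (2 * L) - 3 / 2) := by
      apply mul_le_mul_of_nonneg_left _ (by positivity)
      linarith
    have e1 : (9 / 4) * (2 * (L : ℝ) + 1) ^ 2 * (k + 1 / (2 * L) - 3 / 2) =
        9 * (L : ℝ) ^ 2 * k - 27 / 2 * (L : ℝ) ^ 2 + (9 * L + 9 / 4) * k +
          (9 / 4) * (2 * L + 2 + 1 / (2 * L)) - (27 / 2 * L + 27 / 8) := by
      field_simp
      ring
    have e2 : (9 * (L : ℝ) + 9 / 4) * k ≤ (9 * L + 9 / 4) * (0.7 + l) :=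
      mul_le_mul_of_nonneg_left hk1 (by positivity)
    have e3 : 0 ≤ (L : ℝ) * l := mul_nonneg (by linarith) hl0
    have e4 : l ≤ L * l := le_mul_of_one_le_left hl0 hLr
    have e5 : (9 * (L : ℝ) + 9 / 4) * (0.7 + l) = 6.3 * L + 1.575 + 9 * (L * l) + 9 / 4 * l := by
      ring
    have e6 : 24 * (L : ℝ) * (1 + l) = 24 * L + 24 * (L * l) := by ring
    rw [e6]
    rw [e5] at e2
    rw [e1] at e0
    linarith
  -- second term
  have t2 : 10 * (2 * (L : ℝ) + 1) * (1 + Real.log (2 * (L : ℝ) + 1)) ≤ 66 * L * (1 + l) := by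
    have e1 : 1 + Real.log (2 * (L : ℝ) + 1) ≤ 2.2 + l := by linarith
    have e2 : 10 * (2 * (L : ℝ) + 1) * (1 + Real.log (2 * (L : ℝ) + 1)) ≤
        10 * (3 * L) * (2.2 + l) := by
      apply mul_le_mul _ e1 (by linarith) (by positivity)
      linarith
    have e3 : 0 ≤ (L : ℝ) * l := mul_nonneg (by linarith) hl0
    have e9 : 10 * (3 * (L : ℝ)) * (2.2 + l) = 66 * L + 30 * (L * l) := by ring
    have e10 : 66 * (L : ℝ) * (1 + l) = 66 * L + 66 * (L * l) := by ring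
    rw [e10]
    rw [e9] at e2
    linarith
  -- third term
  have t3 : 3 * (2 * (L : ℝ) + 1) * Real.log (16 + 21 * (1000 * ((L : ℝ) + 1) ^ 2)) ≤
      108 * L * (1 + l) := by
    have e7 : ((L : ℝ) + 1) ^ 2 ≤ (2 * (L : ℝ)) ^ 2 := pow_le_pow_left₀ (by positivity) (by linarith) 2
    have e8 : (1 : ℝ) ≤ (2 * (L : ℝ)) ^ 2 := one_le_pow₀ (by linarith)
    have e1 : 16 + 21 * (1000 * ((L : ℝ) + 1) ^ 2) ≤ 2 ^ 15 * (2 * L) ^ 2 := by linarith
    have e2 : Real.log (16 + 21 * (1000 * ((L : ℝ) + 1) ^ 2)) ≤ 15 * Real.log 2 + 2 * k := by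
      have h4 := Real.log_le_log (by positivity) e1
      rw [Real.log_mul (by positivity) (by positivity), Real.log_pow, Real.log_pow] at h4
      push_cast at h4
      exact h4
    have e3 : Real.log (16 + 21 * (1000 * ((L : ℝ) + 1) ^ 2)) ≤ 11.9 + 2 * l := by
      linarith
    have e0 : 0 ≤ Real.log (16 + 21 * (1000 * ((L : ℝ) + 1) ^ 2)) := by
      apply Real.log_nonneg
      have : 0 ≤ 21 * (1000 * ((L : ℝ) + 1) ^ 2) := by positivity
      linarith
    have e4 : 3 * (2 * (L : ℝ) + 1) * Real.log (16 + 21 * (1000 * ((L : ℝ) + 1) ^ 2)) ≤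
        (9 * L) * (11.9 + 2 * l) := by
      apply mul_le_mul _ e3 e0 (by positivity)
      linarith
    have e5 : 0 ≤ (L : ℝ) * l := mul_nonneg (by linarith) hl0
    have e9 : (9 * (L : ℝ)) * (11.9 + 2 * l) = 107.1 * L + 18 * (L * l) := by ring
    have e10 : 108 * (L : ℝ) * (1 + l) = 108 * L + 108 * (L * l) := by ring
    rw [e10]
    rw [e9] at e4
    linarith
  have e6 : 0 ≤ (L : ℝ) * (1 + l) := by positivity
  linarith

end Pool.Agent.H80.HF
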