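import Pool.Agent.H80.HF.Fsm

/-!
# HF B0: the minors at small primes (all primes `q`)  (helper81)

PROOF. `DD_basis`: for monic `b i` of degree `i` the base change `X^i → b i` is unitriangular in each of the two blocks, so the
determinant does not change. Take `b i = descPochhammer i`: `b i (t+y) / i!` has Taylor coefficients `coeff j` with denominators
dividing `q^(jΛ)`, `Λ = Nat.log q (3L)` (at `t = 0`: `b (i+1) / (i+1)! = y/(i+1) ∏_(1 ≤ r ≤ i) (y/r - 1)`; the other `t` by Pascal's rule).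
With `F_small`: entry `(t,j), inr i`: `v_q ≥ v_q(i!) - jΛ - ww - Λ`. Sum over a permutation:
`∑ j ≤ 6L+3`, number of rows `6L`, `∑_(rows) ww ≤ 3 ∑_(|t| ≤ L) ww q t` (`ρ` injective) `= WW q L`.
-/

set_option autoImplicit false

namespace Pool.Agent.H80.HF

open Finset

/-! ### Base change -/

theorem tay_eq_sum (t : ℤ) (P : Polynomial ℚ) (n : ℕ) (hn : P.natDegree < n) :
    tay t P = ∑ k ∈ range n, PowerSeries.C (P.coeff k) * lin (t : ℚ) ^ k := by
  unfold tay lin
  rw [Polynomial.comp, Polynomial.eval₂_eq_sum_range' _ hn]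
  rw [← Polynomial.coeToPowerSeries.ringHom_apply, map_sum]
  refine Finset.sum_congr rfl fun k _ => ?_
  rw [map_mul, map_pow, map_add, Polynomial.coeToPowerSeries.ringHom_apply, Polynomial.coeToPowerSeries.ringHom_apply,
    Polynomial.coeToPowerSeries.ringHom_apply, Polynomial.coe_C, Polynomial.coe_C, Polynomial.coe_X]

/-- the base change matrix of a block -/
noncomputable def UU (n : ℕ) (b : ℕ → Polynomial ℚ) : Matrix (Fin n) (Fin n) ℚ :=
  Matrix.of fun k i => (b i).coeff k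

theorem det_UU (n : ℕ) (b : ℕ → Polynomial ℚ) (hb : ∀ i, (b i).Monic) (hd : ∀ i, (b i).natDegree = i) :
    (UU n b).det = 1 := by
  have hT : (UU n b).BlockTriangular id := by
    intro k i hik
    simp only [id] at hik
    exact Polynomial.coeff_eq_zero_of_natDegree_lt (by rw [hd]; exact hik)
  rw [Matrix.det_of_upperTriangular hT]
  refine Finset.prod_eq_one fun i _ => ?_
  have := hb i
  rw [Polynomial.Monic, Polynomial.leadingCoeff, hd] at this
  exact this

theorem DD_basis (L : ℕ) (ρ : Col L → ℤ × Fin 3) (b : ℕ → Polynomial ℚ)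
    (hb : ∀ i, (b i).Monic) (hd : ∀ i, (b i).natDegree = i) :
    DD L ρ = Matrix.det (Matrix.of fun c => Sum.elim
      (fun i : Fin (3 * L) => PowerSeries.coeff ((ρ c).2 : ℕ) (tay (ρ c).1 (b i)))
      (fun i : Fin (3 * L) => -PowerSeries.coeff ((ρ c).2 : ℕ) (FF (ρ c).1 * tay (ρ c).1 (b i)))) := by
  have key : (Matrix.of fun c => Sum.elim
      (fun i : Fin (3 * L) => PowerSeries.coeff ((ρ c).2 : ℕ) (tay (ρ c).1 (b i)))
      (fun i : Fin (3 * L) => -PowerSeries.coeff ((ρ c).2 : ℕ) (FF (ρ c).1 * tay (ρ c).1 (b i)))) =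
      (Matrix.of fun c => ent L (ρ c)) * Matrix.fromBlocks (UU (3 * L) b) 0 0 (UU (3 * L) b) := by
    ext c d
    rw [Matrix.mul_apply, Fintype.sum_sum_type]
    rcases d with i | i
    · simp only [Matrix.of_apply, Sum.elim_inl, Matrix.fromBlocks_apply₁₁, Matrix.fromBlocks_apply₂₁, Matrix.zero_apply,
        mul_zero, Finset.sum_const_zero, add_zero, ent, UU]
      rw [tay_eq_sum _ _ (3 * L) (by rw [hd]; exact i.2), map_sum, Finset.sum_range]
      refine Finset.sum_congr rfl fun k _ => ?_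
      rw [PowerSeries.coeff_C_mul, mul_comm]
    · simp only [Matrix.of_apply, Sum.elim_inr, Matrix.fromBlocks_apply₁₂, Matrix.fromBlocks_apply₂₂, Matrix.zero_apply,
        mul_zero, Finset.sum_const_zero, zero_add, ent, UU]
      rw [tay_eq_sum _ _ (3 * L) (by rw [hd]; exact i.2), Finset.mul_sum, map_sum, Finset.sum_range, ← Finset.sum_neg_distrib]
      refine Finset.sum_congr rfl fun k _ => ?_
      rw [mul_left_comm, PowerSeries.coeff_C_mul, neg_mul, mul_comm]
  rw [key, Matrix.det_mul, Matrix.det_fromBlocks_zero₂₁, det_UU _ _ hb hd, DD]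
  simp

/-! ### The falling factorials -/

/-- the Taylor coefficients grow at most like `q^(jΛ)`-denominators -/
def Sm (q Λ : ℕ) (f : PowerSeries ℚ) : Prop :=
  ∀ j, padicNorm q (PowerSeries.coeff j f) ≤ (q : ℚ) ^ (j * Λ)

theorem Sm.add {q Λ : ℕ} [Fact q.Prime] {f g : PowerSeries ℚ} (hf : Sm q Λ f) (hg : Sm q Λ g) : Sm q Λ (f + g) := by
  intro j
  rw [map_add]
  exact padicNorm.nonarchimedean.trans (max_le (hf j) (hg j))

theorem Sm.neg {q Λ : ℕ} [Fact q.Prime] {f : PowerSeries ℚ} (hf : Sm q Λ f) : Sm q Λ (-f) := by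
  intro j
  rw [map_neg, padicNorm.neg]
  exact hf j

theorem Sm.sub {q Λ : ℕ} [Fact q.Prime] {f g : PowerSeries ℚ} (hf : Sm q Λ f) (hg : Sm q Λ g) : Sm q Λ (f - g) := by
  rw [sub_eq_add_neg]
  exact hf.add hg.neg

theorem Sm.mul {q Λ : ℕ} [Fact q.Prime] {f g : PowerSeries ℚ} (hf : Sm q Λ f) (hg : Sm q Λ g) : Sm q Λ (f * g) := by
  intro j
  rw [PowerSeries.coeff_mul]
  refine padicNorm.sum_le' (fun x hx => ?_) (by positivity)
  rw [Finset.HasAntidiagonal.mem_antidiagonal] at hx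
  rw [padicNorm.mul, ← hx, add_mul, pow_add]
  exact mul_le_mul (hf _) (hg _) (padicNorm.nonneg _) (by positivity)

theorem Sm.one {q Λ : ℕ} [Fact q.Prime] : Sm q Λ 1 := by
  intro j
  rw [PowerSeries.coeff_one]
  split_ifs with h
  · subst h; simp
  · rw [padicNorm.zero]; positivity

theorem norm_inv_le (q : ℕ) [hq : Fact q.Prime] (N r : ℕ) (hr : r ≠ 0) (hrN : r ≤ N) :
    padicNorm q ((r : ℚ)⁻¹) ≤ (q : ℚ) ^ (Nat.log q N) := by
  have hr' : (r : ℚ) ≠ 0 := by exact_mod_cast hr
  have h0 : padicNorm q (r : ℚ) * padicNorm q ((r : ℚ)⁻¹) = 1 := by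
    rw [← padicNorm.mul, mul_inv_cancel₀ hr', padicNorm.one]
  have h1 : padicNorm q (r : ℚ) = (q : ℚ) ^ (-(padicValNat q r : ℤ)) := by
    rw [padicNorm.eq_zpow_of_nonzero hr']
    simp
  have hq0 : (0 : ℚ) < q := by exact_mod_cast hq.out.pos
  have hq1 : (1 : ℚ) ≤ q := by exact_mod_cast hq.out.one_lt.le
  have h2 : padicNorm q ((r : ℚ)⁻¹) = (q : ℚ) ^ (padicValNat q r) := by
    have : padicNorm q ((r : ℚ)⁻¹) = (padicNorm q (r : ℚ))⁻¹ := by
      exact eq_inv_of_mul_eq_one_right h0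
    rw [this, h1, zpow_neg, inv_inv, zpow_natCast]
  rw [h2]
  apply pow_le_pow_right₀ hq1
  have h3 : q ^ padicValNat q r ≤ N := (Nat.le_of_dvd (Nat.pos_of_ne_zero hr) pow_padicValNat_dvd).trans hrN
  exact Nat.le_log_of_pow_le hq.out.one_lt h3

theorem Sm_lin {q N : ℕ} [hq : Fact q.Prime] (r : ℕ) (hr : r ≠ 0) (hrN : r ≤ N) (c : ℤ) :
    Sm q (Nat.log q N) (PowerSeries.C ((r : ℚ)⁻¹) * PowerSeries.X + PowerSeries.C (c : ℚ)) := by
  intro j
  have hq1 : (1 : ℚ) ≤ q := by exact_mod_cast hq.out.one_lt.le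
  rcases j with _ | j
  · simp only [map_add, PowerSeries.coeff_zero_eq_constantCoeff, map_mul, PowerSeries.constantCoeff_X, mul_zero, zero_add,
      zero_mul, pow_zero]
    rw [PowerSeries.constantCoeff_C]
    exact padicNorm.of_int c
  · rw [map_add, PowerSeries.coeff_succ_C, add_zero]
    rw [PowerSeries.coeff_C_mul, PowerSeries.coeff_X]
    split_ifs with h
    · rw [mul_one, h, one_mul]
      exact norm_inv_le q N r hr hrN
    · rw [mul_zero, padicNorm.zero]; positivity

/-- the rescaled falling factorial at `t = 0` -/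
theorem desc_zero (i : ℕ) : (descPochhammer ℚ (i + 1)) =
    Polynomial.C ((i.factorial : ℚ)) * (Polynomial.X * ∏ r ∈ range i, (Polynomial.C (((r + 1 : ℕ) : ℚ)⁻¹) * Polynomial.X +
      Polynomial.C (-1))) := by
  induction i with
  | zero => simp
  | succ i ih =>
    rw [descPochhammer_succ_right, ih, Finset.prod_range_succ, Nat.factorial_succ]
    have h : ((i + 1 : ℕ) : ℚ) ≠ 0 := by positivity
    have e : (Polynomial.X - ((i + 1 : ℕ) : Polynomial ℚ)) = Polynomial.C (((i + 1 : ℕ) : ℚ)) *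
        (Polynomial.C (((i + 1 : ℕ) : ℚ)⁻¹) * Polynomial.X + Polynomial.C (-1)) := by
      rw [mul_add, ← mul_assoc, ← Polynomial.C_mul, mul_inv_cancel₀ h, Polynomial.C_1, one_mul, ← Polynomial.C_mul,
        mul_neg, mul_one, Polynomial.C_neg, Polynomial.C_eq_natCast, sub_eq_add_neg]
    rw [e, Nat.cast_mul, Polynomial.C_mul]
    ring

theorem tay_add (t : ℤ) (P Q : Polynomial ℚ) : tay t (P + Q) = tay t P + tay t Q := by
  simp [tay]

theorem tay_sub (t : ℤ) (P Q : Polynomial ℚ) : tay t (P - Q) = tay t P - tay t Q := by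
  rw [eq_sub_iff_add_eq, ← tay_add, sub_add_cancel]

theorem tay_mul (t : ℤ) (P Q : Polynomial ℚ) : tay t (P * Q) = tay t P * tay t Q := by
  simp [tay]

theorem tay_C (t : ℤ) (c : ℚ) : tay t (Polynomial.C c) = PowerSeries.C c := by
  simp [tay]

theorem tay_X_zero : tay 0 Polynomial.X = PowerSeries.X := by
  simp [tay]

theorem tay_one (t : ℤ) : tay t 1 = 1 := by
  simp [tay]

theorem tay_prod (t : ℤ) {ι : Type*} (s : Finset ι) (f : ι → Polynomial ℚ) :
    tay t (∏ x ∈ s, f x) = ∏ x ∈ s, tay t (f x) := by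
  classical
  induction s using Finset.induction_on with
  | empty => simp [tay_one]
  | insert a s ha ih => rw [Finset.prod_insert ha, Finset.prod_insert ha, tay_mul, ih]

/-- the shift -/
theorem tay_sub_one (t : ℤ) (P : Polynomial ℚ) : tay (t - 1) P = tay t (P.comp (Polynomial.X - 1)) := by
  unfold tay
  congr 1
  rw [Polynomial.comp_assoc]
  congr 1
  simp only [Polynomial.sub_comp, Polynomial.X_comp, Polynomial.one_comp]
  push_cast
  rw [Polynomial.C_sub, Polynomial.C_1]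
  ring

/-- `descPochhammer i / i!` at `t + y` -/
noncomputable def bn (t : ℤ) (i : ℕ) : PowerSeries ℚ :=
  PowerSeries.C ((i.factorial : ℚ)⁻¹) * tay t (descPochhammer ℚ i)

theorem bn_sub_one (t : ℤ) (i : ℕ) : bn (t - 1) (i + 1) = bn t (i + 1) - bn (t - 1) i := by
  unfold bn
  have h : ((i + 1 : ℕ) : ℚ) ≠ 0 := by positivity
  have h' : ((i.factorial : ℕ) : ℚ) ≠ 0 := by exact_mod_cast i.factorial_ne_zero
  have e := descPochhammer_succ_comp_X_sub_one (R := ℚ) i
  rw [tay_sub_one t, e, tay_sub, mul_sub, tay_sub_one t]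
  congr 1
  have e2 : ((i : Polynomial ℚ) + 1) • (descPochhammer ℚ i).comp (Polynomial.X - 1) =
      Polynomial.C (((i + 1 : ℕ) : ℚ)) * (descPochhammer ℚ i).comp (Polynomial.X - 1) := by
    rw [smul_eq_mul, Polynomial.C_eq_natCast]; push_cast; ring
  rw [e2, tay_mul, tay_C, ← mul_assoc, ← map_mul, Nat.factorial_succ]
  congr 2
  push_cast
  field_simp

theorem Sm_bn_zero {q N : ℕ} [hq : Fact q.Prime] (i : ℕ) (hi : i ≤ N) : Sm q (Nat.log q N) (bn 0 i) := by
  rcases i with _ | i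
  · have : bn 0 0 = 1 := by simp [bn, tay_one]
    rw [this]
    exact Sm.one
  · have e : bn 0 (i + 1) = (PowerSeries.C (((i + 1 : ℕ) : ℚ)⁻¹) * PowerSeries.X + PowerSeries.C ((0 : ℤ) : ℚ)) *
        ∏ r ∈ range i, (PowerSeries.C (((r + 1 : ℕ) : ℚ)⁻¹) * PowerSeries.X + PowerSeries.C (((-1 : ℤ)) : ℚ)) := by
      unfold bn
      rw [desc_zero, tay_mul, tay_mul, tay_prod, tay_C, tay_X_zero]
      have e1 : ∀ r : ℕ, tay 0 (Polynomial.C (((r + 1 : ℕ) : ℚ)⁻¹) * Polynomial.X + Polynomial.C (-1)) =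
          PowerSeries.C (((r + 1 : ℕ) : ℚ)⁻¹) * PowerSeries.X + PowerSeries.C (((-1 : ℤ)) : ℚ) := by
        intro r
        rw [tay_add, tay_mul, tay_C, tay_C, tay_X_zero]
        push_cast
        rfl
      rw [Finset.prod_congr rfl fun r _ => e1 r]
      have h : ((i + 1 : ℕ) : ℚ) ≠ 0 := by positivity
      have h' : ((i.factorial : ℕ) : ℚ) ≠ 0 := by exact_mod_cast i.factorial_ne_zero
      have e3 : (PowerSeries.C ((((i + 1).factorial : ℕ) : ℚ)⁻¹) : PowerSeries ℚ) * PowerSeries.C ((i.factorial : ℕ) : ℚ) =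
          PowerSeries.C (((i + 1 : ℕ) : ℚ)⁻¹) := by
        rw [← map_mul, Nat.factorial_succ]
        congr 1
        push_cast
        field_simp
      rw [← mul_assoc, ← mul_assoc, e3, Int.cast_zero, map_zero, add_zero]
    rw [e]
    refine (Sm_lin (i + 1) (Nat.succ_ne_zero _) hi 0).mul ?_
    have : ∀ m, m ≤ i → Sm q (Nat.log q N)
        (∏ r ∈ range m, (PowerSeries.C (((r + 1 : ℕ) : ℚ)⁻¹) * PowerSeries.X + PowerSeries.C (((-1 : ℤ)) : ℚ))) := by
      intro m
      induction m with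
      | zero => intro _; rw [Finset.prod_range_zero]; exact Sm.one
      | succ m ih =>
        intro hm
        rw [Finset.prod_range_succ]
        exact (ih (by omega)).mul (Sm_lin (m + 1) (Nat.succ_ne_zero _) (by omega) (-1))
    exact this i le_rfl

theorem Sm_bn {q N : ℕ} [hq : Fact q.Prime] (i : ℕ) : i ≤ N → ∀ t : ℤ, Sm q (Nat.log q N) (bn t i) := by
  induction i with
  | zero =>
    intro _ t
    have : bn t 0 = 1 := by simp [bn, tay_one]
    rw [this]
    exact Sm.one
  | succ i ih =>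
    intro hi t
    have ih' := ih (by omega)
    induction t using Int.induction_on with
    | zero => exact Sm_bn_zero (i + 1) hi
    | succ t iht =>
      have h := bn_sub_one ((t : ℤ) + 1) i
      rw [add_sub_cancel_right] at h
      have h2 : bn ((t : ℤ) + 1) (i + 1) = bn t (i + 1) + bn t i := by rw [h]; ring
      rw [h2]
      exact iht.add (ih' t)
    | pred t iht =>
      rw [bn_sub_one]
      exact iht.sub (ih' _)

/-- size of the Taylor coefficients of the falling factorials -/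
theorem desc_small (q : ℕ) [hq : Fact q.Prime] (N i : ℕ) (hi : i ≤ N) (t : ℤ) (j : ℕ) :
    padicNorm q (PowerSeries.coeff j (tay t (descPochhammer ℚ i))) ≤
      (q : ℚ) ^ (((j * Nat.log q N : ℕ) : ℤ) - (padicValNat q i.factorial : ℤ)) := by
  have hq0 : (0 : ℚ) < q := by exact_mod_cast hq.out.pos
  have h' : ((i.factorial : ℕ) : ℚ) ≠ 0 := by exact_mod_cast i.factorial_ne_zero
  have h := Sm_bn (q := q) (N := N) i hi t j
  unfold bn at h
  rw [PowerSeries.coeff_C_mul] at h
  have e : PowerSeries.coeff j (tay t (descPochhammer ℚ i)) = ((i.factorial : ℕ) : ℚ) *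
      (((i.factorial : ℕ) : ℚ)⁻¹ * PowerSeries.coeff j (tay t (descPochhammer ℚ i))) := by
    field_simp
  rw [e, padicNorm.mul, sub_eq_add_neg, add_comm, zpow_add₀ hq0.ne']
  have h1 : padicNorm q ((i.factorial : ℕ) : ℚ) = (q : ℚ) ^ (-(padicValNat q i.factorial : ℤ)) := by
    rw [padicNorm.eq_zpow_of_nonzero h']
    simp
  rw [h1, zpow_natCast]
  exact mul_le_mul_of_nonneg_left h (by positivity)

/-! ### The determinant -/

theorem norm_prod (q : ℕ) [Fact q.Prime] {ι : Type*} (s : Finset ι) (f : ι → ℚ) :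
    padicNorm q (∏ x ∈ s, f x) = ∏ x ∈ s, padicNorm q (f x) := by
  classical
  induction s using Finset.induction_on with
  | empty => simp
  | insert a s ha ih => rw [Finset.prod_insert ha, Finset.prod_insert ha, padicNorm.mul, ih]

theorem norm_det_le (q : ℕ) [hq : Fact q.Prime] {ι : Type*} [Fintype ι] [DecidableEq ι] (M : Matrix ι ι ℚ)
    (e f : ι → ℤ) (h : ∀ r c, padicNorm q (M r c) ≤ (q : ℚ) ^ (e r + f c)) :
    padicNorm q M.det ≤ (q : ℚ) ^ (∑ r, e r + ∑ c, f c) := by
  have hq0 : (0 : ℚ) < q := by exact_mod_cast hq.out.pos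
  rw [Matrix.det_apply]
  refine padicNorm.sum_le' (fun σ _ => ?_) (by positivity)
  have h1 : padicNorm q (Equiv.Perm.sign σ • ∏ i, M (σ i) i) = padicNorm q (∏ i, M (σ i) i) := by
    rcases Int.units_eq_one_or (Equiv.Perm.sign σ) with hs | hs
    · rw [hs, one_smul]
    · rw [hs, Units.neg_smul, one_smul, padicNorm.neg]
  rw [h1, norm_prod]
  calc ∏ i, padicNorm q (M (σ i) i) ≤ ∏ i, (q : ℚ) ^ (e (σ i) + f i) :=
        Finset.prod_le_prod (fun _ _ => padicNorm.nonneg _) fun i _ => h _ _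
    _ = (q : ℚ) ^ (∑ r, e r + ∑ c, f c) := by
        rw [← Equiv.sum_comp σ e, ← Finset.sum_add_distrib]
        generalize (univ : Finset ι) = s
        classical
        induction s using Finset.induction_on with
        | empty => simp
        | insert a s ha ih => rw [Finset.prod_insert ha, Finset.sum_insert ha, zpow_add₀ hq0.ne' (e (σ a) + f a), ih]

theorem sum_rows_le (L : ℕ) (ρ : Col L → ℤ × Fin 3) (hρ : Rows L ρ) (g : ℤ × Fin 3 → ℕ) :
    ∑ c, g (ρ c) ≤ ∑ t ∈ Icc (-(L : ℤ)) L, ∑ j : Fin 3, g (t, j) := by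
  classical
  rw [← Finset.sum_product' (f := fun t j => g (t, j))]
  rw [← Finset.sum_image (f := g) (g := ρ) (s := univ) (fun a _ b _ h => hρ.inj h)]
  refine Finset.sum_le_sum_of_subset fun x hx => ?_
  rw [Finset.mem_image] at hx
  obtain ⟨c, _, rfl⟩ := hx
  rw [Finset.mem_product, Finset.mem_Icc]
  exact ⟨abs_le.mp (hρ.le c), mem_univ _⟩

theorem sum_ww_two (L : ℕ) : ∑ t ∈ Icc (-(L : ℤ)) L, ww 2 t = L * (L + 1) := by
  induction L with
  | zero => simp [ww]
  | succ L ih =>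
    have e : Icc (-((L + 1 : ℕ) : ℤ)) ((L + 1 : ℕ) : ℤ) =
        insert (-((L + 1 : ℕ) : ℤ)) (insert ((L + 1 : ℕ) : ℤ) (Icc (-(L : ℤ)) L)) := by
      ext x
      simp only [Finset.mem_Icc, Finset.mem_insert]
      omega
    have h1 : ((L + 1 : ℕ) : ℤ) ∉ Icc (-(L : ℤ)) L := by
      simp only [Finset.mem_Icc]; omega
    have h2 : (-((L + 1 : ℕ) : ℤ)) ∉ insert ((L + 1 : ℕ) : ℤ) (Icc (-(L : ℤ)) L) := by
      simp only [Finset.mem_Icc, Finset.mem_insert]; omega
    rw [e, Finset.sum_insert h2, Finset.sum_insert h1, ih]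
    have h3 : ww 2 (-((L + 1 : ℕ) : ℤ)) + ww 2 ((L + 1 : ℕ) : ℤ) = 2 * (L + 1) := by
      unfold ww
      rcases Nat.even_or_odd (L + 1) with h | h
      · obtain ⟨k, hk⟩ := h
        rw [if_neg (by omega), if_pos (by omega)]
        omega
      · obtain ⟨k, hk⟩ := h
        rw [if_pos (by omega), if_neg (by omega)]
        omega
    rw [← add_assoc, h3]
    ring

theorem sum_ww (q L : ℕ) : ∑ t ∈ Icc (-(L : ℤ)) L, ∑ _j : Fin 3, ww q t = WW q L := by
  by_cases hq : q = 2
  · subst hq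
    simp only [Finset.sum_const, Finset.card_univ, Fintype.card_fin, smul_eq_mul, ← Finset.mul_sum]
    rw [sum_ww_two, WW, if_pos rfl]
    ring
  · rw [WW, if_neg hq]
    refine Finset.sum_eq_zero fun t _ => Finset.sum_eq_zero fun j _ => ?_
    rw [ww, if_neg (by tauto)]

theorem b0 (q : ℕ) [Fact q.Prime] (L : ℕ) (hL : 1 ≤ L) (ρ : Col L → ℤ × Fin 3) (hρ : Rows L ρ) :
    padicNorm q (DD L ρ) ≤ (q : ℚ) ^ (((2 * (6 * L + 3) * Nat.log q (3 * L) + WW q L : ℕ) : ℤ) -
      ((2 * ∑ i ∈ range (3 * L), padicValNat q i.factorial : ℕ) : ℤ)) := by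
  have hqp : q.Prime := Fact.out
  have hq0 : (0 : ℚ) < q := by exact_mod_cast hqp.pos
  have hq1 : (1 : ℚ) ≤ q := by exact_mod_cast hqp.one_lt.le
  set Λ := Nat.log q (3 * L) with hΛ
  rw [DD_basis L ρ (descPochhammer ℚ) (fun i => monic_descPochhammer ℚ i) (fun i => descPochhammer_natDegree ℚ i)]
  set e : Col L → ℤ := fun c => ((((ρ c).2 : ℕ) * Λ + ww q (ρ c).1 + Λ : ℕ) : ℤ) with he
  set f : Col L → ℤ := Sum.elim (fun i : Fin (3 * L) => -(padicValNat q (i : ℕ).factorial : ℤ))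
    (fun i : Fin (3 * L) => -(padicValNat q (i : ℕ).factorial : ℤ)) with hf
  refine (norm_det_le q _ e f ?_).trans ?_
  · intro r c
    rcases c with i | i
    · simp only [Matrix.of_apply, Sum.elim_inl, he, hf]
      refine (desc_small q (3 * L) i i.2.le (ρ r).1 _).trans (zpow_le_zpow_right₀ hq1 ?_)
      push_cast
      have : (0 : ℤ) ≤ (ww q (ρ r).1 : ℤ) := by positivity
      have : (0 : ℤ) ≤ (Λ : ℤ) := by positivity
      linarith
    · simp only [Matrix.of_apply, Sum.elim_inr, he, hf]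
      rw [padicNorm.neg, PowerSeries.coeff_mul]
      refine padicNorm.sum_le' (fun x hx => ?_) (by positivity)
      rw [Finset.HasAntidiagonal.mem_antidiagonal] at hx
      rw [padicNorm.mul]
      have h1 := F_small q L hL (ρ r).1 (hρ.le r) x.1
      have h2 := desc_small q (3 * L) i i.2.le (ρ r).1 x.2
      refine (mul_le_mul h1 h2 (padicNorm.nonneg _) (by positivity)).trans ?_
      rw [← zpow_add₀ hq0.ne']
      refine le_of_eq (congrArg _ ?_)
      rw [← hx]
      push_cast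
      ring
  · refine zpow_le_zpow_right₀ hq1 ?_
    have s1 : ∑ c, f c = -((2 * ∑ i ∈ range (3 * L), padicValNat q i.factorial : ℕ) : ℤ) := by
      rw [Fintype.sum_sum_type]
      simp only [hf, Sum.elim_inl, Sum.elim_inr, Finset.sum_neg_distrib]
      rw [Finset.sum_range]
      push_cast
      ring
    have s2 : ∑ c, e c ≤ ((2 * (6 * L + 3) * Λ + WW q L : ℕ) : ℤ) := by
      have a1 : ∑ c, ((ρ c).2 : ℕ) ≤ 6 * L + 3 := by
        refine (sum_rows_le L ρ hρ fun x => (x.2 : ℕ)).trans ?_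
        simp only [Fin.sum_univ_three, Finset.sum_const, Int.card_Icc, smul_eq_mul]
        simp only [Fin.val_zero, Fin.val_one, Fin.val_two]
        omega
      have a2 : ∑ c, ww q (ρ c).1 ≤ WW q L := by
        refine (sum_rows_le L ρ hρ fun x => ww q x.1).trans ?_
        exact (sum_ww q L).le
      have a3 : ∑ c, (((ρ c).2 : ℕ) * Λ + ww q (ρ c).1 + Λ) ≤ 2 * (6 * L + 3) * Λ + WW q L := by
        rw [Finset.sum_add_distrib, Finset.sum_add_distrib, ← Finset.sum_mul, Finset.sum_const, Finset.card_univ]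
        simp only [Fintype.card_sum, Fintype.card_fin, smul_eq_mul]
        have : (∑ c, ((ρ c).2 : ℕ)) * Λ ≤ (6 * L + 3) * Λ := Nat.mul_le_mul_right _ a1
        nlinarith
      simp only [he]
      exact_mod_cast a3
    rw [s1]
    linarith

end Pool.Agent.H80.HF
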