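import Mathlib
import Pool.Agent.H89.MM.Gen

/-!
# HF Comb: threshold bound for sums of distinct exponents in residue classes

PROOF. For every class `C` let `s_C` be the number of rows; the sum of the `k r` is at least `s_C (s_C - 1) / 2`, so the
sum is at least `∑_C (s_C + e_C) (s_C + e_C - 1) / 2 - ∑_C e_C (e_C - 1) / 2`; the second sum is the number of classes with
`e_C = -1`, the first one is at least `∑_(i<n) ⌊i/q⌋` by convexity (`H89MM.conv_bound`), as `∑ e = 0`.
-/

set_option autoImplicit false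

namespace Pool.Agent.H80.HF

open Finset

theorem comb_thr (q : ℕ) (hq : 0 < q) (e : ℕ → ℤ) (he : ∀ c, c < q → e c = -1 ∨ e c = 0 ∨ e c = 1)
    (hs : ∑ c ∈ range q, e c = 0) {R : Type} [DecidableEq R] (s : Finset R) (c : R → ℕ)
    (hc : ∀ r ∈ s, c r < q) (k : R → ℕ)
    (hinj : ∀ r ∈ s, ∀ r' ∈ s, c r = c r' → k r = k r' → r = r') :
    ∑ i ∈ range s.card, ((i / q : ℕ) : ℤ) - ((range q).filter (fun c => e c = -1)).card ≤
      ∑ r ∈ s, ((k r : ℤ) + e (c r)) := by
  classical
  set J : ℕ → Finset R := fun C => s.filter fun r => c r = C with hJ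
  have hmaps : ∀ r ∈ s, c r ∈ range q := fun r hr => mem_range.2 (hc r hr)
  have hcard : ∑ C ∈ range q, ((J C).card : ℤ) = (s.card : ℤ) := by
    have := Finset.card_eq_sum_card_fiberwise (f := c) (s := s) (t := range q) hmaps
    rw [this]
    push_cast
    rfl
  have hsum : ∑ r ∈ s, ((k r : ℤ) + e (c r)) =
      ∑ C ∈ range q, (∑ r ∈ J C, (k r : ℤ) + e C * ((J C).card : ℤ)) := by
    rw [← Finset.sum_fiberwise_of_maps_to hmaps]
    refine sum_congr rfl fun C _ => ?_
    rw [sum_add_distrib]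
    congr 1
    rw [show ∑ r ∈ s.filter (fun r => c r = C), e (c r) = ∑ r ∈ s.filter (fun r => c r = C), e C from
      sum_congr rfl fun r hr => by rw [(mem_filter.1 hr).2]]
    rw [sum_const, nsmul_eq_mul, mul_comm]
  have h1 : ∀ C, ((J C).card : ℤ) * (((J C).card : ℤ) - 1) ≤ 2 * ∑ r ∈ J C, (k r : ℤ) := by
    intro C
    apply H89MM.card_mul_pred_le_of_inj
    intro r hr r' hr' hkk
    have a := mem_filter.1 (mem_coe.1 hr)
    have b := mem_filter.1 (mem_coe.1 hr')
    exact hinj r a.1 r' b.1 (a.2.trans b.2.symm) hkk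
  have h2 := H89MM.conv_bound (range q) (fun C => ((J C).card : ℤ) + e C) q s.card hq
    (by rw [card_range]) (by rw [sum_add_distrib, hcard, hs, add_zero])
  have h3 : ∑ C ∈ range q, e C * (e C - 1) = 2 * (((range q).filter (fun c => e c = -1)).card : ℤ) := by
    rw [card_filter]
    push_cast
    rw [mul_sum]
    refine sum_congr rfl fun C hC => ?_
    rcases he C (mem_range.1 hC) with h | h | h <;> rw [h] <;> norm_num
  have h4 : ∑ C ∈ range q, (((J C).card : ℤ) + e C) * (((J C).card : ℤ) + e C - 1) ≤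
      ∑ C ∈ range q, (2 * ∑ r ∈ J C, (k r : ℤ) + 2 * (e C * ((J C).card : ℤ)) + e C * (e C - 1)) := by
    refine sum_le_sum fun C _ => ?_
    have := h1 C
    nlinarith [this]
  rw [sum_add_distrib, h3] at h4
  have h5 : ∑ C ∈ range q, (2 * ∑ r ∈ J C, (k r : ℤ) + 2 * (e C * ((J C).card : ℤ))) =
      2 * ∑ r ∈ s, ((k r : ℤ) + e (c r)) := by
    rw [hsum, mul_sum]
    refine sum_congr rfl fun C _ => ?_
    ring
  rw [h5] at h4
  linarith

end Pool.Agent.H80.HF
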