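import Pool.Agent.H80.HF.Rec

/-!
# HF Ecls: the function `Ee`

`Ee q t` for the residue `c = t % q`: `1` for even `c ∈ (q/3, 2q/3)`, `-1` for odd `c ∈ (q/3, 2q/3)`, else `0`.
PROOF. `Ee q t` depends on `t % q` only. Symmetry: `(-t) % q = q - t % q` for `t % q ≠ 0`, `q` odd: the parity changes, and
`q - ⌊q/3⌋ = ⌊2q/3⌋ + 1` for `3 ∤ q`. `Ee_card`: odd `c` in `(⌊q/3⌋, ⌊2q/3⌋]`. `Ee_pole`: with the description of `(DN t).coeff 0` in
`CntD.lean` (product of the `n < 3|t|`, `3 ∤ n`, with a parity condition): the only multiple of `q` below `3|t| < 2q` is `q`.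
-/

set_option autoImplicit false

namespace Pool.Agent.H80.HF

open Finset

/-- a prime `q ≥ 5` is odd and not divisible by `3` -/
theorem ecls_odd (q : ℕ) (hq : q.Prime) (h5 : 5 ≤ q) : q % 2 = 1 ∧ q % 3 ≠ 0 := by
  refine ⟨?_, ?_⟩
  · rcases hq.eq_two_or_odd with h | h
    · omega
    · exact h
  · intro h
    have h1 : 3 ∣ q := Nat.dvd_of_mod_eq_zero h
    rcases (Nat.dvd_prime hq).1 h1 with h2 | h2 <;> omega

theorem ecls_neg_emod (q : ℕ) (h0 : 0 < q) (t : ℤ) :
    (t % q = 0 ∧ (-t) % q = 0) ∨ (0 < t % q ∧ (-t) % (q : ℤ) = q - t % q) := by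
  have hq0 : (0 : ℤ) < q := by exact_mod_cast h0
  have h1 : 0 ≤ t % q := Int.emod_nonneg _ hq0.ne'
  have h2 : t % q < q := Int.emod_lt_of_pos _ hq0
  have h3 := Int.emod_add_mul_ediv t q
  rcases h1.eq_or_lt with h | h
  · left
    refine ⟨h.symm, ?_⟩
    exact Int.emod_eq_zero_of_dvd (dvd_neg.2 (Int.dvd_of_emod_eq_zero h.symm))
  · right
    refine ⟨h, ?_⟩
    have h4 : -t = (q - t % q) + q * (-(t / q) - 1) := by linear_combination h3
    rw [h4, Int.add_mul_emod_self_left, Int.emod_eq_of_lt (by omega) (by omega)]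

theorem Ee_neg (q : ℕ) (hq : q.Prime) (h5 : 5 ≤ q) (t : ℤ) : Ee q (-t) = -Ee q t := by
  obtain ⟨ho, h3⟩ := ecls_odd q hq h5
  have hq0 : (0 : ℤ) < q := by exact_mod_cast hq.pos
  have h2 : t % q < q := Int.emod_lt_of_pos _ hq0
  rcases ecls_neg_emod q hq.pos t with ⟨h, h'⟩ | ⟨h, h'⟩
  · unfold Ee
    rw [h, h']
    have : ¬ (((q / 3 : ℕ) : ℤ) < 0 ∧ (0 : ℤ) ≤ ((2 * q / 3 : ℕ) : ℤ)) := by
      rintro ⟨h1, -⟩
      omega
    rw [if_neg this, neg_zero]
  · unfold Ee
    rw [h']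
    generalize t % (q : ℤ) = c at *
    split_ifs <;> omega

theorem Ee_vals (q : ℕ) (t : ℤ) : Ee q t = -1 ∨ Ee q t = 0 ∨ Ee q t = 1 := by
  unfold Ee
  split_ifs <;> simp

theorem Ee_mod (q : ℕ) (a b : ℤ) (h : a % q = b % q) : Ee q a = Ee q b := by
  unfold Ee
  rw [h]

theorem Ee_zero (q : ℕ) : Ee q 0 = 0 := by
  unfold Ee
  rw [Int.zero_emod, if_neg]
  rintro ⟨h1, -⟩
  omega

theorem Ee_sum (q : ℕ) (hq : q.Prime) (h5 : 5 ≤ q) : ∑ c ∈ range q, Ee q (c : ℤ) = 0 := by
  obtain ⟨n, rfl⟩ : ∃ n, q = n + 1 := ⟨q - 1, by omega⟩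
  rw [Finset.sum_range_succ', Nat.cast_zero, Ee_zero, add_zero]
  have h1 : ∑ c ∈ range n, Ee (n + 1) ((c + 1 : ℕ) : ℤ) =
      -∑ c ∈ range n, Ee (n + 1) ((c + 1 : ℕ) : ℤ) := by
    conv_lhs => rw [← Finset.sum_range_reflect]
    rw [← Finset.sum_neg_distrib]
    refine Finset.sum_congr rfl fun c hc => ?_
    have hc' := Finset.mem_range.1 hc
    rw [← Ee_neg (n + 1) hq h5]
    apply Ee_mod
    have h2 : (((n - 1 - c + 1 : ℕ) : ℤ)) = -((c + 1 : ℕ) : ℤ) + ((n + 1 : ℕ) : ℤ) * 1 := by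
      push_cast
      omega
    rw [h2, Int.add_mul_emod_self_left]
  omega

theorem Ee_card (q : ℕ) : ((range q).filter (fun c : ℕ => Ee q (c : ℤ) = -1)).card ≤ q / 6 + 2 := by
  have h1 : ((range q).filter (fun c : ℕ => Ee q (c : ℤ) = -1)).card ≤
      (Finset.Icc ((q / 3) / 2) ((2 * q / 3 - 1) / 2)).card := by
    refine Finset.card_le_card_of_injOn (fun c => c / 2) ?_ ?_
    · intro c hc
      simp only [Finset.coe_filter, Set.mem_ofPred_eq, Finset.mem_range] at hc
      obtain ⟨hc1, hc2⟩ := hc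
      have h3 : (c : ℤ) % (q : ℤ) = c := Int.emod_eq_of_lt (by omega) (by omega)
      unfold Ee at hc2
      rw [h3] at hc2
      simp only [Finset.coe_Icc, Set.mem_Icc]
      split_ifs at hc2
      omega
    · intro c hc d hd hcd
      simp only [Finset.coe_filter, Set.mem_ofPred_eq, Finset.mem_range] at hc hd
      obtain ⟨hc1, hc2⟩ := hc
      obtain ⟨hd1, hd2⟩ := hd
      have h3 : (c : ℤ) % (q : ℤ) = c := Int.emod_eq_of_lt (by omega) (by omega)
      have h4 : (d : ℤ) % (q : ℤ) = d := Int.emod_eq_of_lt (by omega) (by omega)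
      unfold Ee at hc2 hd2
      rw [h3] at hc2
      rw [h4] at hd2
      simp only at hcd
      split_ifs at hc2 hd2
      omega
  refine h1.trans ?_
  rw [Nat.card_Icc]
  omega

theorem ecls_lf (n : ℤ) : (lf n).coeff 0 = n := by
  simp [lf]

theorem ecls_NDp (n : ℕ) : ((NDp (n + 1)).1).coeff 0 = (3 * n + 2) * ((NDp n).2).coeff 0 ∧
    ((NDp (n + 1)).2).coeff 0 = (3 * n + 1) * ((NDp n).1).coeff 0 := by
  constructor
  · show (lf (3 * n + 2) * (NDp n).2).coeff 0 = _
    rw [Polynomial.mul_coeff_zero, ecls_lf]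
  · show (lf (3 * n + 1) * (NDp n).1).coeff 0 = _
    rw [Polynomial.mul_coeff_zero, ecls_lf]

theorem ecls_NDm (n : ℕ) : ((NDm (n + 1)).1).coeff 0 = (-(3 * n) - 1) * ((NDm n).2).coeff 0 ∧
    ((NDm (n + 1)).2).coeff 0 = (-(3 * n) - 2) * ((NDm n).1).coeff 0 := by
  constructor
  · show (lf (-(3 * n) - 1) * (NDm n).2).coeff 0 = _
    rw [Polynomial.mul_coeff_zero, ecls_lf]
  · show (lf (-(3 * n) - 2) * (NDm n).1).coeff 0 = _
    rw [Polynomial.mul_coeff_zero, ecls_lf]

/-- a positive multiple of `q` below `2q` is `q` -/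
theorem ecls_dvd {q : ℕ} {m : ℤ} (h0 : 0 < m) (h2 : m < 2 * q) (h : (q : ℤ) ∣ m) : m = q := by
  obtain ⟨k, rfl⟩ := h
  have hq0 : (0 : ℤ) < q := by
    by_contra hh
    have : (q : ℤ) = 0 := by omega
    rw [this, zero_mul] at h0
    exact lt_irrefl _ h0
  have hk1 : 0 < k := by
    by_contra hk
    have : (q : ℤ) * k ≤ 0 := mul_nonpos_of_nonneg_of_nonpos hq0.le (by omega)
    omega
  have hk2 : k < 2 := by
    by_contra hk
    have : (q : ℤ) * 2 ≤ q * k := mul_le_mul_of_nonneg_left (by omega) hq0.le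
    omega
  have : k = 1 := by omega
  rw [this, mul_one]

theorem ecls_p (q : ℕ) (hq : q.Prime) (h5 : 5 ≤ q) (n : ℕ) (hn : 3 * n < 2 * q) :
    ((q : ℤ) ∣ ((NDp n).2).coeff 0 → n % 2 = 1 ∧ q < 3 * n) ∧
    ((q : ℤ) ∣ ((NDp n).1).coeff 0 → n % 2 = 0 ∧ q < 3 * n) := by
  obtain ⟨ho, h3⟩ := ecls_odd q hq h5
  have hqp : Prime (q : ℤ) := Nat.prime_iff_prime_int.1 hq
  induction n with
  | zero =>
    have h1 : ¬ (q : ℤ) ∣ 1 := hqp.not_dvd_one
    constructor
    · intro h
      exfalso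
      apply h1
      simpa [NDp] using h
    · intro h
      exfalso
      apply h1
      simpa [NDp] using h
  | succ n ih =>
    obtain ⟨ih1, ih2⟩ := ih (by omega)
    obtain ⟨e1, e2⟩ := ecls_NDp n
    constructor
    · intro h
      rw [e2] at h
      rcases hqp.dvd_or_dvd h with h | h
      · have := ecls_dvd (by omega) (by omega) h
        omega
      · have := ih2 h
        omega
    · intro h
      rw [e1] at h
      rcases hqp.dvd_or_dvd h with h | h
      · have := ecls_dvd (by omega) (by omega) h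
        omega
      · have := ih1 h
        omega

theorem ecls_m (q : ℕ) (hq : q.Prime) (h5 : 5 ≤ q) (n : ℕ) (hn : 3 * n < 2 * q) :
    ((q : ℤ) ∣ ((NDm n).2).coeff 0 → n % 2 = 0 ∧ q < 3 * n) ∧
    ((q : ℤ) ∣ ((NDm n).1).coeff 0 → n % 2 = 1 ∧ q < 3 * n) := by
  obtain ⟨ho, h3⟩ := ecls_odd q hq h5
  have hqp : Prime (q : ℤ) := Nat.prime_iff_prime_int.1 hq
  induction n with
  | zero =>
    have h1 : ¬ (q : ℤ) ∣ 1 := hqp.not_dvd_one
    constructor
    · intro h
      exfalso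
      apply h1
      simpa [NDm] using h
    · intro h
      exfalso
      apply h1
      simpa [NDm] using h
  | succ n ih =>
    obtain ⟨ih1, ih2⟩ := ih (by omega)
    obtain ⟨e1, e2⟩ := ecls_NDm n
    constructor
    · intro h
      rw [e2] at h
      rcases hqp.dvd_or_dvd h with h | h
      · have := ecls_dvd (m := -(-(3 * (n : ℤ)) - 2)) (by omega) (by omega) (dvd_neg.2 h)
        omega
      · have := ih2 h
        omega
    · intro h
      rw [e1] at h
      rcases hqp.dvd_or_dvd h with h | h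
      · have := ecls_dvd (m := -(-(3 * (n : ℤ)) - 1)) (by omega) (by omega) (dvd_neg.2 h)
        omega
      · have := ih1 h
        omega

/-- at a node with `|t| < 2q/3` the denominator is divisible by `q` only if `Ee q t = -1` -/
theorem Ee_pole (q : ℕ) (hq : q.Prime) (h5 : 5 ≤ q) (t : ℤ) (ht : 3 * |t| < 2 * q) (hE : Ee q t ≠ -1) :
    ¬ (q : ℤ) ∣ (DN t).coeff 0 := by
  intro h
  apply hE
  obtain ⟨ho, h3⟩ := ecls_odd q hq h5
  have hq0 : (0 : ℤ) < q := by exact_mod_cast hq.pos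
  unfold DN at h
  split_ifs at h with h0
  · obtain ⟨n, rfl⟩ := Int.eq_ofNat_of_zero_le h0
    rw [Int.toNat_natCast] at h
    rw [abs_of_nonneg h0] at ht
    have h1 := (ecls_p q hq h5 n (by omega)).1 h
    unfold Ee
    rw [Int.emod_eq_of_lt (by omega) (by omega)]
    rw [if_pos (by omega), if_neg (by omega)]
  · obtain ⟨n, hn⟩ := Int.eq_ofNat_of_zero_le (a := -t) (by omega)
    rw [hn, Int.toNat_natCast] at h
    rw [abs_of_neg (by omega)] at ht
    have h1 := (ecls_m q hq h5 n (by omega)).1 h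
    have h2 : t = (q - n) + q * (-1) := by omega
    have h4 : t % (q : ℤ) = q - n := by
      rw [h2, Int.add_mul_emod_self_left, Int.emod_eq_of_lt (by omega) (by omega)]
    unfold Ee
    rw [h4, if_pos (by omega), if_neg (by omega)]

theorem ecls_iff_nonneg (q : ℕ) (n : ℕ) (hn : 3 * n < 2 * q) :
    Ee q (n : ℤ) = -1 ↔ q / 3 < n ∧ n % 2 = 1 := by
  unfold Ee
  rw [Int.emod_eq_of_lt (by omega) (by omega)]
  split_ifs <;> constructor <;> intro h <;> first | exact h.elim | omega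

theorem ecls_iff_neg (q : ℕ) (hq : q.Prime) (h5 : 5 ≤ q) (n : ℕ) (hn : 3 * n < 2 * q) :
    Ee q (-(n : ℤ)) = -1 ↔ q / 3 < n ∧ n % 2 = 0 := by
  rw [Ee_neg q hq h5]
  unfold Ee
  rw [Int.emod_eq_of_lt (by omega) (by omega)]
  split_ifs <;> constructor <;> intro h <;> first | exact h.elim | omega

/-- number of the nodes `|t| ≤ S`, `S < 2q/3`, with `Ee q t = -1` -/
theorem Ee_count (q : ℕ) (hq : q.Prime) (h5 : 5 ≤ q) (S : ℕ) (hS : 3 * S < 2 * q) :
    ((Icc (-(S : ℤ)) S).filter (fun t => Ee q t = -1)).card = S - q / 3 := by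
  have h1 : ((Icc (-(S : ℤ)) S).filter (fun t => Ee q t = -1)).card = (Finset.Ioc (q / 3) S).card := by
    refine Finset.card_nbij' (fun t => t.natAbs) (fun n => if n % 2 = 1 then (n : ℤ) else -(n : ℤ))
      ?_ ?_ ?_ ?_
    · intro t ht
      simp only [Finset.coe_filter, Set.mem_ofPred_eq, Finset.mem_Icc] at ht
      obtain ⟨⟨ha, hb⟩, hE⟩ := ht
      simp only [Finset.coe_Ioc, Set.mem_Ioc]
      rcases le_total 0 t with h0 | h0
      · obtain ⟨n, rfl⟩ := Int.eq_ofNat_of_zero_le h0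
        have := (ecls_iff_nonneg q n (by omega)).1 hE
        omega
      · obtain ⟨n, hn⟩ := Int.eq_ofNat_of_zero_le (a := -t) (by omega)
        have hn' : t = -(n : ℤ) := by omega
        rw [hn'] at hE
        have := (ecls_iff_neg q hq h5 n (by omega)).1 hE
        omega
    · intro n hn
      simp only [Finset.coe_Ioc, Set.mem_Ioc] at hn
      simp only [Finset.coe_filter, Set.mem_ofPred_eq, Finset.mem_Icc]
      split_ifs with hp
      · exact ⟨by omega, (ecls_iff_nonneg q n (by omega)).2 (by omega)⟩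
      · exact ⟨by omega, (ecls_iff_neg q hq h5 n (by omega)).2 (by omega)⟩
    · intro t ht
      simp only [Finset.coe_filter, Set.mem_ofPred_eq, Finset.mem_Icc] at ht
      obtain ⟨⟨ha, hb⟩, hE⟩ := ht
      rcases le_total 0 t with h0 | h0
      · obtain ⟨n, rfl⟩ := Int.eq_ofNat_of_zero_le h0
        have := (ecls_iff_nonneg q n (by omega)).1 hE
        simp only [Int.natAbs_natCast]
        rw [if_pos this.2]
      · obtain ⟨n, hn⟩ := Int.eq_ofNat_of_zero_le (a := -t) (by omega)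
        have hn' : t = -(n : ℤ) := by omega
        rw [hn'] at hE
        have := (ecls_iff_neg q hq h5 n (by omega)).1 hE
        simp only [hn', Int.natAbs_neg, Int.natAbs_natCast]
        rw [if_neg (by omega)]
    · intro n hn
      simp only
      split_ifs <;> omega
  rw [h1, Nat.card_Ioc]

end Pool.Agent.H80.HF
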