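import Pool.Agent.H80.HF.Loc
import Pool.Agent.H80.HF.Comb
import Pool.Agent.H80.HF.Ecls

/-!
# HF B1: the minors at the primes `q` with `3L < q²` (used for `q ≤ L`)

PROOF. `loc_bound`; by `SS_true`, `SS_false` the product is at most `q^E` with
`E = ∑_c j_c - ∑_(b c = true) k_c - ∑_(b c = false) (k_c + Ee q t_c)`. `∑_c j_c ≤ 3 (2L+1)` (`ρ` is injective, values in
`[-L,L] × Fin 3`). `comb_thr` with `e = 0` for the rows of type `true` (card `3L`) and with `e = Ee q` for the others (card `3L`),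
`c r = (t % q).toNat`; `Ee_mod`, `Ee_sum`, `Ee_card`, `Ee_vals`.
-/

set_option autoImplicit false

namespace Pool.Agent.H80.HF

open Finset

/-- the sum of the jets of the rows -/
theorem sum_jets (L : ℕ) (ρ : Col L → ℤ × Fin 3) (hρ : Rows L ρ) :
    ∑ c, (((ρ c).2 : ℕ) : ℤ) ≤ 6 * L + 3 := by
  classical
  have h1 : ∑ c, (((ρ c).2 : ℕ) : ℤ) = ∑ r ∈ (univ : Finset (Col L)).image ρ, ((r.2 : ℕ) : ℤ) := by
    rw [sum_image (fun a _ b _ h => hρ.inj h)]
  have h2 : (univ : Finset (Col L)).image ρ ⊆ (Icc (-(L : ℤ)) L) ×ˢ (univ : Finset (Fin 3)) := by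
    intro r hr
    obtain ⟨c, _, rfl⟩ := mem_image.1 hr
    refine mem_product.2 ⟨mem_Icc.2 (abs_le.1 (hρ.le c)), mem_univ _⟩
  rw [h1]
  refine (sum_le_sum_of_subset_of_nonneg h2 fun _ _ _ => by positivity).trans ?_
  rw [sum_product]
  simp only [Fin.sum_univ_three]
  rw [sum_const, Int.card_Icc, nsmul_eq_mul]
  have : (((L : ℤ) + 1 - -(L : ℤ)).toNat : ℤ) = 2 * L + 1 := by
    rw [Int.toNat_of_nonneg (by linarith [Int.natCast_nonneg L])]
    ring
  rw [this]
  simp
  linarith

theorem b1 (q : ℕ) [Fact q.Prime] (h5 : 5 ≤ q) (L : ℕ) (hL : 1 ≤ L) (hq : 3 * L < q ^ 2)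
    (ρ : Col L → ℤ × Fin 3) (hρ : Rows L ρ) :
    padicNorm q (DD L ρ) ≤ (q : ℚ) ^ (((6 * L + 3 + q / 6 + 2 : ℕ) : ℤ) -
      ((2 * ∑ i ∈ range (3 * L), i / q : ℕ) : ℤ)) := by
  classical
  have hqp : q.Prime := Fact.out
  have hq0 : 0 < q := hqp.pos
  have hq1 : (1 : ℚ) ≤ (q : ℚ) := by exact_mod_cast hq0
  have hqz : (q : ℚ) ≠ 0 := by positivity
  refine loc_bound q L hL ρ _ (by positivity) fun b k hb hk _ => ?_
  -- the exponent of every row
  set E : Col L → ℤ := fun c => (((ρ c).2 : ℕ) : ℤ) - (k c : ℤ) - (if b c = true then 0 else Ee q (ρ c).1) with hE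
  have h1 : ∏ c, padicNorm q (SS q (ρ c) (b c) (k c)) ≤ ∏ c, (q : ℚ) ^ E c := by
    refine prod_le_prod (fun _ _ => padicNorm.nonneg _) fun c _ => ?_
    rcases hbc : b c with _ | _
    · have := SS_false q h5 L hq (ρ c) (hρ.le c) (k c)
      simpa [hE, hbc] using this
    · have := SS_true q (ρ c) (k c)
      simpa [hE, hbc] using this
  refine h1.trans ?_
  have h2 : ∏ c, (q : ℚ) ^ E c = (q : ℚ) ^ (∑ c, E c) := by
    induction (univ : Finset (Col L)) using Finset.induction_on with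
    | empty => simp
    | insert a s ha ih => rw [prod_insert ha, sum_insert ha, ih, zpow_add₀ hqz]
  rw [h2]
  refine zpow_le_zpow_right₀ hq1 ?_
  -- classes
  set cl : Col L → ℕ := fun c => ((ρ c).1 % (q : ℤ)).toNat with hcl
  have hqZ : (0 : ℤ) < (q : ℤ) := by exact_mod_cast hq0
  have hclz : ∀ c, (cl c : ℤ) = (ρ c).1 % (q : ℤ) := fun c =>
    Int.toNat_of_nonneg (Int.emod_nonneg _ hqZ.ne')
  have hcllt : ∀ c, cl c < q := fun c => by
    have := Int.emod_lt_of_pos (ρ c).1 hqZ
    have h := hclz c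
    omega
  have hcleq : ∀ c c', cl c = cl c' → (ρ c).1 % (q : ℤ) = (ρ c').1 % (q : ℤ) := fun c c' h => by
    rw [← hclz, ← hclz, h]
  have hEe : ∀ c, Ee q (ρ c).1 = Ee q (cl c : ℤ) := fun c => by
    refine Ee_mod q _ _ ?_
    rw [hclz, Int.emod_emod_of_dvd _ (dvd_refl _)]
  have hcardT : (univ.filter (fun c => b c = true)).card = 3 * L := hb
  have hcardF : (univ.filter (fun c => ¬ b c = true)).card = 3 * L := by
    have := Finset.card_filter_add_card_filter_not (s := (univ : Finset (Col L))) (p := fun c => b c = true)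
    rw [hcardT] at this
    have h : (univ : Finset (Col L)).card = 3 * L + 3 * L := by
      rw [card_univ]
      simp [Col]
    omega
  have hT := comb_thr q hq0 (fun _ => 0) (fun _ _ => Or.inr (Or.inl rfl)) (by simp)
    (univ.filter (fun c => b c = true)) cl (fun c _ => hcllt c) k (by
      intro r hr r' hr' hc hkk
      by_contra hne
      have a := (mem_filter.1 hr).2
      have a' := (mem_filter.1 hr').2
      exact hk r r' hne (hcleq _ _ hc) (a.trans a'.symm) hkk)
  have hF := comb_thr q hq0 (fun c => Ee q (c : ℤ)) (fun c _ => Ee_vals q _) (Ee_sum q hqp h5)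
    (univ.filter (fun c => ¬ b c = true)) cl (fun c _ => hcllt c) k (by
      intro r hr r' hr' hc hkk
      by_contra hne
      have a := (mem_filter.1 hr).2
      have a' := (mem_filter.1 hr').2
      refine hk r r' hne (hcleq _ _ hc) ?_ hkk
      rw [Bool.not_eq_true] at a a'
      exact a.trans a'.symm)
  rw [hcardT] at hT
  rw [hcardF] at hF
  have hcard := Ee_card q
  have hjets := sum_jets L ρ hρ
  have hsplit : ∑ c, E c = ∑ c, (((ρ c).2 : ℕ) : ℤ) -
      ∑ c ∈ univ.filter (fun c => b c = true), ((k c : ℤ) + 0) -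
      ∑ c ∈ univ.filter (fun c => ¬ b c = true), ((k c : ℤ) + Ee q (cl c : ℤ)) := by
    have e1 : ∑ c, E c = ∑ c, (((ρ c).2 : ℕ) : ℤ) -
        ∑ c, ((k c : ℤ) + (if b c = true then 0 else Ee q (ρ c).1)) := by
      rw [← sum_sub_distrib]
      refine sum_congr rfl fun c _ => ?_
      simp only [hE]
      ring
    have e2 : ∑ c, ((k c : ℤ) + (if b c = true then 0 else Ee q (ρ c).1)) =
        ∑ c ∈ univ.filter (fun c => b c = true), ((k c : ℤ) + 0) +
          ∑ c ∈ univ.filter (fun c => ¬ b c = true), ((k c : ℤ) + Ee q (cl c : ℤ)) := by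
      rw [← sum_filter_add_sum_filter_not univ (fun c => b c = true)]
      congr 1
      · refine sum_congr rfl fun c hc => ?_
        rw [if_pos (mem_filter.1 hc).2]
      · refine sum_congr rfl fun c hc => ?_
        rw [if_neg (mem_filter.1 hc).2, hEe]
    rw [e1, e2]
    ring
  rw [hsplit]
  have h0 : ((range q).filter (fun _ : ℕ => (0 : ℤ) = -1)).card = 0 := by simp
  simp only [h0] at hT
  push_cast at hT hF ⊢
  have hcard' : (((range q).filter (fun c : ℕ => Ee q (c : ℤ) = -1)).card : ℤ) ≤ (q : ℤ) / 6 + 2 := by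
    have : (((range q).filter (fun c : ℕ => Ee q (c : ℤ) = -1)).card : ℤ) ≤ ((q / 6 + 2 : ℕ) : ℤ) := by
      exact_mod_cast hcard
    push_cast at this
    exact this
  linarith

end Pool.Agent.H80.HF
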