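import Pool.Agent.H80.HF.Loc

/-!
# HF B2: the minors at the primes `L < q ≤ 2L`

PROOF. `loc_bound`. Every class modulo `q` has at most two nodes in `[-L,L]` (`3q > 2L+1`, and `t - q, t, t + q` do not fit as
`q > L`). Let `x_c` be the exponent of the bound of `padicNorm (SS ..)`. Sum over the classes.
(d) class with two nodes `t, t-q` (`q-L ≤ t ≤ L`), `T ≤ 6` rows present: `x_c = j - k` (true), `j - k - E` (false),
`E = Ee q t`. If `T = 6`: `∑ j = 6`, `∑ k ≥ s(s-1)/2 + s'(s'-1)/2`, `s + s' = 6`, so the sum is `≤ 6 - (..) - E s' ≤ -3E`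
(seven cases). If `T < 6`: `≤ 11 ≤ -3E + 15 (6-T)`. The number of missing rows is `(6L+3) - 6L = 3` in total. The residues
`t` with `q - L ≤ t ≤ L` are symmetric under `t → q - t`: `∑ -3E = 0` by `Ee_neg`, `Ee_mod`.
(s) class with one node `t`, then `|t| ≤ S := q-L-1`, `2|t| < q`, `3|t| < 2q`, `Int.bmod t q = t`: by `SS_single_true`,
`SS_single_false` the factor is `1` for type true (`k = j`), and the norm of `coeff (j-k) F_t`, `k ≤ j`, for type false.
If `Ee q t ≠ -1`: `Ee_pole`, `F_int`: `≤ 1`. If `Ee q t = -1`: `x = j - k + 1` by `F_bound`, at most three rows with distinct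
`j ∈ {0,1,2}`, distinct `k`: `s' = 1`: 3, `s' = 2`: 4, `s' = 3`: 3: sum `≤ 4`. Number of these nodes: `Ee_count`.
Total `≤ 45 + 4 (S - q/3)`.
-/

set_option autoImplicit false

namespace Pool.Agent.H80.HF

open Finset

/-- the sum of distinct natural numbers -/
lemma two_sum_ge (s : Finset ℕ) : (s.card : ℤ) * (s.card - 1) ≤ 2 * ∑ x ∈ s, (x : ℤ) := by
  induction s using Finset.induction_on_max with
  | empty => simp
  | insert a s hs ih =>
    have ha : a ∉ s := fun h => lt_irrefl a (hs a h)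
    have hc : s.card ≤ a := by
      have : s ⊆ range a := fun x hx => mem_range.2 (hs x hx)
      simpa using card_le_card this
    rw [card_insert_of_notMem ha, sum_insert ha]
    have hc' : (s.card : ℤ) ≤ a := by exact_mod_cast hc
    push_cast
    nlinarith

lemma two_sum_k {ι : Type} [DecidableEq ι] (A : Finset ι) (k : ι → ℕ)
    (hk : ∀ c ∈ A, ∀ c' ∈ A, c ≠ c' → k c ≠ k c') :
    (A.card : ℤ) * (A.card - 1) ≤ 2 * ∑ c ∈ A, (k c : ℤ) := by
  have hinj : Set.InjOn k A := by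
    intro c hc c' hc' h
    by_contra hne
    exact hk c hc c' hc' hne h
  have h1 := two_sum_ge (A.image k)
  rw [card_image_of_injOn hinj, sum_image hinj] at h1
  exact h1

lemma sum_split {ι : Type} [DecidableEq ι] (F : Finset ι) (b : ι → Bool) (f : ι → ℤ) :
    ∑ c ∈ F, f c = ∑ c ∈ F.filter (fun c => b c = true), f c +
      ∑ c ∈ F.filter (fun c => b c = false), f c := by
  rw [← sum_filter_add_sum_filter_not F (fun c => b c = true)]
  congr 2
  ext c
  simp

lemma card_split {ι : Type} [DecidableEq ι] (F : Finset ι) (b : ι → Bool) :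
    F.card = (F.filter (fun c => b c = true)).card + (F.filter (fun c => b c = false)).card := by
  rw [← card_filter_add_card_filter_not (s := F) (fun c => b c = true)]
  congr 2
  ext c
  simp

/-- the rows of a class with two nodes -/
lemma dbl {ι : Type} [DecidableEq ι] (F : Finset ι) (b : ι → Bool) (k : ι → ℕ) (j : ι → Fin 3)
    (w : ι → Bool) (hinj : ∀ c ∈ F, ∀ c' ∈ F, w c = w c' → j c = j c' → c = c')
    (hk : ∀ c ∈ F, ∀ c' ∈ F, c ≠ c' → b c = b c' → k c ≠ k c') (E : ℤ)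
    (hE : E = -1 ∨ E = 0 ∨ E = 1) :
    ∑ c ∈ F, (((j c : ℕ) : ℤ) - k c - (if b c = true then 0 else E)) ≤
      -3 * E + 15 * (6 - (F.card : ℤ)) := by
  have hi : Set.InjOn (fun c => (w c, j c)) F := by
    intro c hc c' hc' h
    simp only [Prod.mk.injEq] at h
    exact hinj c hc c' hc' h.1 h.2
  have hcard : F.card ≤ 6 := by
    have h1 := card_le_card (subset_univ (F.image fun c => (w c, j c)))
    rw [card_image_of_injOn hi] at h1
    simpa using h1
  have hj : ∑ c ∈ F, ((j c : ℕ) : ℤ) ≤ 6 := by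
    have h1 : ∑ c ∈ F, ((j c : ℕ) : ℤ) =
        ∑ x ∈ F.image (fun c => (w c, j c)), ((x.2 : ℕ) : ℤ) := by
      rw [sum_image hi]
    have h2 : ∑ x ∈ F.image (fun c => (w c, j c)), ((x.2 : ℕ) : ℤ) ≤
        ∑ x : Bool × Fin 3, ((x.2 : ℕ) : ℤ) :=
      sum_le_sum_of_subset_of_nonneg (subset_univ _) fun _ _ _ => by positivity
    have h3 : ∑ x : Bool × Fin 3, ((x.2 : ℕ) : ℤ) = 6 := by decide
    linarith
  set A := F.filter (fun c => b c = true) with hA
  set D := F.filter (fun c => b c = false) with hD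
  have hKA := two_sum_k A k (by
    intro c hc c' hc' hne
    rw [hA, mem_filter] at hc hc'
    exact hk c hc.1 c' hc'.1 hne (by rw [hc.2, hc'.2]))
  have hKD := two_sum_k D k (by
    intro c hc c' hc' hne
    rw [hD, mem_filter] at hc hc'
    exact hk c hc.1 c' hc'.1 hne (by rw [hc.2, hc'.2]))
  have hsum : ∑ c ∈ F, (((j c : ℕ) : ℤ) - k c - (if b c = true then 0 else E)) =
      ∑ c ∈ F, ((j c : ℕ) : ℤ) - ∑ c ∈ A, (k c : ℤ) - ∑ c ∈ D, (k c : ℤ) - D.card * E := by
    rw [sum_sub_distrib, sum_sub_distrib, sum_split F b (fun c => (k c : ℤ)),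
      sum_split F b (fun c => if b c = true then 0 else E)]
    have e1 : ∑ c ∈ A, (if b c = true then (0 : ℤ) else E) = 0 :=
      sum_eq_zero fun c hc => if_pos (mem_filter.1 hc).2
    have e2 : ∑ c ∈ D, (if b c = true then (0 : ℤ) else E) = D.card * E := by
      rw [sum_congr rfl (fun c hc => if_neg (by rw [(mem_filter.1 hc).2]; simp)),
        sum_const, nsmul_eq_mul]
    rw [← hA, ← hD, e1, e2]
    ring
  have hc2 : F.card = A.card + D.card := card_split F b
  rw [hsum]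
  have hKA0 : 0 ≤ ∑ c ∈ A, (k c : ℤ) := sum_nonneg fun _ _ => by positivity
  have hKD0 : 0 ≤ ∑ c ∈ D, (k c : ℤ) := sum_nonneg fun _ _ => by positivity
  generalize ∑ c ∈ A, (k c : ℤ) = KA at *
  generalize ∑ c ∈ D, (k c : ℤ) = KD at *
  generalize ∑ c ∈ F, ((j c : ℕ) : ℤ) = J at *
  generalize A.card = a at *
  generalize D.card = s at *
  generalize F.card = n at *
  subst hc2
  have ha : a ≤ 6 := by omega
  have hs : s ≤ 6 := by omega
  interval_cases a <;> interval_cases s <;> rcases hE with rfl | rfl | rfl <;>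
    push_cast at hKA hKD hcard ⊢ <;> omega

/-- the rows of a class with one node -/
lemma sgl {ι : Type} [DecidableEq ι] (F : Finset ι) (b : ι → Bool) (k : ι → ℕ) (j : ι → Fin 3)
    (hinj : ∀ c ∈ F, ∀ c' ∈ F, j c = j c' → c = c')
    (hk : ∀ c ∈ F, ∀ c' ∈ F, c ≠ c' → b c = b c' → k c ≠ k c') :
    ∑ c ∈ F, (if b c = true then (0 : ℤ) else ((j c : ℕ) : ℤ) - k c + 1) ≤ 4 := by
  set D := F.filter (fun c => b c = false) with hD
  have hKD := two_sum_k D k (by
    intro c hc c' hc' hne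
    rw [hD, mem_filter] at hc hc'
    exact hk c hc.1 c' hc'.1 hne (by rw [hc.2, hc'.2]))
  have hi : Set.InjOn j D := by
    intro c hc c' hc' h
    rw [mem_coe, hD, mem_filter] at hc hc'
    exact hinj c hc.1 c' hc'.1 h
  have hcard : D.card ≤ 3 := by
    have h1 := card_le_card (subset_univ (D.image j))
    rw [card_image_of_injOn hi] at h1
    simpa using h1
  have hj : ∑ c ∈ D, ((j c : ℕ) : ℤ) ≤ 3 := by
    have h1 : ∑ c ∈ D, ((j c : ℕ) : ℤ) = ∑ x ∈ D.image j, ((x : ℕ) : ℤ) := by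
      rw [sum_image hi]
    have h2 : ∑ x ∈ D.image j, ((x : ℕ) : ℤ) ≤ ∑ x : Fin 3, ((x : ℕ) : ℤ) :=
      sum_le_sum_of_subset_of_nonneg (subset_univ _) fun _ _ _ => by positivity
    have h3 : ∑ x : Fin 3, ((x : ℕ) : ℤ) = 3 := by decide
    linarith
  have hj2 : ∑ c ∈ D, ((j c : ℕ) : ℤ) ≤ 2 * D.card := by
    rw [mul_comm, ← nsmul_eq_mul]
    refine sum_le_card_nsmul _ _ _ fun c _ => ?_
    have := (j c).isLt
    omega
  have hsum : ∑ c ∈ F, (if b c = true then (0 : ℤ) else ((j c : ℕ) : ℤ) - k c + 1) =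
      ∑ c ∈ D, ((j c : ℕ) : ℤ) - ∑ c ∈ D, (k c : ℤ) + D.card := by
    rw [sum_split F b]
    have e1 : ∑ c ∈ F.filter (fun c => b c = true),
        (if b c = true then (0 : ℤ) else ((j c : ℕ) : ℤ) - k c + 1) = 0 :=
      sum_eq_zero fun c hc => if_pos (mem_filter.1 hc).2
    have e2 : ∑ c ∈ D, (if b c = true then (0 : ℤ) else ((j c : ℕ) : ℤ) - k c + 1) =
        ∑ c ∈ D, (((j c : ℕ) : ℤ) - k c + 1) :=
      sum_congr rfl (fun c hc => if_neg (by rw [(mem_filter.1 hc).2]; simp))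
    rw [← hD, e1, e2, sum_add_distrib, sum_sub_distrib, sum_const, nsmul_eq_mul]
    ring
  rw [hsum]
  have hKD0 : 0 ≤ ∑ c ∈ D, (k c : ℤ) := sum_nonneg fun _ _ => by positivity
  generalize ∑ c ∈ D, (k c : ℤ) = KD at *
  generalize ∑ c ∈ D, ((j c : ℕ) : ℤ) = J at *
  generalize D.card = s at *
  interval_cases s <;> norm_num at hKD hj2 ⊢ <;> omega

lemma prod_zpow_sum {ι : Type} (s : Finset ι) (a : ℚ) (ha : a ≠ 0) (x : ι → ℤ) :
    ∏ c ∈ s, a ^ x c = a ^ ∑ c ∈ s, x c := by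
  classical
  induction s using Finset.induction_on with
  | empty => simp
  | insert c s hc ih => rw [prod_insert hc, sum_insert hc, ih, zpow_add₀ ha]

/-- `∑ Ee` over the double classes -/
lemma Ee_dbl (q : ℕ) (hq : q.Prime) (h5 : 5 ≤ q) (L : ℕ) :
    ∑ u ∈ Icc ((q : ℤ) - L) L, Ee q u = 0 := by
  have h : ∑ u ∈ Icc ((q : ℤ) - L) L, Ee q u = ∑ u ∈ Icc ((q : ℤ) - L) L, -Ee q u := by
    refine sum_nbij' (fun u => (q : ℤ) - u) (fun u => (q : ℤ) - u) ?_ ?_ ?_ ?_ ?_
    · intro u hu; rw [mem_Icc] at hu ⊢; omega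
    · intro u hu; rw [mem_Icc] at hu ⊢; omega
    · intro u _; ring
    · intro u _; ring
    · intro u _
      have h1 : Ee q ((q : ℤ) - u) = Ee q (-u) := by
        refine Ee_mod q _ _ ?_
        have : (q : ℤ) - u = -u + q * 1 := by ring
        rw [this, Int.add_mul_emod_self_left]
      rw [h1, Ee_neg q hq h5, neg_neg]
  rw [sum_neg_distrib] at h
  omega

/-- the representative of the class of a node -/
def cl (q L : ℕ) (t : ℤ) : ℤ :=
  if |t| ≤ (q : ℤ) - L - 1 then t else if 0 < t then t else t + q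

/-- the exponent of a factor -/
def xx (q L : ℕ) (t : ℤ) (b : Bool) (j k : ℤ) : ℤ :=
  if |t| ≤ (q : ℤ) - L - 1 then (if b = true then 0 else if Ee q t = -1 then j - k + 1 else 0)
  else j - k - (if b = true then 0 else Ee q t)

lemma SS_xx (q : ℕ) [Fact q.Prime] (h5 : 5 ≤ q) (L : ℕ) (hq : 3 * L < q ^ 2)
    (hLq : L < q) (hq2 : q ≤ 2 * L) (r : ℤ × Fin 3) (hr : |r.1| ≤ (L : ℤ)) (b : Bool) (k : ℕ)
    (hne : SS q r b k ≠ 0) :
    padicNorm q (SS q r b k) ≤ (q : ℚ) ^ xx q L r.1 b ((r.2 : ℕ) : ℤ) k := by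
  have hp : q.Prime := Fact.out
  unfold xx
  by_cases ht : |r.1| ≤ (q : ℤ) - L - 1
  · rw [if_pos ht]
    have hbm : Int.bmod r.1 q = r.1 := by
      rw [abs_le] at ht
      exact Int.bmod_eq_of_le_mul_two (by omega) (by omega)
    cases b with
    | true =>
      rw [if_pos rfl, (SS_single_true q r hbm k hne).2]
      simp
    | false =>
      rw [if_neg (by simp)]
      obtain ⟨hkj, hSS⟩ := SS_single_false q r hbm k hne
      rw [hSS]
      by_cases hE : Ee q r.1 = -1
      · rw [if_pos hE]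
        have h1 := F_bound q h5 L hq r.1 hr ((r.2 : ℕ) - k)
        rw [hE, Nat.cast_sub hkj] at h1
        have e : ((r.2 : ℕ) : ℤ) - (k : ℤ) - -1 = ((r.2 : ℕ) : ℤ) - k + 1 := by ring
        rwa [e] at h1
      · rw [if_neg hE, zpow_zero]
        refine F_int q r.1 (Ee_pole q hp h5 r.1 ?_ hE) _
        have := ht
        omega
  · rw [if_neg ht]
    cases b with
    | true =>
      rw [if_pos rfl, sub_zero]
      exact SS_true q r k
    | false =>
      rw [if_neg (by simp)]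
      exact SS_false q h5 L hq r hr k

theorem b2 (q : ℕ) [Fact q.Prime] (h5 : 5 ≤ q) (L : ℕ) (hL : 1 ≤ L) (hq : 3 * L < q ^ 2)
    (hLq : L < q) (hq2 : q ≤ 2 * L) (ρ : Col L → ℤ × Fin 3) (hρ : Rows L ρ) :
    padicNorm q (DD L ρ) ≤ (q : ℚ) ^ ((4 * (q - L - 1 - q / 3) + 100 : ℕ) : ℤ) := by
  have hp : q.Prime := Fact.out
  have hq0 : (0 : ℚ) < q := by exact_mod_cast hp.pos
  have hq1 : (1 : ℚ) ≤ q := by exact_mod_cast hp.one_lt.le
  refine loc_bound q L hL ρ _ (by positivity) ?_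
  intro b k _ hk hne
  set x : Col L → ℤ := fun c => xx q L (ρ c).1 (b c) (((ρ c).2 : ℕ) : ℤ) (k c) with hx
  have h1 : ∏ c, padicNorm q (SS q (ρ c) (b c) (k c)) ≤ ∏ c, (q : ℚ) ^ x c :=
    prod_le_prod (fun c _ => padicNorm.nonneg _) fun c _ =>
      SS_xx q h5 L hq hLq hq2 (ρ c) (hρ.le c) (b c) (k c) (hne c)
  refine h1.trans ?_
  rw [prod_zpow_sum _ _ hq0.ne']
  refine zpow_le_zpow_right₀ hq1 ?_
  -- the sum of the exponents
  set S : ℤ := (q : ℤ) - L - 1 with hS
  have hS0 : 0 ≤ S := by omega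
  set I1 : Finset ℤ := Icc (-S) S with hI1
  set I2 : Finset ℤ := Icc ((q : ℤ) - L) L with hI2
  have hdisj : Disjoint I1 I2 := by
    rw [disjoint_left]
    intro u h1 h2
    rw [hI1, mem_Icc] at h1
    rw [hI2, mem_Icc] at h2
    omega
  have hcl : ∀ c : Col L, cl q L (ρ c).1 ∈ I1 ∪ I2 := by
    intro c
    have hr := hρ.le c
    rw [abs_le] at hr
    unfold cl
    rw [mem_union, hI1, hI2]
    split_ifs with h h'
    · left; rw [abs_le] at h; rw [mem_Icc]; omega
    · right; rw [abs_le] at h; rw [mem_Icc]; omega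
    · right; rw [abs_le] at h; rw [mem_Icc]; omega
  set fb : ℤ → Finset (Col L) := fun u => univ.filter fun c => cl q L (ρ c).1 = u with hfb
  have hsumx : ∑ c, x c = ∑ u ∈ I1, ∑ c ∈ fb u, x c + ∑ u ∈ I2, ∑ c ∈ fb u, x c := by
    rw [← sum_union hdisj, sum_fiberwise_of_maps_to (fun c _ => hcl c)]
  have hcards : ((6 * L : ℕ) : ℤ) = ∑ u ∈ I1, ((fb u).card : ℤ) + ∑ u ∈ I2, ((fb u).card : ℤ) := by
    rw [← sum_union hdisj]
    have h2 := card_eq_sum_card_fiberwise (s := (univ : Finset (Col L))) (t := I1 ∪ I2)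
      (f := fun c => cl q L (ρ c).1) (fun c _ => by simpa using hcl c)
    have h3 : (univ : Finset (Col L)).card = 6 * L := by
      rw [card_univ, Fintype.card_sum, Fintype.card_fin]; ring
    rw [h3] at h2
    rw [h2]
    push_cast
    rfl
  -- single nodes
  have hf1 : ∀ u ∈ I1, ∀ c ∈ fb u, (ρ c).1 = u ∧ |(ρ c).1| ≤ S := by
    intro u hu c hc
    rw [hfb, mem_filter] at hc
    have hr := hρ.le c
    have hc2 := hc.2
    unfold cl at hc2
    rw [hI1, mem_Icc] at hu
    split_ifs at hc2 with h h'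
    · exact ⟨hc2, h⟩
    · exfalso; rw [abs_le] at h hr; omega
    · exfalso; rw [abs_le] at h hr; omega
  have hf2 : ∀ u ∈ I2, ∀ c ∈ fb u, ¬ |(ρ c).1| ≤ S ∧ ((ρ c).1 = u ∨ (ρ c).1 = u - q) := by
    intro u hu c hc
    rw [hfb, mem_filter] at hc
    have hr := hρ.le c
    have hc2 := hc.2
    unfold cl at hc2
    rw [hI2, mem_Icc] at hu
    split_ifs at hc2 with h h'
    · exfalso; rw [abs_le] at h; omega
    · exact ⟨h, Or.inl hc2⟩
    · exact ⟨h, Or.inr (by omega)⟩
  have hkk : ∀ c c', c ≠ c' → ((ρ c).1 - (ρ c').1) % q = 0 → b c = b c' → k c ≠ k c' := by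
    intro c c' hne' hmod hb
    exact hk c c' hne' (Int.emod_eq_emod_iff_emod_sub_eq_zero.2 hmod) hb
  have hs1 : ∀ u ∈ I1, ∑ c ∈ fb u, x c ≤ (if Ee q u = -1 then 4 else 0) := by
    intro u hu
    split_ifs with hE
    · have h3 : ∑ c ∈ fb u, x c = ∑ c ∈ fb u,
          (if b c = true then (0 : ℤ) else (((ρ c).2 : ℕ) : ℤ) - k c + 1) := by
        refine sum_congr rfl fun c hc => ?_
        obtain ⟨h4, h5'⟩ := hf1 u hu c hc
        simp only [hx]
        unfold xx
        rw [if_pos h5', h4, if_pos hE]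
      rw [h3]
      refine sgl (fb u) b k (fun c => (ρ c).2) ?_ ?_
      · intro c hc c' hc' hj
        refine hρ.inj (Prod.ext ?_ hj)
        rw [(hf1 u hu c hc).1, (hf1 u hu c' hc').1]
      · intro c hc c' hc' hne' hb
        refine hkk c c' hne' ?_ hb
        rw [(hf1 u hu c hc).1, (hf1 u hu c' hc').1]
        simp
    · refine (sum_eq_zero fun c hc => ?_).le
      obtain ⟨h4, h5'⟩ := hf1 u hu c hc
      simp only [hx]
      unfold xx
      rw [if_pos h5', h4, if_neg hE]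
      simp
  have hc1 : ∀ u ∈ I1, ((fb u).card : ℤ) ≤ 3 := by
    intro u hu
    have hi : Set.InjOn (fun c => (ρ c).2) (fb u) := by
      intro c hc c' hc' hj
      refine hρ.inj (Prod.ext ?_ hj)
      rw [(hf1 u hu c hc).1, (hf1 u hu c' hc').1]
    have h3 := card_le_card (subset_univ ((fb u).image fun c => (ρ c).2))
    rw [card_image_of_injOn hi] at h3
    have h4 : (fb u).card ≤ 3 := by simpa using h3
    exact_mod_cast h4
  have hs2 : ∀ u ∈ I2, ∑ c ∈ fb u, x c ≤ -3 * Ee q u + 15 * (6 - ((fb u).card : ℤ)) := by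
    intro u hu
    have hEe : ∀ c ∈ fb u, Ee q (ρ c).1 = Ee q u := by
      intro c hc
      rcases (hf2 u hu c hc).2 with h | h
      · rw [h]
      · rw [h]
        refine Ee_mod q _ _ ?_
        have : u - (q : ℤ) = u + q * (-1) := by ring
        rw [this, Int.add_mul_emod_self_left]
    have h3 : ∑ c ∈ fb u, x c = ∑ c ∈ fb u,
        ((((ρ c).2 : ℕ) : ℤ) - k c - (if b c = true then 0 else Ee q u)) := by
      refine sum_congr rfl fun c hc => ?_
      simp only [hx]
      unfold xx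
      rw [if_neg (hf2 u hu c hc).1, hEe c hc]
    rw [h3]
    refine dbl (fb u) b k (fun c => (ρ c).2) (fun c => decide ((ρ c).1 = u)) ?_ ?_ (Ee q u)
      (Ee_vals q u)
    · intro c hc c' hc' hw hj
      refine hρ.inj (Prod.ext ?_ hj)
      have h4 := (hf2 u hu c hc).2
      have h5' := (hf2 u hu c' hc').2
      simp only [decide_eq_decide] at hw
      by_cases hh : (ρ c).1 = u
      · rw [hh, hw.1 hh]
      · have hh' : ¬ (ρ c').1 = u := fun h => hh (hw.2 h)
        rw [h4.resolve_left hh, h5'.resolve_left hh']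
    · intro c hc c' hc' hne' hb
      refine hkk c c' hne' ?_ hb
      rcases (hf2 u hu c hc).2 with h4 | h4 <;> rcases (hf2 u hu c' hc').2 with h5' | h5' <;>
        rw [h4, h5'] <;> simp
  have hT1 : ∑ u ∈ I1, ∑ c ∈ fb u, x c ≤ 4 * ((q - L - 1 - q / 3 : ℕ) : ℤ) := by
    refine (sum_le_sum hs1).trans ?_
    have hSn : S = ((q - L - 1 : ℕ) : ℤ) := by omega
    rw [← sum_filter, sum_const, nsmul_eq_mul, hI1, hSn,
      Ee_count q hp h5 (q - L - 1) (by omega)]
    linarith
  have hT2 : ∑ u ∈ I2, ∑ c ∈ fb u, x c ≤ 45 := by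
    refine (sum_le_sum hs2).trans ?_
    rw [sum_add_distrib, ← mul_sum, ← mul_sum, hI2, Ee_dbl q hp h5 L, ← hI2, sum_sub_distrib,
      sum_const, nsmul_eq_mul]
    have hc2 : ((I2.card : ℕ) : ℤ) = 2 * L + 1 - q := by
      rw [hI2, Int.card_Icc]
      omega
    have hc3 : ((I1.card : ℕ) : ℤ) = 2 * S + 1 := by
      rw [hI1, Int.card_Icc]
      omega
    have hc4 : ∑ u ∈ I1, ((fb u).card : ℤ) ≤ 3 * (2 * S + 1) := by
      have := sum_le_card_nsmul I1 (fun u => ((fb u).card : ℤ)) 3 hc1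
      rw [nsmul_eq_mul, hc3] at this
      linarith
    rw [hc2]
    push_cast at hcards
    omega
  rw [hsumx]
  push_cast at hT1 ⊢
  omega

end Pool.Agent.H80.HF
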