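import Pool.Agent.H80.HF.Rec

/-!
# HF CntD: the primes `q > 2L` in the denominators

PROOF. Put `a n = NN n`, `b n = DN n`, `c n = NN (-n)`, `d n = DN (-n)` (constant terms). Then
`a (n+1) = (3n+2) b n`, `b (n+1) = (3n+1) a n`, `c (n+1) = -(3n+1) d n`, `d (n+1) = -(3n+2) c n`, so that
`v(a (n+1)) + v(c (n+1)) = v(b n) + v(d n) + v(3n+1) + v(3n+2)` and
`v(b (n+1)) + v(d (n+1)) = v(a n) + v(c n) + v(3n+1) + v(3n+2)`.
For a prime `q > 2L` and `n ≤ L` both sums are `1` if `q < 3n` and `0` otherwise. Hence the total is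
`#{n ≤ L : q < 3n} = L - q/3`.
-/

set_option autoImplicit false

namespace Pool.Agent.H80.HF

open Finset

theorem CntD_lf (n : ℤ) : (lf n).coeff 0 = n := by
  simp [lf]

theorem CntD_NNp (n : ℕ) : NN ((n : ℤ) + 1) = lf (3 * n + 2) * DN (n : ℤ) := by
  have h1 : (0 : ℤ) ≤ (n : ℤ) + 1 := by positivity
  have h2 : (0 : ℤ) ≤ (n : ℤ) := by positivity
  have h3 : ((n : ℤ) + 1).toNat = n + 1 := by omega
  have h4 : ((n : ℤ)).toNat = n := by omega
  rw [NN, DN, if_pos h1, if_pos h2, h3, h4, NDp]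

theorem CntD_DNp (n : ℕ) : DN ((n : ℤ) + 1) = lf (3 * n + 1) * NN (n : ℤ) := by
  have h1 : (0 : ℤ) ≤ (n : ℤ) + 1 := by positivity
  have h2 : (0 : ℤ) ≤ (n : ℤ) := by positivity
  have h3 : ((n : ℤ) + 1).toNat = n + 1 := by omega
  have h4 : ((n : ℤ)).toNat = n := by omega
  rw [NN, DN, if_pos h1, if_pos h2, h3, h4, NDp]

theorem CntD_zero : NN 0 = 1 ∧ DN 0 = 1 := by
  constructor
  · rw [NN, if_pos le_rfl]; simp [NDp]
  · rw [DN, if_pos le_rfl]; simp [NDp]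

theorem CntD_neg (n : ℕ) : NN (-(n : ℤ)) = (NDm n).1 ∧ DN (-(n : ℤ)) = (NDm n).2 := by
  rcases Nat.eq_zero_or_pos n with h | h
  · subst h
    simp only [Nat.cast_zero, neg_zero, CntD_zero.1, CntD_zero.2, NDm, and_self]
  · have h1 : ¬ (0 : ℤ) ≤ -(n : ℤ) := by omega
    have h2 : (-(-(n : ℤ))).toNat = n := by omega
    rw [NN, DN, if_neg h1, if_neg h1, h2]
    exact ⟨rfl, rfl⟩

theorem CntD_NNm (n : ℕ) : NN (-((n : ℤ) + 1)) = lf (-(3 * n) - 1) * DN (-(n : ℤ)) := by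
  have h := CntD_neg (n + 1)
  push_cast at h
  rw [h.1, (CntD_neg n).2, NDm]

theorem CntD_DNm (n : ℕ) : DN (-((n : ℤ) + 1)) = lf (-(3 * n) - 2) * NN (-(n : ℤ)) := by
  have h := CntD_neg (n + 1)
  push_cast at h
  rw [h.2, (CntD_neg n).1, NDm]

theorem CntD_ne (n : ℕ) : ((NN (n : ℤ)).coeff 0 ≠ 0 ∧ (DN (n : ℤ)).coeff 0 ≠ 0) ∧
    ((NN (-(n : ℤ))).coeff 0 ≠ 0 ∧ (DN (-(n : ℤ))).coeff 0 ≠ 0) := by
  induction n with
  | zero => simp [CntD_zero.1, CntD_zero.2]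
  | succ n ih =>
    obtain ⟨⟨h1, h2⟩, h3, h4⟩ := ih
    push_cast
    rw [CntD_NNp, CntD_DNp, CntD_NNm, CntD_DNm]
    simp only [Polynomial.mul_coeff_zero, CntD_lf]
    refine ⟨⟨mul_ne_zero (by omega) h2, mul_ne_zero (by omega) h1⟩,
      mul_ne_zero (by omega) h4, mul_ne_zero (by omega) h3⟩

/-- valuation of `3n+1`, `3n+2` together -/
theorem CntD_step (q : ℕ) (hq : q.Prime) (L : ℕ) (h : 2 * L < q) (n : ℕ) (hn : n + 1 ≤ L) :
    padicValInt q (3 * (n : ℤ) + 1) + padicValInt q (3 * (n : ℤ) + 2) +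
      (if q < 3 * n then 1 else 0) = if q < 3 * (n + 1) then 1 else 0 := by
  haveI : Fact q.Prime := ⟨hq⟩
  have key : ∀ m : ℕ, 0 < m → m < 2 * q → padicValInt q (m : ℤ) = if m = q then 1 else 0 := by
    intro m hm1 hm2
    rw [padicValInt.of_nat]
    split_ifs with h1
    · subst h1; exact padicValNat_self
    · apply padicValNat.eq_zero_of_not_dvd
      rintro ⟨k, hk⟩
      have hk2 : k < 2 := by
        by_contra hk2
        have : q * 2 ≤ q * k := Nat.mul_le_mul_left q (by omega)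
        omega
      interval_cases k <;> omega
  have e1 := key (3 * n + 1) (by omega) (by omega)
  have e2 := key (3 * n + 2) (by omega) (by omega)
  push_cast at e1 e2
  rw [e1, e2]
  have h3 : q ≠ 3 * n := by
    intro h3
    have : 3 ∣ q := ⟨n, h3⟩
    have h4 := (Nat.prime_dvd_prime_iff_eq Nat.prime_three hq).mp this
    omega
  split_ifs <;> omega

theorem CntD_val (q : ℕ) (hq : q.Prime) (L : ℕ) (h : 2 * L < q) (n : ℕ) (hn : n ≤ L) :
    padicValInt q ((NN (n : ℤ)).coeff 0) + padicValInt q ((NN (-(n : ℤ))).coeff 0) =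
      (if q < 3 * n then 1 else 0) ∧
    padicValInt q ((DN (n : ℤ)).coeff 0) + padicValInt q ((DN (-(n : ℤ))).coeff 0) =
      (if q < 3 * n then 1 else 0) := by
  haveI : Fact q.Prime := ⟨hq⟩
  induction n with
  | zero => simp [CntD_zero.1, CntD_zero.2]
  | succ n ih =>
    obtain ⟨i1, i2⟩ := ih (by omega)
    obtain ⟨⟨h1, h2⟩, h3, h4⟩ := CntD_ne n
    have hs := CntD_step q hq L h n hn
    push_cast
    rw [CntD_NNp, CntD_DNp, CntD_NNm, CntD_DNm]
    simp only [Polynomial.mul_coeff_zero, CntD_lf]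
    have hneg : ∀ z : ℤ, padicValInt q (-z) = padicValInt q z := by
      intro z; simp [padicValInt]
    have e1 : padicValInt q (-(3 * (n : ℤ)) - 1) = padicValInt q (3 * (n : ℤ) + 1) := by
      rw [← hneg]; congr 1; ring
    have e2 : padicValInt q (-(3 * (n : ℤ)) - 2) = padicValInt q (3 * (n : ℤ) + 2) := by
      rw [← hneg]; congr 1; ring
    rw [padicValInt.mul (by omega) h2, padicValInt.mul (by omega) h4,
      padicValInt.mul (by omega) h1, padicValInt.mul (by omega) h3, e1, e2]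
    constructor <;> omega

theorem CntD_prod (f : ℤ → ℤ) (M : ℕ) :
    ∏ t ∈ Icc (-((M + 1 : ℕ) : ℤ)) ((M + 1 : ℕ) : ℤ), f t =
      f ((M : ℤ) + 1) * f (-((M : ℤ) + 1)) * ∏ t ∈ Icc (-(M : ℤ)) M, f t := by
  have e : Icc (-((M + 1 : ℕ) : ℤ)) ((M + 1 : ℕ) : ℤ) =
      insert ((M : ℤ) + 1) (insert (-((M : ℤ) + 1)) (Icc (-(M : ℤ)) M)) := by
    ext x
    simp only [mem_Icc, mem_insert]
    push_cast
    omega
  rw [e, prod_insert, prod_insert, mul_assoc]
  · simp only [mem_Icc]; omega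
  · simp only [mem_Icc, mem_insert]; omega

theorem valD (q : ℕ) (hq : q.Prime) (L : ℕ) (hL : 1 ≤ L) (h : 2 * L < q) :
    padicValInt q (∏ t ∈ Icc (-(L : ℤ)) L, (DN t).coeff 0) = L - q / 3 := by
  haveI : Fact q.Prime := ⟨hq⟩
  have key : ∀ M : ℕ, M ≤ L → (∏ t ∈ Icc (-(M : ℤ)) M, (DN t).coeff 0) ≠ 0 ∧
      padicValInt q (∏ t ∈ Icc (-(M : ℤ)) M, (DN t).coeff 0) = M - q / 3 := by
    intro M
    induction M with
    | zero => intro _; simp [CntD_zero.2]
    | succ M ih =>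
      intro hM
      obtain ⟨i1, i2⟩ := ih (by omega)
      have hv := (CntD_val q hq L h (M + 1) hM).2
      obtain ⟨⟨-, h2⟩, -, h4⟩ := CntD_ne (M + 1)
      push_cast at hv h2 h4
      rw [CntD_prod]
      refine ⟨mul_ne_zero (mul_ne_zero h2 h4) i1, ?_⟩
      rw [padicValInt.mul (mul_ne_zero h2 h4) i1, padicValInt.mul h2 h4, hv, i2]
      have hd : q / 3 * 3 ≤ q := Nat.div_mul_le_self q 3
      have hd2 : q < (q / 3 + 1) * 3 := by omega
      split_ifs with h5 <;> omega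
  exact (key L le_rfl).2

end Pool.Agent.H80.HF
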