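import Pool.Agent.H80.HF.IntM
import Pool.Agent.H80.HF.CntD

/-!
# HF BadB: valuation of the minors at the primes `q > 2L`

PROOF. `int_mult` and `valD`.
-/

set_option autoImplicit false

namespace Pool.Agent.H80.HF

theorem DN_prod_ne (L : ℕ) : (∏ t ∈ Finset.Icc (-(L : ℤ)) L, (DN t).coeff 0) ≠ 0 :=
  Finset.prod_ne_zero_iff.2 fun t _ => DN_coeff_ne t

theorem DN_prod_norm (q : ℕ) [hq : Fact q.Prime] (L : ℕ) (hL : 1 ≤ L) (h : 2 * L < q) :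
    padicNorm q ((∏ t ∈ Finset.Icc (-(L : ℤ)) L, (DN t).coeff 0 ^ 3 : ℤ) : ℚ) =
      (q : ℚ) ^ (-((3 * (L - q / 3) : ℕ) : ℤ)) := by
  have h0 := DN_prod_ne L
  rw [Finset.prod_pow]
  have h1 : (((∏ t ∈ Finset.Icc (-(L : ℤ)) L, (DN t).coeff 0) ^ 3 : ℤ) : ℚ) ≠ 0 := by
    exact_mod_cast pow_ne_zero 3 h0
  rw [padicNorm.eq_zpow_of_nonzero h1, padicValRat.of_int]
  have h2 : padicValInt q ((∏ t ∈ Finset.Icc (-(L : ℤ)) L, (DN t).coeff 0) ^ 3) = 3 * (L - q / 3) := by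
    rw [← valD q hq.out L hL h]
    rw [pow_succ, pow_two, padicValInt.mul (mul_ne_zero h0 h0) h0, padicValInt.mul h0 h0]
    ring
  rw [h2]

theorem DD_bound_aux (q : ℕ) [hq : Fact q.Prime] (L : ℕ) (hL : 1 ≤ L) (h : 2 * L < q)
    (ρ : Col L → ℤ × Fin 3) (z : ℤ)
    (hz : DD L ρ * ((∏ t ∈ Finset.Icc (-(L : ℤ)) L, (DN t).coeff 0 ^ 3 : ℤ) : ℚ) = z) (k : ℕ)
    (hk : (q : ℤ) ^ k ∣ z) :
    padicNorm q (DD L ρ) ≤ (q : ℚ) ^ (((3 * (L - q / 3) : ℕ) : ℤ) - (k : ℤ)) := by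
  have hq0 : (q : ℚ) ≠ 0 := by exact_mod_cast hq.out.ne_zero
  have h1 : padicNorm q (DD L ρ) * (q : ℚ) ^ (-((3 * (L - q / 3) : ℕ) : ℤ)) = padicNorm q (z : ℚ) := by
    rw [← DN_prod_norm q L hL h, ← padicNorm.mul, hz]
  have h2 : padicNorm q (z : ℚ) ≤ (q : ℚ) ^ (-(k : ℤ)) := by
    apply (padicNorm.dvd_iff_norm_le).1
    exact_mod_cast hk
  have h3 : padicNorm q (DD L ρ) = padicNorm q (z : ℚ) * (q : ℚ) ^ (((3 * (L - q / 3) : ℕ) : ℤ)) := by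
    rw [← h1, mul_assoc, ← zpow_add₀ hq0]
    simp
  rw [h3, sub_eq_add_neg, zpow_add₀ hq0, mul_comm]
  exact mul_le_mul_of_nonneg_left h2 (by positivity)

theorem big_bound (q : ℕ) [Fact q.Prime] (L : ℕ) (hL : 1 ≤ L) (h : 2 * L < q)
    (ρ : Col L → ℤ × Fin 3) (hρ : Rows L ρ) :
    padicNorm q (DD L ρ) ≤ (q : ℚ) ^ ((3 * (L - q / 3) : ℕ) : ℤ) := by
  obtain ⟨z, hz, _⟩ := int_mult L hL ρ hρ
  have h1 := DD_bound_aux q L hL h ρ z hz 0 (by simp)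
  simpa using h1

theorem bad_bound (p : ℕ) [Fact p.Prime] (h5 : 5 ≤ p) (L : ℕ) (hL : 1 ≤ L) (h : 2 * L < p) (hW : Wie p)
    (ρ : Col L → ℤ × Fin 3) (hρ : Rows L ρ) :
    padicNorm p (DD L ρ) ≤ (p : ℚ) ^ (((3 * (L - p / 3) : ℕ) : ℤ) - ((3 * L - dd p : ℕ) : ℤ)) := by
  obtain ⟨z, hz, hz2⟩ := int_mult L hL ρ hρ
  exact DD_bound_aux p L hL h ρ z hz (3 * L - dd p) (hz2 p Fact.out h5 hW)

end Pool.Agent.H80.HF
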