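import Pool.Agent.H80.HF.Prod

/-!
# HF Fact: sums of `log i!`

PROOF. `∑_(q ≤ L) v_q(i!) log q = log i! - ∑_(L < q ≤ i) v_q(i!) log q` (`q` prime; `∏ q^(v_q(n)) = n`), and `v_q(i!) = ⌊i/q⌋` for
`q² > i` (true for `q > L ≥ 3`, `i < 3L`). Stirling: `log i! ≥ i log i - i`,
`∑_(i < n) (i log i - i) ≥ (n²/2) log n - (3/4) n² - O(n log n)`, twice with `n = 3L`.
-/

set_option autoImplicit false

namespace Pool.Agent.H80.HF

open Finset

theorem val_eq (q i : ℕ) (hq : q.Prime) (h : i < q ^ 2) : padicValNat q i.factorial = i / q := by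
  have : Fact q.Prime := ⟨hq⟩
  rw [padicValNat_factorial (Nat.log_lt_of_lt_pow' (by norm_num) h : Nat.log q i < 2)]
  rw [show Ico 1 2 = {1} from rfl, sum_singleton, pow_one]

theorem log_fac_split (L i : ℕ) (hi : i < 3 * L) :
    Real.log (i.factorial : ℝ) =
      ∑ q ∈ (Icc 1 L).filter Nat.Prime, (padicValNat q i.factorial : ℝ) * Real.log q +
        ∑ q ∈ (Ioc L (3 * L)).filter Nat.Prime, ((i / q : ℕ) : ℝ) * Real.log q := by
  rw [log_nat_eq i.factorial i.factorial_ne_zero ((Icc 1 (3 * L)).filter Nat.Prime) (by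
    intro q hq
    have hp := Nat.prime_of_mem_primeFactors hq
    have hd := (hp.dvd_factorial).1 (Nat.dvd_of_mem_primeFactors hq)
    exact mem_filter.2 ⟨mem_Icc.2 ⟨hp.one_lt.le, by omega⟩, hp⟩)
    (fun q hq => (mem_filter.1 hq).2)]
  have e : (Icc 1 (3 * L)).filter Nat.Prime
      = (Icc 1 L).filter Nat.Prime ∪ (Ioc L (3 * L)).filter Nat.Prime := by
    ext q
    simp only [mem_filter, mem_union, mem_Icc, mem_Ioc]
    constructor
    · rintro ⟨⟨h1, h2⟩, h3⟩
      rcases Nat.lt_or_ge L q with h4 | h4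
      · exact Or.inr ⟨⟨h4, h2⟩, h3⟩
      · exact Or.inl ⟨⟨h1, h4⟩, h3⟩
    · rintro (⟨⟨h1, h2⟩, h3⟩ | ⟨⟨h1, h2⟩, h3⟩)
      · exact ⟨⟨h1, by omega⟩, h3⟩
      · exact ⟨⟨by omega, h2⟩, h3⟩
  have hdis : Disjoint ((Icc 1 L).filter Nat.Prime) ((Ioc L (3 * L)).filter Nat.Prime) := by
    rw [Finset.disjoint_left]
    intro q h1 h2
    have h3 := mem_Icc.1 (mem_filter.1 h1).1
    have h4 := mem_Ioc.1 (mem_filter.1 h2).1
    omega
  rw [e, sum_union hdis]
  congr 1
  refine sum_congr rfl fun q hq => ?_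
  obtain ⟨h1, h2⟩ := mem_filter.1 hq
  obtain ⟨h3, h4⟩ := mem_Ioc.1 h1
  rw [val_eq q i h2]
  have h5 : (L + 1) * (L + 1) ≤ q * q := Nat.mul_le_mul h3 h3
  have h6 := Nat.le_mul_self L
  nlinarith

theorem fact_split (L : ℕ) (hL : 3 ≤ L) :
    ∑ q ∈ (Icc 1 L).filter Nat.Prime, ((∑ i ∈ range (3 * L), padicValNat q i.factorial : ℕ) : ℝ) * Real.log q =
      ∑ i ∈ range (3 * L), Real.log (i.factorial : ℝ) -
        ∑ q ∈ (Ioc L (3 * L)).filter Nat.Prime, ((∑ i ∈ range (3 * L), i / q : ℕ) : ℝ) * Real.log q := by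
  have h0 := hL
  have e1 : ∑ i ∈ range (3 * L), Real.log (i.factorial : ℝ) =
      ∑ i ∈ range (3 * L), (∑ q ∈ (Icc 1 L).filter Nat.Prime,
        (padicValNat q i.factorial : ℝ) * Real.log q +
        ∑ q ∈ (Ioc L (3 * L)).filter Nat.Prime, ((i / q : ℕ) : ℝ) * Real.log q) :=
    sum_congr rfl fun i hi => log_fac_split L i (mem_range.1 hi)
  rw [e1, sum_add_distrib, sum_comm (s := range (3 * L)) (t := (Icc 1 L).filter Nat.Prime),
    sum_comm (s := range (3 * L)) (t := (Ioc L (3 * L)).filter Nat.Prime)]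
  have e2 : ∀ q ∈ (Icc 1 L).filter Nat.Prime, ∑ i ∈ range (3 * L),
      (padicValNat q i.factorial : ℝ) * Real.log q
      = ((∑ i ∈ range (3 * L), padicValNat q i.factorial : ℕ) : ℝ) * Real.log q := by
    intro q _
    rw [← sum_mul, Nat.cast_sum]
  have e3 : ∀ q ∈ (Ioc L (3 * L)).filter Nat.Prime, ∑ i ∈ range (3 * L),
      ((i / q : ℕ) : ℝ) * Real.log q = ((∑ i ∈ range (3 * L), i / q : ℕ) : ℝ) * Real.log q := by
    intro q _
    rw [← sum_mul, Nat.cast_sum]
  rw [sum_congr rfl e2, sum_congr rfl e3]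
  ring

theorem log_fac_ge (n : ℕ) : (n : ℝ) * Real.log n - n ≤ Real.log (n.factorial : ℝ) := by
  induction n with
  | zero => simp
  | succ n ih =>
    rcases Nat.eq_zero_or_pos n with rfl | hn
    · simp
    have hn0 : (0 : ℝ) < n := by exact_mod_cast hn
    rw [Nat.factorial_succ, Nat.cast_mul, Real.log_mul (by positivity) (by positivity)]
    have h1 : Real.log ((n : ℝ) + 1) ≤ Real.log n + 1 / n := by
      have h2 : Real.log (((n : ℝ) + 1) / n) ≤ ((n : ℝ) + 1) / n - 1 :=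
        Real.log_le_sub_one_of_pos (by positivity)
      rw [Real.log_div (by positivity) (by positivity)] at h2
      have h3 : ((n : ℝ) + 1) / n - 1 = 1 / n := by field_simp; ring
      linarith
    have h4 : (n : ℝ) * Real.log (n + 1) ≤ n * Real.log n + 1 := by
      calc (n : ℝ) * Real.log (n + 1) ≤ n * (Real.log n + 1 / n) :=
            mul_le_mul_of_nonneg_left h1 hn0.le
        _ = n * Real.log n + 1 := by field_simp
    push_cast
    nlinarith

theorem log_sf_ge (n : ℕ) : (n : ℝ) ^ 2 / 2 * Real.log n - 3 / 4 * (n : ℝ) ^ 2 - n * Real.log n - 5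
    ≤ ∑ i ∈ range n, Real.log (i.factorial : ℝ) := by
  induction n with
  | zero => simp
  | succ n ih =>
    rw [sum_range_succ]
    have h0 := log_fac_ge n
    rcases Nat.lt_or_ge n 3 with h3 | h3
    · have hs : 0 ≤ ∑ i ∈ range n, Real.log (i.factorial : ℝ) :=
        sum_nonneg fun i _ => Real.log_natCast_nonneg _
      have hf : 0 ≤ Real.log (n.factorial : ℝ) := Real.log_natCast_nonneg _
      have hl2 := Real.log_two_lt_d9
      have hl2' := Real.log_two_gt_d9
      interval_cases n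
      · norm_num at *
      · norm_num at *
      · norm_num at *
        have : Real.log 3 ≤ 2 := by
          have := Real.log_le_sub_one_of_pos (show (0 : ℝ) < 3 by norm_num)
          linarith
        nlinarith
    · have hn0 : (0 : ℝ) < n := by positivity
      have hn3 : (3 : ℝ) ≤ n := by exact_mod_cast h3
      set l := Real.log (n : ℝ) with hl
      have h1 : Real.log ((n : ℝ) + 1) ≤ l + 1 / n := by
        have h2 : Real.log (((n : ℝ) + 1) / n) ≤ ((n : ℝ) + 1) / n - 1 :=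
          Real.log_le_sub_one_of_pos (by positivity)
        rw [Real.log_div (by positivity) (by positivity)] at h2
        have h3 : ((n : ℝ) + 1) / n - 1 = 1 / n := by field_simp; ring
        linarith
      have hlog3 : (1 : ℝ) ≤ l := by
        have e1 : (1 : ℝ) ≤ Real.log 3 := by
          have : Real.exp 1 < 3 := by linarith [Real.exp_one_lt_d9]
          rw [← Real.log_exp 1]
          exact Real.log_le_log (Real.exp_pos _) this.le
        exact e1.trans (Real.log_le_log (by norm_num) hn3)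
      have h5 : (((n : ℝ) + 1) ^ 2 / 2 - (n + 1)) * Real.log (n + 1)
          ≤ (((n : ℝ) + 1) ^ 2 / 2 - (n + 1)) * (l + 1 / n) := by
        refine mul_le_mul_of_nonneg_left h1 ?_
        nlinarith
      have h6 : (((n : ℝ) + 1) ^ 2 / 2 - (n + 1)) * (l + 1 / n)
          = ((n : ℝ) ^ 2 / 2 - 1 / 2) * l + (n / 2 - 1 / (2 * n)) := by
        field_simp
        ring
      have h7 : (0 : ℝ) ≤ 1 / (2 * n) := by positivity
      push_cast
      nlinarith

theorem fact_low : ∃ C : ℝ, 0 ≤ C ∧ ∀ L : ℕ, 1 ≤ L →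
    9 / 2 * (L : ℝ) ^ 2 * Real.log (3 * L) - 27 / 4 * (L : ℝ) ^ 2 - C * L * (1 + Real.log L) ≤
      ∑ i ∈ range (3 * L), Real.log (i.factorial : ℝ) := by
  have h30 : 0 ≤ Real.log (3 : ℝ) := Real.log_nonneg (by norm_num)
  refine ⟨3 * (1 + Real.log 3) + 5, by positivity, fun L hL => ?_⟩
  have h1 := log_sf_ge (3 * L)
  have hL1 : (1 : ℝ) ≤ L := by exact_mod_cast hL
  have h3 : 0 ≤ Real.log (3 : ℝ) := Real.log_nonneg (by norm_num)
  have hl : 0 ≤ Real.log (L : ℝ) := Real.log_nonneg hL1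
  have e : Real.log (3 * (L : ℝ)) = Real.log 3 + Real.log L := by
    rw [Real.log_mul (by norm_num) (by positivity)]
  push_cast at h1
  have h4 : 3 * (L : ℝ) * Real.log (3 * L) + 5
      ≤ (3 * (1 + Real.log 3) + 5) * L * (1 + Real.log L) := by
    rw [e]
    have e2 : (3 * (1 + Real.log 3) + 5) * (L : ℝ) * (1 + Real.log L)
        - (3 * (L : ℝ) * (Real.log 3 + Real.log L) + 5)
        = 3 * L + 3 * (Real.log 3 * Real.log L) * L + 5 * (L - 1) + 5 * (L * Real.log L) := by
      ring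
    have h5 : 0 ≤ (Real.log 3 * Real.log L) * (L : ℝ) := by positivity
    have h6 : 0 ≤ (L : ℝ) * Real.log L := by positivity
    linarith
  have e3 : (3 * (L : ℝ)) ^ 2 / 2 * Real.log (3 * L) - 3 / 4 * (3 * (L : ℝ)) ^ 2
      = 9 / 2 * (L : ℝ) ^ 2 * Real.log (3 * L) - 27 / 4 * (L : ℝ) ^ 2 := by ring
  linarith

end Pool.Agent.H80.HF
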