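import Pool.Agent.H80.HF.Defs
import Pool.Agent.H71.NB.Win
import Pool.Agent.H78.HF.PntS
import Pool.Agent.H76.HF.Ps

/-!
# HF PntS: sums over primes of piecewise linear functions

PROOF. `win_one` (`H71/NB/Win.lean`): `|∑_(u < p ≤ v) log p - (v-u)| ≤ ε x` for `u ≤ v ≤ x`, `x` large. Abel summation:
`∑_(p ≤ Q) (Q - p) log p = ∑_(k < Q) θ(k) = Q²/2 + O(ε x²)` uniformly in `Q ≤ x` (`theta_lin`). Then every piecewise linear
function is a combination of functions `(Q - p)^+`: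
`u1`: for `L < q ≤ 3L`: `2 ∑_(i<3L) ⌊i/q⌋ ≤ 2 (3L-q) + 2 (3L-2q)^+`, sum `2(9/2 - 1/2 - 2) + 4 (9/8 - 1/2 - 1/2) = 9/2`.
`u2`: `6 + 1/12`. `u4`: `q/3 = ⌊q/3⌋`; `4 (q-L-1-q/3) ≤ 4 (2q/3 - L)^+`, zero for `q < 3L/2`, `∫_(3/2)^2 (8x/3 - 4) dx = 1/3`.
`u6`: `3 (L - q/3) ≤ 3L - q + 2`, `∫_2^3 (3 - x) dx = 1/2`. `u5`: at most `√(3L)` terms, each `≤ 12 (L+1) log(3L)` as
`Nat.log q (3L) log q ≤ log(3L)`.
-/

set_option autoImplicit false

namespace Pool.Agent.H80.HF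

open Finset Filter

theorem theta_lin (ε : ℝ) (hε : 0 < ε) : ∀ᶠ x : ℕ in atTop, ∀ Q : ℕ, Q ≤ x →
    |∑ p ∈ (Icc 1 Q).filter Nat.Prime, ((Q : ℝ) - p) * Real.log p - (Q : ℝ) ^ 2 / 2| ≤ ε * (x : ℝ) ^ 2 := by
  filter_upwards [Pool.Agent.H78.HF.Qd_one ε hε] with x hx Q hQ
  have h := hx Q hQ
  unfold Pool.Agent.H78.HF.Qd at h
  simpa using h

theorem PntS_aff (c d a b : ℝ) :
    ∫ x in a..b, (c + d * x) = c * (b - a) + d * ((b ^ 2 - a ^ 2) / 2) := by
  have h : ∀ x ∈ Set.uIcc a b, HasDerivAt (fun x : ℝ => c * x + d * (x ^ 2 / 2)) (c + d * x) x := by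
    intro x _
    have h1 : HasDerivAt (fun x : ℝ => c * x) c x := by
      simpa using (hasDerivAt_id x).const_mul c
    have h2 : HasDerivAt (fun x : ℝ => d * (x ^ 2 / 2)) (d * x) x := by
      have := ((hasDerivAt_pow 2 x).div_const 2).const_mul d
      refine this.congr_deriv ?_
      norm_num
    exact h1.add h2
  rw [intervalIntegral.integral_eq_sub_of_hasDerivAt h
    (Continuous.intervalIntegrable (by fun_prop) _ _)]
  ring

/-- General bound: weights at most `L f (q / L) + C0`. -/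
theorem PntS_bound (a b : ℕ) (hab : a ≤ b) (f : ℝ → ℝ) (hf : ContinuousOn f (Set.Icc (a : ℝ) b))
    (C0 I : ℝ) (hC0 : 0 ≤ C0) (c : ℕ → ℕ → ℝ)
    (hc : ∀ L q : ℕ, 1 ≤ L → a * L < q → q ≤ b * L → q.Prime → c L q ≤ L * f (q / L) + C0)
    (hI : ∫ x in (a : ℝ)..b, f x = I) (ε : ℝ) (hε : 0 < ε) : ∀ᶠ L : ℕ in atTop,
    ∑ q ∈ (Ioc (a * L) (b * L)).filter Nat.Prime, c L q * Real.log q ≤ (I + ε) * (L : ℝ) ^ 2 := by
  have ha0 : (0 : ℝ) ≤ a := Nat.cast_nonneg a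
  have hab' : (a : ℝ) ≤ b := by exact_mod_cast hab
  have hl : Tendsto (fun L : ℕ => ε / 2 * (L : ℝ)) atTop atTop :=
    tendsto_natCast_atTop_atTop.const_mul_atTop (by positivity)
  filter_upwards [Pool.Agent.H76.HF.wS_eventually_le ha0 hab' hf (c := I + ε / 2) (by linarith),
    Pool.Agent.H76.HF.wS_eventually_le ha0 hab' (f := fun _ => (1 : ℝ)) continuousOn_const
      (c := (b : ℝ) - a + 1) (by simp), hl.eventually_ge_atTop (C0 * ((b : ℝ) - a + 1)),
    eventually_ge_atTop 1] with L h1 h2 h3 hL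
  have hL0 : (0 : ℝ) < L := by exact_mod_cast hL
  have e1 : ⌊(a : ℝ) * L⌋₊ = a * L := by
    rw [← Nat.cast_mul, Nat.floor_natCast]
  have e2 : ⌊(b : ℝ) * L⌋₊ = b * L := by
    rw [← Nat.cast_mul, Nat.floor_natCast]
  unfold Pool.Agent.H76.HF.wS at h1 h2
  rw [e1, e2] at h1 h2
  simp only [mul_one] at h2
  have h4 : ∑ q ∈ (Ioc (a * L) (b * L)).filter Nat.Prime, c L q * Real.log q ≤
      ∑ q ∈ (Ioc (a * L) (b * L)).filter Nat.Prime,
        (L * (Real.log q * f (q / L)) + C0 * Real.log q) := by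
    refine sum_le_sum fun q hq => ?_
    rw [mem_filter, mem_Ioc] at hq
    have h5 := hc L q hL hq.1.1 hq.1.2 hq.2
    have h6 := mul_le_mul_of_nonneg_right h5 (Real.log_natCast_nonneg q)
    refine h6.trans (le_of_eq ?_)
    ring
  rw [sum_add_distrib, ← mul_sum, ← mul_sum] at h4
  refine h4.trans ?_
  have h7 := mul_le_mul_of_nonneg_left h1 hL0.le
  have h8 := mul_le_mul_of_nonneg_left h2 hC0
  nlinarith

theorem u1 (ε : ℝ) (hε : 0 < ε) : ∀ᶠ L : ℕ in atTop,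
    ∑ q ∈ (Ioc L (3 * L)).filter Nat.Prime, ((2 * ∑ i ∈ range (3 * L), i / q : ℕ) : ℝ) * Real.log q
      ≤ (9 / 2 + ε) * (L : ℝ) ^ 2 := by
  have hI : ∫ x in ((1 : ℕ) : ℝ)..((3 : ℕ) : ℝ), (2 * (3 - x) + 2 * max (3 - 2 * x) 0) = 9 / 2 := by
    have c1 : Continuous fun x : ℝ => 2 * (3 - x) := by fun_prop
    have c2 : Continuous fun x : ℝ => 2 * max (3 - 2 * x) 0 := by fun_prop
    rw [intervalIntegral.integral_add (c1.intervalIntegrable _ _) (c2.intervalIntegrable _ _)]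
    have e1 : ∫ x in ((1 : ℕ) : ℝ)..((3 : ℕ) : ℝ), 2 * (3 - x) = 4 := by
      rw [intervalIntegral.integral_const_mul, intervalIntegral.integral_sub (by simp) (by simp)]
      simp
      norm_num
    have e2 : ∫ x in ((1 : ℕ) : ℝ)..((3 : ℕ) : ℝ), 2 * max (3 - 2 * x) 0 = 1 / 2 := by
      rw [intervalIntegral.integral_const_mul,
        ← intervalIntegral.integral_add_adjacent_intervals (b := 3 / 2)
          (Continuous.intervalIntegrable (by fun_prop) _ _)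
          (Continuous.intervalIntegrable (by fun_prop) _ _)]
      have e3 : ∫ x in ((1 : ℕ) : ℝ)..(3 / 2), max (3 - 2 * x) 0 =
          ∫ x in ((1 : ℕ) : ℝ)..(3 / 2), (3 - 2 * x) := by
        refine intervalIntegral.integral_congr fun x hx => ?_
        rw [Set.uIcc_of_le (by norm_num)] at hx
        exact max_eq_left (by linarith [hx.2])
      have e4 : ∫ x in (3 / 2)..((3 : ℕ) : ℝ), max (3 - 2 * x) 0 =
          ∫ x in (3 / 2)..((3 : ℕ) : ℝ), (0 : ℝ) := by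
        refine intervalIntegral.integral_congr fun x hx => ?_
        rw [Set.uIcc_of_le (by norm_num)] at hx
        exact max_eq_right (by linarith [hx.1])
      have e5 : ∀ x : ℝ, 3 - 2 * x = 3 + (-2) * x := fun x => by ring
      rw [e3, e4, intervalIntegral.integral_zero]
      simp_rw [e5]
      rw [PntS_aff]
      norm_num
    rw [e1, e2]
    norm_num
  have h := PntS_bound 1 3 (by norm_num) (fun x => 2 * (3 - x) + 2 * max (3 - 2 * x) 0)
    (Continuous.continuousOn (by fun_prop)) 0 (9 / 2) le_rfl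
    (fun L q => ((2 * ∑ i ∈ range (3 * L), i / q : ℕ) : ℝ)) ?_ hI ε hε
  · simpa only [one_mul] using h
  intro L q hL hq1 hq2 hqp
  have hL0 : (0 : ℝ) < L := by exact_mod_cast hL
  rw [one_mul] at hq1
  have hq0 : 0 < q := hqp.pos
  have k1 : ∑ i ∈ range (3 * L), i / q ≤ (3 * L - q) + (3 * L - 2 * q) := by
    have k2 : ∀ n : ℕ, n ≤ 3 * L → ∑ i ∈ range n, i / q ≤ (n - q) + (n - 2 * q) := by
      intro n
      induction n with
      | zero => intro _; simp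
      | succ n ih =>
        intro hn
        have h3 := ih (by omega)
        rw [sum_range_succ]
        rcases lt_or_ge n q with h4 | h4
        · rw [Nat.div_eq_of_lt h4]
          omega
        rcases lt_or_ge n (2 * q) with h5 | h5
        · have : n / q = 1 := by
            rw [Nat.div_eq_iff hq0]
            omega
          rw [this]
          omega
        · have : n / q = 2 := by
            rw [Nat.div_eq_iff hq0]
            omega
          rw [this]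
          omega
    exact k2 _ le_rfl
  have k3 : ((3 * L - q : ℕ) : ℝ) = 3 * L - q := by
    rw [Nat.cast_sub hq2]
    push_cast
    ring
  have k4 : ((3 * L - 2 * q : ℕ) : ℝ) = max (3 * (L : ℝ) - 2 * q) 0 := by
    rcases le_total (2 * q) (3 * L) with h | h
    · rw [Nat.cast_sub h, max_eq_left]
      · push_cast
        ring
      · have : ((2 * q : ℕ) : ℝ) ≤ ((3 * L : ℕ) : ℝ) := by exact_mod_cast h
        push_cast at this
        linarith
    · rw [Nat.sub_eq_zero_of_le h, max_eq_right]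
      · simp
      · have : ((3 * L : ℕ) : ℝ) ≤ ((2 * q : ℕ) : ℝ) := by exact_mod_cast h
        push_cast at this
        linarith
  have k5 : ((2 * ∑ i ∈ range (3 * L), i / q : ℕ) : ℝ) ≤
      2 * (3 * (L : ℝ) - q) + 2 * max (3 * (L : ℝ) - 2 * q) 0 := by
    have : ((2 * ∑ i ∈ range (3 * L), i / q : ℕ) : ℝ) ≤
        ((2 * ((3 * L - q) + (3 * L - 2 * q)) : ℕ) : ℝ) := by
      exact_mod_cast Nat.mul_le_mul_left 2 k1
    refine this.trans (le_of_eq ?_)
    rw [Nat.cast_mul, Nat.cast_add, k3, k4]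
    push_cast
    ring
  refine k5.trans (le_of_eq ?_)
  have k6 : max (3 * (L : ℝ) - 2 * q) 0 = L * max (3 - 2 * ((q : ℝ) / L)) 0 := by
    rw [mul_max_of_nonneg _ _ hL0.le, mul_zero]
    congr 1
    field_simp
  rw [k6]
  field_simp
  ring

theorem PntS_Icc (L : ℕ) : Icc 1 L = Ioc (0 * L) (1 * L) := by
  ext n
  simp only [mem_Icc, mem_Ioc]
  omega

theorem u2 (ε : ℝ) (hε : 0 < ε) : ∀ᶠ L : ℕ in atTop,
    ∑ q ∈ (Icc 1 L).filter Nat.Prime, ((6 * L + 3 + q / 6 + 2 : ℕ) : ℝ) * Real.log q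
      ≤ (6 + 1 / 12 + ε) * (L : ℝ) ^ 2 := by
  have hI : ∫ x in ((0 : ℕ) : ℝ)..((1 : ℕ) : ℝ), (6 + x / 6) = 6 + 1 / 12 := by
    have e5 : ∀ x : ℝ, 6 + x / 6 = 6 + 1 / 6 * x := fun x => by ring
    simp_rw [e5]
    rw [PntS_aff]
    norm_num
  have h := PntS_bound 0 1 (by norm_num) (fun x => 6 + x / 6)
    (Continuous.continuousOn (by fun_prop)) 5 (6 + 1 / 12) (by norm_num)
    (fun L q => ((6 * L + 3 + q / 6 + 2 : ℕ) : ℝ)) ?_ hI ε hε
  · simpa only [PntS_Icc] using h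
  intro L q hL hq1 hq2 hqp
  have hL0 : (0 : ℝ) < L := by exact_mod_cast hL
  have h1 : ((q / 6 : ℕ) : ℝ) ≤ (q : ℝ) / 6 := by
    have := Nat.cast_div_le (α := ℝ) (m := q) (n := 6)
    simpa using this
  push_cast
  have e : (L : ℝ) * (6 + (q : ℝ) / L / 6) + 5 = 6 * L + 3 + (q : ℝ) / 6 + 2 := by
    field_simp
    ring
  have h2 : ((q : ℕ) / 6 : ℕ) = q / 6 := rfl
  rw [e]
  have h3 : (((q / 6 : ℕ)) : ℝ) ≤ (q : ℝ) / 6 := h1
  linarith

theorem u4 (ε : ℝ) (hε : 0 < ε) : ∀ᶠ L : ℕ in atTop,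
    ∑ q ∈ (Ioc L (2 * L)).filter Nat.Prime, ((4 * (q - L - 1 - q / 3) + 100 : ℕ) : ℝ) * Real.log q
      ≤ (1 / 3 + ε) * (L : ℝ) ^ 2 := by
  have hI : ∫ x in ((1 : ℕ) : ℝ)..((2 : ℕ) : ℝ), 4 * max (2 / 3 * x - 1) 0 = 1 / 3 := by
    rw [intervalIntegral.integral_const_mul,
      ← intervalIntegral.integral_add_adjacent_intervals (b := 3 / 2)
        (Continuous.intervalIntegrable (by fun_prop) _ _)
        (Continuous.intervalIntegrable (by fun_prop) _ _)]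
    have e3 : ∫ x in ((1 : ℕ) : ℝ)..(3 / 2), max (2 / 3 * x - 1) 0 =
        ∫ x in ((1 : ℕ) : ℝ)..(3 / 2), (0 : ℝ) := by
      refine intervalIntegral.integral_congr fun x hx => ?_
      rw [Set.uIcc_of_le (by norm_num)] at hx
      exact max_eq_right (by linarith [hx.2])
    have e4 : ∫ x in (3 / 2)..((2 : ℕ) : ℝ), max (2 / 3 * x - 1) 0 =
        ∫ x in (3 / 2)..((2 : ℕ) : ℝ), (2 / 3 * x - 1) := by
      refine intervalIntegral.integral_congr fun x hx => ?_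
      rw [Set.uIcc_of_le (by norm_num)] at hx
      exact max_eq_left (by linarith [hx.1])
    have e5 : ∀ x : ℝ, 2 / 3 * x - 1 = -1 + 2 / 3 * x := fun x => by ring
    rw [e3, e4, intervalIntegral.integral_zero]
    simp_rw [e5]
    rw [PntS_aff]
    norm_num
  have h := PntS_bound 1 2 (by norm_num) (fun x => 4 * max (2 / 3 * x - 1) 0)
    (Continuous.continuousOn (by fun_prop)) 100 (1 / 3) (by norm_num)
    (fun L q => ((4 * (q - L - 1 - q / 3) + 100 : ℕ) : ℝ)) ?_ hI ε hε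
  · simpa only [one_mul] using h
  intro L q hL hq1 hq2 hqp
  have hL0 : (0 : ℝ) < L := by exact_mod_cast hL
  have k1 : 3 * (q - L - 1 - q / 3) ≤ 2 * q - 3 * L := by omega
  have k2 : ((2 * q - 3 * L : ℕ) : ℝ) ≤ max (2 * (q : ℝ) - 3 * L) 0 := by
    rcases le_total (3 * L) (2 * q) with h | h
    · rw [Nat.cast_sub h]
      push_cast
      exact le_max_left _ _
    · rw [Nat.sub_eq_zero_of_le h]
      simp
  have k3 : (3 : ℝ) * ((q - L - 1 - q / 3 : ℕ) : ℝ) ≤ max (2 * (q : ℝ) - 3 * L) 0 := by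
    refine le_trans ?_ k2
    exact_mod_cast k1
  have k4 : max (2 * (q : ℝ) - 3 * L) 0 = 3 * (L * max (2 / 3 * ((q : ℝ) / L) - 1) 0) := by
    rw [mul_max_of_nonneg _ _ hL0.le, mul_max_of_nonneg _ _ (by norm_num : (0 : ℝ) ≤ 3)]
    simp only [mul_zero]
    congr 1
    field_simp
  rw [Nat.cast_add, Nat.cast_mul]
  push_cast
  nlinarith

theorem u6 (ε : ℝ) (hε : 0 < ε) : ∀ᶠ L : ℕ in atTop,
    ∑ q ∈ (Ioc (2 * L) (3 * L)).filter Nat.Prime, ((3 * (L - q / 3) : ℕ) : ℝ) * Real.log q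
      ≤ (1 / 2 + ε) * (L : ℝ) ^ 2 := by
  have hI : ∫ x in ((2 : ℕ) : ℝ)..((3 : ℕ) : ℝ), (3 - x) = 1 / 2 := by
    rw [intervalIntegral.integral_sub (by simp) (by simp)]
    simp
    norm_num
  refine PntS_bound 2 3 (by norm_num) (fun x => 3 - x)
    (Continuous.continuousOn (by fun_prop)) 2 (1 / 2) (by norm_num)
    (fun L q => ((3 * (L - q / 3) : ℕ) : ℝ)) ?_ hI ε hε
  intro L q hL hq1 hq2 hqp
  have hL0 : (0 : ℝ) < L := by exact_mod_cast hL
  have k1 : 3 * (L - q / 3) ≤ (3 * L - q) + 2 := by omega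
  have k2 : ((3 * (L - q / 3) : ℕ) : ℝ) ≤ (((3 * L - q) + 2 : ℕ) : ℝ) := by exact_mod_cast k1
  refine k2.trans (le_of_eq ?_)
  rw [Nat.cast_add, Nat.cast_sub hq2]
  push_cast
  field_simp

theorem u5 (ε : ℝ) (hε : 0 < ε) : ∀ᶠ L : ℕ in atTop,
    ∑ q ∈ (Icc 1 L).filter (fun q => q.Prime ∧ q ^ 2 ≤ 3 * L),
      ((2 * (6 * L + 3) * Nat.log q (3 * L) : ℕ) : ℝ) * Real.log q ≤ ε * (L : ℝ) ^ 2 := by
  have h0 : ∀ᶠ x : ℝ in atTop, ‖Real.log x‖ ≤ ε / 54 * ‖x ^ (1 / 2 : ℝ)‖ :=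
    (isLittleO_log_rpow_atTop (by norm_num : (0 : ℝ) < 1 / 2)).def (by positivity)
  have ht : Tendsto (fun L : ℕ => 3 * (L : ℝ)) atTop atTop :=
    tendsto_natCast_atTop_atTop.const_mul_atTop (by norm_num)
  filter_upwards [ht.eventually h0, eventually_ge_atTop 1] with L h1 hL
  have hL1 : (1 : ℝ) ≤ L := by exact_mod_cast hL
  have hL0 : (0 : ℝ) < L := by linarith
  have hlog : 0 ≤ Real.log (3 * (L : ℝ)) := Real.log_nonneg (by linarith)
  rw [← Real.sqrt_eq_rpow, Real.norm_eq_abs, Real.norm_eq_abs, abs_of_nonneg (Real.sqrt_nonneg _),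
    abs_of_nonneg hlog] at h1
  have k1 : ∀ q ∈ (Icc 1 L).filter (fun q => q.Prime ∧ q ^ 2 ≤ 3 * L),
      ((2 * (6 * L + 3) * Nat.log q (3 * L) : ℕ) : ℝ) * Real.log q ≤
        2 * (6 * L + 3) * Real.log (3 * L) := by
    intro q hq
    rw [mem_filter] at hq
    have hq0 : (0 : ℝ) < q := by exact_mod_cast hq.2.1.pos
    have k2 : ((q : ℝ)) ^ Nat.log q (3 * L) ≤ 3 * L := by
      exact_mod_cast Nat.pow_log_le_self q (by omega : 3 * L ≠ 0)
    have k3 := Real.log_le_log (by positivity) k2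
    rw [Real.log_pow] at k3
    push_cast
    rw [mul_assoc]
    exact mul_le_mul_of_nonneg_left k3 (by positivity)
  have k4 : ((Icc 1 L).filter (fun q => q.Prime ∧ q ^ 2 ≤ 3 * L)).card ≤ Nat.sqrt (3 * L) := by
    have : (Icc 1 L).filter (fun q => q.Prime ∧ q ^ 2 ≤ 3 * L) ⊆ Icc 1 (Nat.sqrt (3 * L)) := by
      intro q hq
      rw [mem_filter, mem_Icc] at hq
      rw [mem_Icc]
      exact ⟨hq.1.1, Nat.le_sqrt'.mpr hq.2.2⟩
    have h5 := card_le_card this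
    rwa [Nat.card_Icc, Nat.add_sub_cancel] at h5
  have k5 : (((Icc 1 L).filter (fun q => q.Prime ∧ q ^ 2 ≤ 3 * L)).card : ℝ) ≤
      Real.sqrt (3 * L) := by
    have h6 : (((Icc 1 L).filter (fun q => q.Prime ∧ q ^ 2 ≤ 3 * L)).card : ℝ) ≤
        ((Nat.sqrt (3 * L) : ℕ) : ℝ) := by exact_mod_cast k4
    refine h6.trans ?_
    have := Real.nat_sqrt_le_real_sqrt (a := 3 * L)
    push_cast at this
    exact this
  refine (sum_le_sum k1).trans ?_
  rw [sum_const, nsmul_eq_mul]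
  have hs : Real.sqrt (3 * L) * Real.sqrt (3 * L) = 3 * L := Real.mul_self_sqrt (by positivity)
  have hs0 : 0 ≤ Real.sqrt (3 * (L : ℝ)) := Real.sqrt_nonneg _
  have k6 : Real.sqrt (3 * L) * Real.log (3 * L) ≤ ε / 54 * (3 * L) := by
    calc Real.sqrt (3 * L) * Real.log (3 * L) ≤
        Real.sqrt (3 * L) * (ε / 54 * Real.sqrt (3 * L)) := mul_le_mul_of_nonneg_left h1 hs0
      _ = ε / 54 * (Real.sqrt (3 * L) * Real.sqrt (3 * L)) := by ring
      _ = ε / 54 * (3 * L) := by rw [hs]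
  calc (((Icc 1 L).filter (fun q => q.Prime ∧ q ^ 2 ≤ 3 * L)).card : ℝ) *
        (2 * (6 * L + 3) * Real.log (3 * L))
      ≤ Real.sqrt (3 * L) * (2 * (6 * L + 3) * Real.log (3 * L)) :=
        mul_le_mul_of_nonneg_right k5 (by positivity)
    _ = 2 * (6 * L + 3) * (Real.sqrt (3 * L) * Real.log (3 * L)) := by ring
    _ ≤ 2 * (6 * L + 3) * (ε / 54 * (3 * L)) := mul_le_mul_of_nonneg_left k6 (by positivity)
    _ ≤ ε * (L : ℝ) ^ 2 := by nlinarith [mul_pos hε hL0]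

end Pool.Agent.H80.HF
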