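import Mathlib

/-!
# HF Prod: the product formula as an inequality
-/

set_option autoImplicit false

namespace Pool.Agent.H80.HF

open Finset

theorem log_nat_eq (N : ℕ) (hN : N ≠ 0) (U : Finset ℕ) (hU : N.primeFactors ⊆ U)
    (hp : ∀ q ∈ U, q.Prime) : Real.log N = ∑ q ∈ U, (padicValNat q N : ℝ) * Real.log q := by
  conv_lhs => rw [← Nat.prod_factorization_pow_eq_self hN]
  rw [Nat.prod_factorization_eq_prod_primeFactors, Nat.cast_prod, Real.log_prod]
  · have h1 : ∀ q ∈ N.primeFactors, Real.log ((q ^ N.factorization q : ℕ) : ℝ)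
        = (padicValNat q N : ℝ) * Real.log q := by
      intro q hq
      rw [Nat.cast_pow, Real.log_pow, Nat.factorization_def N (Nat.prime_of_mem_primeFactors hq)]
    rw [sum_congr rfl h1]
    refine sum_subset hU fun q hq hqN => ?_
    have h2 : padicValNat q N = 0 := by
      refine padicValNat.eq_zero_of_not_dvd fun hd => hqN ?_
      exact Nat.mem_primeFactors.2 ⟨hp q hq, hd, hN⟩
    rw [h2, Nat.cast_zero, zero_mul]
  · intro q hq
    have := (Nat.prime_of_mem_primeFactors hq).pos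
    positivity

theorem prod_le (D : ℚ) (hD : D ≠ 0) (S : Finset ℕ) (hS : ∀ q ∈ S, q.Prime)
    (h2 : ∀ q : ℕ, q.Prime → q ∉ S → 0 ≤ padicValRat q D) :
    ∑ q ∈ S, (padicValRat q D : ℝ) * Real.log q ≤ Real.log |(D : ℝ)| := by
  classical
  set U := S ∪ D.num.natAbs.primeFactors ∪ D.den.primeFactors with hU
  have hUp : ∀ q ∈ U, q.Prime := by
    intro q hq
    rw [hU, mem_union, mem_union] at hq
    rcases hq with (h | h) | h
    · exact hS q h
    · exact Nat.prime_of_mem_primeFactors h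
    · exact Nat.prime_of_mem_primeFactors h
  have hn : D.num.natAbs ≠ 0 := by
    rw [Ne, Int.natAbs_eq_zero]
    exact Rat.num_ne_zero.2 hD
  have e1 := log_nat_eq D.num.natAbs hn U (by
    intro q hq; rw [hU, mem_union, mem_union]; exact Or.inl (Or.inr hq)) hUp
  have e2 := log_nat_eq D.den D.den_nz U (by
    intro q hq; rw [hU, mem_union, mem_union]; exact Or.inr hq) hUp
  have e3 : Real.log |(D : ℝ)| = ∑ q ∈ U, (padicValRat q D : ℝ) * Real.log q := by
    have h3 : |(D : ℝ)| = (D.num.natAbs : ℝ) / (D.den : ℝ) := by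
      rw [Nat.cast_natAbs, Int.cast_abs]
      have h4 : (D : ℝ) = (D.num : ℝ) / (D.den : ℝ) := by
        exact_mod_cast (Rat.num_div_den D).symm
      rw [h4, abs_div, Nat.abs_cast]
    rw [h3, Real.log_div (by exact_mod_cast hn) (by exact_mod_cast D.den_nz), e1, e2,
      ← sum_sub_distrib]
    refine sum_congr rfl fun q hq => ?_
    have h5 : padicValRat q D = (padicValNat q D.num.natAbs : ℤ) - (padicValNat q D.den : ℤ) := rfl
    rw [h5, Int.cast_sub, Int.cast_natCast, Int.cast_natCast]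
    ring
  rw [e3]
  refine sum_le_sum_of_subset_of_nonneg (fun q hq => ?_) fun q hq hqS => ?_
  · rw [hU, mem_union, mem_union]; exact Or.inl (Or.inl hq)
  · refine mul_nonneg ?_ (Real.log_natCast_nonneg q)
    exact_mod_cast h2 q (hUp q hq) hqS

theorem val_of_norm (q : ℕ) (hq : q.Prime) (x : ℚ) (hx : x ≠ 0) (c : ℤ)
    (h : padicNorm q x ≤ (q : ℚ) ^ c) : -c ≤ padicValRat q x := by
  have : Fact q.Prime := ⟨hq⟩
  rw [padicNorm.eq_zpow_of_nonzero hx] at h
  have h1 : (1 : ℚ) < q := by exact_mod_cast hq.one_lt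
  have := (zpow_le_zpow_iff_right₀ h1).1 h
  linarith

theorem prod_formula (x : ℚ) (hx : x ≠ 0) (Z : ℕ) (c : ℕ → ℤ)
    (h1 : ∀ q : ℕ, q.Prime → q ≤ Z → padicNorm q x ≤ (q : ℚ) ^ (c q))
    (h3 : ∀ q : ℕ, q.Prime → Z < q → padicNorm q x ≤ 1) :
    0 ≤ Real.log |(x : ℝ)| + ∑ q ∈ (Icc 1 Z).filter Nat.Prime, (c q : ℝ) * Real.log q := by
  have h4 := prod_le x hx ((Icc 1 Z).filter Nat.Prime) (fun q hq => (mem_filter.1 hq).2)
    (fun q hq hqS => by
      have h5 : Z < q := by
        by_contra h6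
        exact hqS (mem_filter.2 ⟨mem_Icc.2 ⟨hq.one_lt.le, not_lt.1 h6⟩, hq⟩)
      have := val_of_norm q hq x hx 0 (by rw [zpow_zero]; exact h3 q hq h5)
      linarith)
  have h5 : ∑ q ∈ (Icc 1 Z).filter Nat.Prime, (-(c q : ℝ)) * Real.log q
      ≤ ∑ q ∈ (Icc 1 Z).filter Nat.Prime, (padicValRat q x : ℝ) * Real.log q := by
    refine sum_le_sum fun q hq => ?_
    obtain ⟨h6, h7⟩ := mem_filter.1 hq
    refine mul_le_mul_of_nonneg_right ?_ (Real.log_natCast_nonneg q)
    exact_mod_cast val_of_norm q h7 x hx (c q) (h1 q h7 (mem_Icc.1 h6).2)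
  have h6 : ∑ q ∈ (Icc 1 Z).filter Nat.Prime, (-(c q : ℝ)) * Real.log q
      = -∑ q ∈ (Icc 1 Z).filter Nat.Prime, (c q : ℝ) * Real.log q := by
    rw [← sum_neg_distrib]
    exact sum_congr rfl fun q _ => by ring
  linarith

end Pool.Agent.H80.HF
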