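import Pool.Agent.H80.HF.ZeroC
import Pool.Agent.H80.HF.BadB
import Pool.Agent.H80.HF.B0
import Pool.Agent.H80.HF.B1
import Pool.Agent.H80.HF.B2
import Pool.Agent.H80.HF.Arch
import Pool.Agent.H80.HF.Fact
import Pool.Agent.H80.HF.PntS
import Pool.Agent.H80.HF.Prod

/-!
# HF Main: the Wieferich primes have small total weight

PROOF. `ρ` from `exists_minor`. `prod_formula` with `Z` = max of `3L` and of the elements of `S`; `c q` = exponent of `b0` for
`q² ≤ 3L` (`⇒ q ≤ L` for large `L`), of `b1` for `q ≤ L`, `3L < q²` (`val_eq`; `q ≥ 5` for large `L`), of `b2` for `L < q ≤ 2L`,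
`3 (L - q/3)` for `q > 2L`, `q ∉ S` (`big_bound`; `0` for `q > 3L`), `3 (L - q/3) - (3L - dd q)` for `q ∈ S` (`bad_bound`). Sum:
`log|DD| ≤ 9L² log(2L) - 13.5L² + ..`; the `v_q(i!)` parts for all `q ≤ L` together: `fact_split`, `fact_low`:
`-9L² log(3L) + 13.5L² + u1`; the rest `u2`, `u4`, `u6`, `u5`, and `3L(L+1) log 2` from `WW`. Total
`9 log(2/3) + 9/2 + 6 + 1/12 + 1/3 + 1/2 + 3 log 2 + o(1) = 12 log 2 - 9 log 3 + 11.4167 = 9.847 < 10`
(`Real.log_two_lt_d9`, a lower bound for `log 3`: `log 3 > 1.09`).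
-/

set_option autoImplicit false

namespace Pool.Agent.H80.HF

open Finset Filter

theorem log_three_gt : (1.097 : ℝ) < Real.log 3 := by
  have h1 : (19 : ℝ) * Real.log 2 ≤ 12 * Real.log 3 := by
    have e1 : (19 : ℝ) * Real.log 2 = Real.log (2 ^ 19) := by rw [Real.log_pow]; norm_num
    have e2 : (12 : ℝ) * Real.log 3 = Real.log (3 ^ 12) := by rw [Real.log_pow]; norm_num
    rw [e1, e2]
    exact Real.log_le_log (by norm_num) (by norm_num)
  have := Real.log_two_gt_d9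
  linarith

theorem small_err (K ε : ℝ) (hK : 0 ≤ K) (hε : 0 < ε) : ∀ᶠ L : ℕ in atTop,
    K * L * (1 + Real.log L) ≤ ε * (L : ℝ) ^ 2 := by
  have h0 : ∀ᶠ x : ℝ in atTop, ‖Real.log x‖ ≤ ε / (2 * (K + 1)) * ‖x‖ :=
    (Real.isLittleO_log_id_atTop).def (by positivity)
  filter_upwards [tendsto_natCast_atTop_atTop.eventually h0,
    (tendsto_natCast_atTop_atTop (R := ℝ)).eventually_ge_atTop (2 * (K + 1) / ε),
    eventually_ge_atTop 1] with L h1 h2 h3
  have hL : (1 : ℝ) ≤ L := by exact_mod_cast h3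
  have hl := Real.log_nonneg hL
  rw [Real.norm_of_nonneg hl, Real.norm_of_nonneg (by linarith)] at h1
  have h4 : 1 ≤ ε / (2 * (K + 1)) * (L : ℝ) := by
    rw [div_le_iff₀ hε] at h2
    rw [div_mul_eq_mul_div, le_div_iff₀ (by positivity)]
    linarith
  calc K * L * (1 + Real.log L) ≤ (K + 1) * L * (1 + Real.log L) := by gcongr; linarith
    _ ≤ (K + 1) * L * (ε / (2 * (K + 1)) * (L : ℝ) + ε / (2 * (K + 1)) * (L : ℝ)) := by gcongr
    _ = ε * (L : ℝ) ^ 2 := by
        have : K + 1 ≠ 0 := by positivity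
        field_simp
        ring

/-- the exponents -/
noncomputable def cc (L : ℕ) (S : Finset ℕ) (q : ℕ) : ℤ := by
  classical exact
  if q ≤ L then
    (if q ^ 2 ≤ 3 * L then ((2 * (6 * L + 3) * Nat.log q (3 * L) + WW q L : ℕ) : ℤ)
      else ((6 * L + 3 + q / 6 + 2 : ℕ) : ℤ)) - ((2 * ∑ i ∈ range (3 * L), padicValNat q i.factorial : ℕ) : ℤ)
  else if q ≤ 2 * L then ((4 * (q - L - 1 - q / 3) + 100 : ℕ) : ℤ)
  else if q ∈ S then ((3 * (L - q / 3) : ℕ) : ℤ) - ((3 * L - dd q : ℕ) : ℤ)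
  else ((3 * (L - q / 3) : ℕ) : ℤ)

theorem norm_cc (L : ℕ) (hL : 30 ≤ L) (S : Finset ℕ) (hS : ∀ p ∈ S, p.Prime ∧ 2 * L < p ∧ Wie p)
    (ρ : Col L → ℤ × Fin 3) (hρ : Rows L ρ) (q : ℕ) (hq : q.Prime) :
    padicNorm q (DD L ρ) ≤ (q : ℚ) ^ cc L S q := by
  classical
  have : Fact q.Prime := ⟨hq⟩
  unfold cc
  split_ifs with h1 h2 h3 h4
  · exact b0 q L (by omega) ρ hρ
  · have h5 : 3 * L < q ^ 2 := not_le.1 h2
    have h6 : 5 ≤ q := by
      by_contra h7
      have : q ≤ 4 := by omega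
      have : q ^ 2 ≤ 4 ^ 2 := Nat.pow_le_pow_left this 2
      omega
    have h7 : ∑ i ∈ range (3 * L), padicValNat q i.factorial = ∑ i ∈ range (3 * L), i / q :=
      sum_congr rfl fun i hi => val_eq q i hq (by have := mem_range.1 hi; omega)
    rw [h7]
    exact b1 q h6 L (by omega) h5 ρ hρ
  · have h5 : 3 * L < q ^ 2 := by
      have h6 : (L + 1) * (L + 1) ≤ q * q := Nat.mul_le_mul (by omega) (by omega)
      have h7 := Nat.le_mul_self L
      nlinarith
    exact b2 q (by omega) L (by omega) h5 (by omega) h3 ρ hρ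
  · exact bad_bound q (by omega) L (by omega) (by omega) (hS q h4).2.2 ρ hρ
  · exact big_bound q L (by omega) (by omega) ρ hρ

theorem main_ineq : ∀ᶠ L : ℕ in atTop, ∀ S : Finset ℕ,
    (∀ p ∈ S, p.Prime ∧ 2 * L < p ∧ Wie p) →
    ∑ p ∈ S, ((3 * L - dd p : ℕ) : ℝ) * Real.log p ≤ 10 * (L : ℝ) ^ 2 := by
  classical
  obtain ⟨C, hC, harch⟩ := arch
  obtain ⟨C', hC', hfact⟩ := fact_low
  filter_upwards [u1 (1 / 100) (by norm_num), u2 (1 / 100) (by norm_num),
    u4 (1 / 100) (by norm_num), u6 (1 / 100) (by norm_num), u5 (1 / 100) (by norm_num),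
    small_err (C + 2 * C' + 3) (1 / 100) (by positivity) (by norm_num), eventually_ge_atTop 30]
    with L h1 h2 h4 h6 h5 he hL S hS
  have hL1 : (1 : ℝ) ≤ L := by exact_mod_cast (by omega : 1 ≤ L)
  have hl := Real.log_nonneg hL1
  obtain ⟨ρ, hρ, hne⟩ := exists_minor L (by omega)
  set Z : ℕ := 3 * L + ∑ p ∈ S, p with hZ
  have hSZ : ∀ p ∈ S, p ≤ Z := by
    intro p hp
    have : p ≤ ∑ p ∈ S, p := single_le_sum (f := fun p => p) (fun _ _ => Nat.zero_le _) hp
    omega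
  have hprod := prod_formula (DD L ρ) hne Z (cc L S)
    (fun q hq _ => norm_cc L hL S hS ρ hρ q hq)
    (fun q hq hZq => by
      have : Fact q.Prime := ⟨hq⟩
      have h7 := big_bound q L (by omega) (by omega) ρ hρ
      have h8 : 3 * (L - q / 3) = 0 := by omega
      rw [h8, Nat.cast_zero, zpow_zero] at h7
      exact h7)
  have ha := harch L (by omega) ρ hρ hne
  have hf := hfact L (by omega)
  have hs := fact_split L (by omega)
  set P1 : Finset ℕ := (Icc 1 L).filter Nat.Prime with hP1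
  set P2 : Finset ℕ := (Ioc L (2 * L)).filter Nat.Prime with hP2
  set P3 : Finset ℕ := (Ioc (2 * L) Z).filter Nat.Prime with hP3
  have hdec : (Icc 1 Z).filter Nat.Prime = P1 ∪ P2 ∪ P3 := by
    ext q
    simp only [hP1, hP2, hP3, mem_filter, mem_union, mem_Icc, mem_Ioc]
    constructor
    · rintro ⟨⟨a1, a2⟩, a3⟩
      rcases Nat.lt_or_ge L q with a4 | a4
      · rcases Nat.lt_or_ge (2 * L) q with a5 | a5
        · exact Or.inr ⟨⟨a5, a2⟩, a3⟩
        · exact Or.inl (Or.inr ⟨⟨a4, a5⟩, a3⟩)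
      · exact Or.inl (Or.inl ⟨⟨a1, a4⟩, a3⟩)
    · rintro ((⟨⟨a1, a2⟩, a3⟩ | ⟨⟨a1, a2⟩, a3⟩) | ⟨⟨a1, a2⟩, a3⟩)
      · exact ⟨⟨a1, by omega⟩, a3⟩
      · exact ⟨⟨by omega, by omega⟩, a3⟩
      · exact ⟨⟨by omega, a2⟩, a3⟩
  have hd1 : Disjoint P1 P2 := by
    rw [Finset.disjoint_left]
    intro q a1 a2
    have a3 := mem_Icc.1 (mem_filter.1 a1).1
    have a4 := mem_Ioc.1 (mem_filter.1 a2).1
    omega
  have hd2 : Disjoint (P1 ∪ P2) P3 := by
    rw [Finset.disjoint_left]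
    intro q a1 a2
    have a4 := mem_Ioc.1 (mem_filter.1 a2).1
    rcases mem_union.1 a1 with a1 | a1
    · have a3 := mem_Icc.1 (mem_filter.1 a1).1
      omega
    · have a3 := mem_Ioc.1 (mem_filter.1 a1).1
      omega
  rw [hdec, sum_union hd2, sum_union hd1] at hprod
  -- the primes up to `L`
  have k1 : ∑ q ∈ P1, (cc L S q : ℝ) * Real.log q ≤
      (6 + 1 / 12 + 1 / 100) * (L : ℝ) ^ 2 + 1 / 100 * (L : ℝ) ^ 2
        + 3 * L * (L + 1) * Real.log 2
        - 2 * (∑ i ∈ range (3 * L), Real.log (i.factorial : ℝ) -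
          ∑ q ∈ (Ioc L (3 * L)).filter Nat.Prime, ((∑ i ∈ range (3 * L), i / q : ℕ) : ℝ) * Real.log q) := by
    rw [← hs]
    have k2 : ∀ q ∈ P1, (cc L S q : ℝ) * Real.log q ≤
        ((6 * L + 3 + q / 6 + 2 : ℕ) : ℝ) * Real.log q
        + (if q ^ 2 ≤ 3 * L then ((2 * (6 * L + 3) * Nat.log q (3 * L) : ℕ) : ℝ) * Real.log q else 0)
        + (if q = 2 then 3 * (L : ℝ) * (L + 1) * Real.log 2 else 0)
        - 2 * (((∑ i ∈ range (3 * L), padicValNat q i.factorial : ℕ) : ℝ) * Real.log q) := by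
      intro q hq
      have hq1 := mem_Icc.1 (mem_filter.1 hq).1
      have hlq : 0 ≤ Real.log (q : ℝ) := Real.log_natCast_nonneg q
      unfold cc
      rw [if_pos hq1.2]
      have e0 : ((((2 * ∑ i ∈ range (3 * L), padicValNat q i.factorial : ℕ) : ℤ) : ℝ))
          = 2 * ((∑ i ∈ range (3 * L), padicValNat q i.factorial : ℕ) : ℝ) := by
        rw [Int.cast_natCast, Nat.cast_mul, Nat.cast_ofNat]
      have e1 : (0 : ℝ) ≤ ((6 * L + 3 + q / 6 + 2 : ℕ) : ℝ) * Real.log q :=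
        mul_nonneg (Nat.cast_nonneg _) hlq
      rw [Int.cast_sub, e0]
      have e2 : (0 : ℝ) ≤ (if q = 2 then 3 * (L : ℝ) * (L + 1) * Real.log 2 else 0) := by
        split_ifs
        · have := Real.log_nonneg (show (1 : ℝ) ≤ 2 by norm_num)
          positivity
        · exact le_rfl
      by_cases h7 : q ^ 2 ≤ 3 * L
      · rw [if_pos h7, if_pos h7, Int.cast_natCast, Nat.cast_add]
        have e3 : (WW q L : ℝ) * Real.log q
            = (if q = 2 then 3 * (L : ℝ) * (L + 1) * Real.log 2 else 0) := by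
          unfold WW
          by_cases h8 : q = 2
          · rw [if_pos h8, if_pos h8, h8]
            push_cast
            ring
          · rw [if_neg h8, if_neg h8, Nat.cast_zero, zero_mul]
        rw [← e3]
        linarith
      · rw [if_neg h7, if_neg h7, Int.cast_natCast]
        linarith
    refine (sum_le_sum k2).trans ?_
    rw [sum_sub_distrib, sum_add_distrib, sum_add_distrib, ← sum_filter, ← mul_sum]
    have e4 : P1.filter (fun q => q ^ 2 ≤ 3 * L) = (Icc 1 L).filter (fun q => q.Prime ∧ q ^ 2 ≤ 3 * L) := by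
      rw [hP1, filter_filter]
    rw [e4]
    have e5 : ∑ q ∈ P1, (if q = 2 then 3 * (L : ℝ) * (L + 1) * Real.log 2 else 0)
        ≤ 3 * L * (L + 1) * Real.log 2 := by
      rw [sum_ite_eq']
      split_ifs
      · exact le_rfl
      · have := Real.log_nonneg (show (1 : ℝ) ≤ 2 by norm_num)
        positivity
    linarith
  -- the primes of `(L, 2L]`
  have k3 : ∑ q ∈ P2, (cc L S q : ℝ) * Real.log q ≤ (1 / 3 + 1 / 100) * (L : ℝ) ^ 2 := by
    refine le_trans (le_of_eq ?_) h4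
    refine sum_congr rfl fun q hq => ?_
    have hq1 := mem_Ioc.1 (mem_filter.1 hq).1
    unfold cc
    rw [if_neg (by omega), if_pos hq1.2, Int.cast_natCast]
  -- the primes above `2L`
  have k4 : ∑ q ∈ P3, (cc L S q : ℝ) * Real.log q ≤ (1 / 2 + 1 / 100) * (L : ℝ) ^ 2
      - ∑ p ∈ S, ((3 * L - dd p : ℕ) : ℝ) * Real.log p := by
    have k5 : ∀ q ∈ P3, (cc L S q : ℝ) * Real.log q
        = ((3 * (L - q / 3) : ℕ) : ℝ) * Real.log q
          - (if q ∈ S then ((3 * L - dd q : ℕ) : ℝ) * Real.log q else 0) := by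
      intro q hq
      have hq1 := mem_Ioc.1 (mem_filter.1 hq).1
      unfold cc
      rw [if_neg (by omega), if_neg (by omega)]
      by_cases h7 : q ∈ S
      · rw [if_pos h7, if_pos h7, Int.cast_sub, Int.cast_natCast, Int.cast_natCast]
        ring
      · rw [if_neg h7, if_neg h7, Int.cast_natCast]
        ring
    rw [sum_congr rfl k5, sum_sub_distrib, sum_ite_mem]
    have e1 : P3 ∩ S = S := by
      refine inter_eq_right.2 fun p hp => ?_
      obtain ⟨a1, a2, -⟩ := hS p hp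
      exact mem_filter.2 ⟨mem_Ioc.2 ⟨a2, hSZ p hp⟩, a1⟩
    rw [e1]
    have e2 : ∑ q ∈ (Ioc (2 * L) (3 * L)).filter Nat.Prime, ((3 * (L - q / 3) : ℕ) : ℝ) * Real.log q
        = ∑ q ∈ P3, ((3 * (L - q / 3) : ℕ) : ℝ) * Real.log q := by
      refine sum_subset (fun q hq => ?_) fun q hq hq2 => ?_
      · obtain ⟨a1, a2⟩ := mem_filter.1 hq
        have a3 := mem_Ioc.1 a1
        exact mem_filter.2 ⟨mem_Ioc.2 ⟨a3.1, by omega⟩, a2⟩
      · obtain ⟨a1, a2⟩ := mem_filter.1 hq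
        have a3 := mem_Ioc.1 a1
        have a4 : 3 * L < q := by
          by_contra a5
          exact hq2 (mem_filter.2 ⟨mem_Ioc.2 ⟨a3.1, not_lt.1 a5⟩, a2⟩)
        have a5 : 3 * (L - q / 3) = 0 := by omega
        rw [a5, Nat.cast_zero, zero_mul]
    rw [← e2]
    linarith
  have e6 : ∑ q ∈ (Ioc L (3 * L)).filter Nat.Prime, ((2 * ∑ i ∈ range (3 * L), i / q : ℕ) : ℝ) * Real.log q
      = 2 * ∑ q ∈ (Ioc L (3 * L)).filter Nat.Prime, ((∑ i ∈ range (3 * L), i / q : ℕ) : ℝ) * Real.log q := by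
    rw [mul_sum]
    refine sum_congr rfl fun q _ => ?_
    rw [Nat.cast_mul]
    push_cast
    ring
  rw [e6] at h1
  have e7 : Real.log (2 * (L : ℝ)) = Real.log 2 + Real.log L := by
    rw [Real.log_mul (by norm_num) (by positivity)]
  have e8 : Real.log (3 * (L : ℝ)) = Real.log 3 + Real.log L := by
    rw [Real.log_mul (by norm_num) (by positivity)]
  rw [e7] at ha
  rw [e8] at hf
  have hlog2 := Real.log_two_lt_d9
  have hlog3 := log_three_gt
  have hL2 : (0 : ℝ) < (L : ℝ) ^ 2 := by positivity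
  have e9 : 3 * (L : ℝ) * Real.log 2 ≤ 3 * L * (1 + Real.log L) := by
    have : Real.log 2 ≤ 1 + Real.log L := by linarith
    gcongr
  have e10 : (L : ℝ) ^ 2 * Real.log 2 ≤ (L : ℝ) ^ 2 * 0.6931471808 := by gcongr
  have e11 : (L : ℝ) ^ 2 * 1.097 ≤ (L : ℝ) ^ 2 * Real.log 3 := by gcongr
  nlinarith

end Pool.Agent.H80.HF
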