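import Pool.Agent.H80.HF.Defs
import Pool.Agent.H80.HF.PntS
import Pool.Agent.H76.HF.Ps2

/-!
# HF Gain: weight of the primes with `(D/p) = -1`

PROOF. `1 - jacobiSym D p = 2` on the class (`p ∤ D`), so by `win_one`, `win_chi` (`H71/NB/Win.lean`) the class has mass
`(v-u)/2 + o(x)` in `(u, v]`. `dd p = p/3 - p/6 ≤ p/6 + 1`, so `3L - dd p ≥ (3L - 1 - p/6)^+ = #{1 ≤ s ≤ 3L-1 : p ≤ 6 s' + 5 ..}`; sum
over `s` of the mass of `(2L, 6s]`, `L/3 < s < 3L`: `∑ (6s - 2L)/2 = ∫_(1/3)^3 (3x - 1) dx L² = 32/3 L²`.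
-/

set_option autoImplicit false

namespace Pool.Agent.H80.HF

open Finset Filter

theorem gain (D : ℤ) (hD0 : D ≠ 0) (hD : ¬ IsSquare D) : ∀ᶠ L : ℕ in atTop,
    53 / 5 * (L : ℝ) ^ 2 ≤ ∑ p ∈ (Ioc (2 * L) (18 * L)).filter
      (fun p => p.Prime ∧ jacobiSym D p = -1), ((3 * L - dd p : ℕ) : ℝ) * Real.log p := by
  have hI : ∫ x in (2 : ℝ)..18, (3 - x / 6) = 64 / 3 := by
    have e5 : ∀ x : ℝ, 3 - x / 6 = 3 + (-1 / 6) * x := fun x => by ring
    simp_rw [e5]
    rw [PntS_aff]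
    norm_num
  have h1 := Pool.Agent.H76.HF.nS_tendsto D hD0 hD (f := fun x => 3 - x / 6) (a := 2) (b := 18)
    (by norm_num) (by norm_num) (Continuous.continuousOn (by fun_prop))
  have h2 := Pool.Agent.H76.HF.nS_tendsto D hD0 hD (f := fun _ => (1 : ℝ)) (a := 2) (b := 18)
    (by norm_num) (by norm_num) continuousOn_const
  rw [hI] at h1
  have hl : Tendsto (fun L : ℕ => (1 / 100 : ℝ) * L) atTop atTop :=
    tendsto_natCast_atTop_atTop.const_mul_atTop (by norm_num)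
  filter_upwards [h1.eventually_const_lt (u := 53 / 5 + 1 / 100) (by norm_num),
    h2.eventually_lt_const (u := 9) (by norm_num), hl.eventually_ge_atTop 9,
    eventually_ge_atTop 1] with L h3 h4 h5 hL
  have hL0 : (0 : ℝ) < L := by exact_mod_cast hL
  rw [lt_div_iff₀ hL0] at h3
  rw [div_lt_iff₀ hL0] at h4
  have e1 : ⌊(2 : ℝ) * L⌋₊ = 2 * L := by
    have : (2 : ℝ) * L = ((2 * L : ℕ) : ℝ) := by push_cast; ring
    rw [this, Nat.floor_natCast]
  have e2 : ⌊(18 : ℝ) * L⌋₊ = 18 * L := by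
    have : (18 : ℝ) * L = ((18 * L : ℕ) : ℝ) := by push_cast; ring
    rw [this, Nat.floor_natCast]
  unfold Pool.Agent.H76.HF.nS at h3 h4
  rw [e1, e2] at h3 h4
  simp only [mul_one] at h4
  have h6 : ∑ p ∈ (Ioc (2 * L) (18 * L)).filter (fun p => Nat.Prime p ∧ jacobiSym D p = -1),
      (L * (Real.log p * (3 - (p : ℝ) / L / 6)) - Real.log p) ≤
      ∑ p ∈ (Ioc (2 * L) (18 * L)).filter (fun p => p.Prime ∧ jacobiSym D p = -1),
        ((3 * L - dd p : ℕ) : ℝ) * Real.log p := by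
    refine sum_le_sum fun p hp => ?_
    have hd : 6 * dd p ≤ p + 5 := by
      unfold dd
      omega
    have hd2 : (6 : ℝ) * (dd p : ℝ) ≤ p + 5 := by exact_mod_cast hd
    have h7 : (3 * (L : ℝ) - dd p) ≤ ((3 * L - dd p : ℕ) : ℝ) := by
      rcases le_total (dd p) (3 * L) with h | h
      · rw [Nat.cast_sub h]
        push_cast
        exact le_rfl
      · rw [Nat.sub_eq_zero_of_le h]
        have : ((3 * L : ℕ) : ℝ) ≤ dd p := by exact_mod_cast h
        push_cast at this ⊢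
        linarith
    have h8 : L * (3 - (p : ℝ) / L / 6) - 1 ≤ ((3 * L - dd p : ℕ) : ℝ) := by
      have : L * (3 - (p : ℝ) / L / 6) = 3 * L - p / 6 := by field_simp
      rw [this]
      linarith
    have h9 := mul_le_mul_of_nonneg_right h8 (Real.log_natCast_nonneg p)
    refine le_trans (le_of_eq ?_) h9
    ring
  refine le_trans ?_ h6
  rw [sum_sub_distrib, ← mul_sum]
  nlinarith [mul_pos hL0 hL0, mul_lt_mul_of_pos_left h3 hL0]

end Pool.Agent.H80.HF
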