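import Pool.Agent.H80.HF.Main
import Pool.Agent.H80.HF.Gain

/-!
# HF Mass: primes with `(D/p) = -1` which are not Wieferich

PROOF. `gain - main_ineq`: `(53/5 - 10) L² ≤ ∑_(class, not Wieferich) 3L log p`.
-/

set_option autoImplicit false

namespace Pool.Agent.H80.HF

open Finset Filter

theorem massH (D : ℤ) (hD0 : D ≠ 0) (hD : ¬ IsSquare D) : ∀ᶠ L : ℕ in atTop,
    (1 / 5 : ℝ) * L ≤ ∑ p ∈ (Ioc (2 * L) (18 * L)).filter
      (fun p => p.Prime ∧ jacobiSym D p = -1 ∧ ¬ p ^ 2 ∣ 2 ^ (p - 1) - 1), Real.log p := by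
  classical
  filter_upwards [main_ineq, gain D hD0 hD, eventually_ge_atTop 1] with L h1 h2 hL
  have hL0 : (0 : ℝ) < L := by exact_mod_cast hL
  set T := (Ioc (2 * L) (18 * L)).filter (fun p => p.Prime ∧ jacobiSym D p = -1) with hT
  set N := (Ioc (2 * L) (18 * L)).filter
    (fun p => p.Prime ∧ jacobiSym D p = -1 ∧ ¬ p ^ 2 ∣ 2 ^ (p - 1) - 1) with hN
  have h3 := h1 (T.filter fun p => Wie p) (fun p hp => by
    rw [mem_filter, hT, mem_filter, mem_Ioc] at hp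
    exact ⟨hp.1.2.1, hp.1.1.1, hp.2⟩)
  rw [← sum_filter_add_sum_filter_not T (fun p => Wie p)] at h2
  have h4 : ∑ p ∈ T.filter (fun p => ¬ Wie p), ((3 * L - dd p : ℕ) : ℝ) * Real.log p ≤
      3 * L * ∑ p ∈ N, Real.log p := by
    rw [mul_sum]
    refine (sum_le_sum (g := fun p : ℕ => 3 * (L : ℝ) * Real.log p) fun p _ => ?_).trans
      (sum_le_sum_of_subset_of_nonneg ?_ fun p _ _ => ?_)
    · refine mul_le_mul_of_nonneg_right ?_ (Real.log_natCast_nonneg p)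
      have : ((3 * L - dd p : ℕ) : ℝ) ≤ ((3 * L : ℕ) : ℝ) := by
        exact_mod_cast Nat.sub_le _ _
      refine this.trans (le_of_eq ?_)
      push_cast
      ring
    · intro p hp
      rw [mem_filter, hT, mem_filter] at hp
      rw [hN, mem_filter]
      refine ⟨hp.1.1, hp.1.2.1, hp.1.2.2, fun h => hp.2 ?_⟩
      unfold Wie
      have h5 : ((p ^ 2 : ℕ) : ℤ) ∣ ((2 ^ (p - 1) - 1 : ℕ) : ℤ) := Int.natCast_dvd_natCast.mpr h
      rw [Nat.cast_sub Nat.one_le_two_pow] at h5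
      push_cast at h5
      exact h5
    · exact mul_nonneg (by positivity) (Real.log_natCast_nonneg p)
  have h6 : 3 / 5 * (L : ℝ) ^ 2 ≤ 3 * L * ∑ p ∈ N, Real.log p := by linarith
  have h7 : (L : ℝ) * (1 / 5 * L) ≤ L * ∑ p ∈ N, Real.log p := by nlinarith
  exact le_of_mul_le_mul_left h7 hL0

end Pool.Agent.H80.HF
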