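import Pool.Agent.H80.HF.Rec
import Pool.Agent.H30.MM.Jbd

/-!
# HF ArchF: real size of the coefficients of `F_t`

PROOF (helper30). `FF_rec` gives `F_(t+1) F_t = 1 + 1/(3(t+y)+1)` modulo cubes; the values at `0` stay in `[1/2, 2]` and the
logarithmic derivatives grow at most linearly (`Pool.Agent.H30.MM.jets_poly`).
-/

set_option autoImplicit false

namespace Pool.Agent.H80.HF

private theorem archF_lf (n : ℤ) : toPS (lf n) = PowerSeries.C (3 : ℚ) * PowerSeries.X +
    PowerSeries.C (n : ℚ) := by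
  rw [toPS, lf, Polynomial.map_add, Polynomial.map_mul, Polynomial.map_C, Polynomial.map_X,
    Polynomial.map_C, Polynomial.coe_add, Polynomial.coe_mul, Polynomial.coe_C, Polynomial.coe_C,
    Polynomial.coe_X]
  rfl

private theorem archF_coeff (c d : ℚ) (hc : c ≠ 0) (G : PowerSeries ℚ)
    (h : (PowerSeries.C (3 : ℚ) * PowerSeries.X + PowerSeries.C c) * G =
      PowerSeries.C (3 : ℚ) * PowerSeries.X + PowerSeries.C d) :
    PowerSeries.coeff 0 G = d / c ∧ PowerSeries.coeff 1 G = (3 - 3 * (d / c)) / c ∧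
      PowerSeries.coeff 2 G = - 3 * ((3 - 3 * (d / c)) / c) / c := by
  have h0 := congrArg (PowerSeries.coeff 0) h
  have h1 := congrArg (PowerSeries.coeff 1) h
  have h2 := congrArg (PowerSeries.coeff 2) h
  have hX0 : PowerSeries.coeff 0 (PowerSeries.X * G) = 0 := by simp
  have hX1 : PowerSeries.coeff 1 (PowerSeries.X * G) = PowerSeries.coeff 0 G :=
    PowerSeries.coeff_succ_X_mul 0 _
  have hX2 : PowerSeries.coeff 2 (PowerSeries.X * G) = PowerSeries.coeff 1 G :=
    PowerSeries.coeff_succ_X_mul 1 _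
  have hC0 : PowerSeries.coeff 0 (PowerSeries.C d) = d := by
    rw [PowerSeries.coeff_C]; simp
  have hC1 : PowerSeries.coeff 1 (PowerSeries.C d) = 0 := by
    rw [PowerSeries.coeff_C]; simp
  have hC2 : PowerSeries.coeff 2 (PowerSeries.C d) = 0 := by
    rw [PowerSeries.coeff_C]; simp
  have hXc : PowerSeries.coeff 2 (PowerSeries.X : PowerSeries ℚ) = 0 := by
    rw [PowerSeries.coeff_X]; simp
  have hXb : PowerSeries.coeff 0 (PowerSeries.X : PowerSeries ℚ) = 0 := by
    rw [PowerSeries.coeff_X]; simp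
  rw [add_mul, mul_assoc, map_add, map_add, PowerSeries.coeff_C_mul, PowerSeries.coeff_C_mul,
    PowerSeries.coeff_C_mul, hX0, hC0, hXb] at h0
  rw [add_mul, mul_assoc, map_add, map_add, PowerSeries.coeff_C_mul, PowerSeries.coeff_C_mul,
    PowerSeries.coeff_C_mul, hX1, hC1, PowerSeries.coeff_one_X] at h1
  rw [add_mul, mul_assoc, map_add, map_add, PowerSeries.coeff_C_mul, PowerSeries.coeff_C_mul,
    PowerSeries.coeff_C_mul, hX2, hC2, hXc] at h2
  have e0 : PowerSeries.coeff 0 G = d / c := by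
    rw [eq_div_iff hc]; linarith
  have e1 : PowerSeries.coeff 1 G = (3 - 3 * (d / c)) / c := by
    rw [eq_div_iff hc, ← e0]; linarith
  refine ⟨e0, e1, ?_⟩
  rw [eq_div_iff hc, ← e1]; linarith

theorem F_real (L : ℕ) (hL : 1 ≤ L) (t : ℤ) (ht : |t| ≤ (L : ℤ)) (j : ℕ) (hj : j < 3) :
    |PowerSeries.coeff j (FF t)| ≤ 1000 * ((L : ℚ) + 1) ^ 2 := by
  -- coefficient identities
  have hc : ∀ t : ℤ, (3 * (t : ℚ) + 1) ≠ 0 := by
    intro t h
    have h1 : (3 * t + 1 : ℤ) = 0 := by exact_mod_cast h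
    omega
  have hrec : ∀ t : ℤ, (PowerSeries.C (3 : ℚ) * PowerSeries.X + PowerSeries.C ((3 * (t : ℚ) + 1))) *
      (FF (t + 1) * FF t) = PowerSeries.C (3 : ℚ) * PowerSeries.X +
        PowerSeries.C ((3 * (t : ℚ) + 2)) := by
    intro t
    have := FF_rec t
    rw [archF_lf, archF_lf] at this
    push_cast at this
    exact this
  have g0 : ∀ t : ℤ, PowerSeries.coeff 0 (FF (t + 1) * FF t) = (3 * (t : ℚ) + 2) / (3 * t + 1) :=
    fun t => (archF_coeff _ _ (hc t) _ (hrec t)).1
  have g1 : ∀ t : ℤ, PowerSeries.coeff 1 (FF (t + 1) * FF t) = -3 / (3 * (t : ℚ) + 1) ^ 2 := by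
    intro t
    rw [(archF_coeff _ _ (hc t) _ (hrec t)).2.1]
    have := hc t
    field_simp
    ring
  have g2 : ∀ t : ℤ, PowerSeries.coeff 2 (FF (t + 1) * FF t) = 9 / (3 * (t : ℚ) + 1) ^ 3 := by
    intro t
    rw [(archF_coeff _ _ (hc t) _ (hrec t)).2.2]
    have := hc t
    field_simp
    ring
  -- the real jets
  set F : ℤ → ℕ → ℝ := fun a k => ((PowerSeries.coeff k (FF a) : ℚ) : ℝ) with hF
  have hmul : ∀ (t : ℤ) (n : ℕ), PowerSeries.coeff n (FF (t + 1) * FF t) =
      ∑ k ∈ Finset.range (n + 1), PowerSeries.coeff k (FF (t + 1)) *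
        PowerSeries.coeff (n - k) (FF t) := by
    intro t n
    rw [PowerSeries.coeff_mul, Finset.Nat.sum_antidiagonal_eq_sum_range_succ_mk]
  have hb := Pool.Agent.H30.MM.jets_poly F
    (by simp [hF, FF_zero]) (by simp [hF, FF_zero, PowerSeries.coeff_one])
    (by simp [hF, FF_zero, PowerSeries.coeff_one])
    (by
      intro t
      have h1 := g0 t
      rw [hmul] at h1
      simp only [Finset.sum_range_succ, Finset.sum_range_zero, zero_add] at h1
      have h2 := congrArg (fun x : ℚ => (x : ℝ)) h1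
      push_cast at h2
      simpa [hF] using h2)
    (by
      intro t
      have h1 := g1 t
      rw [hmul] at h1
      simp only [Finset.sum_range_succ, Finset.sum_range_zero, zero_add] at h1
      have h2 := congrArg (fun x : ℚ => (x : ℝ)) h1
      push_cast at h2
      have h3 : F (t + 1) 1 * F t 0 + F (t + 1) 0 * F t 1 =
          F (t + 1) 0 * F t (1 - 0) + F (t + 1) 1 * F t (1 - 1) := by
        rw [Nat.sub_zero, Nat.sub_self]; ring
      rw [h3]
      exact h2)
    (by
      intro t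
      have h1 := g2 t
      rw [hmul] at h1
      simp only [Finset.sum_range_succ, Finset.sum_range_zero, zero_add] at h1
      have h2 := congrArg (fun x : ℚ => (x : ℝ)) h1
      push_cast at h2
      have h3 : F (t + 1) 2 * F t 0 + F (t + 1) 1 * F t 1 + F (t + 1) 0 * F t 2 =
          F (t + 1) 0 * F t (2 - 0) + F (t + 1) 1 * F t (2 - 1) + F (t + 1) 2 * F t (2 - 2) := by
        rw [Nat.sub_zero, Nat.sub_self]
        norm_num
        ring
      rw [h3]
      exact h2)
    t j (by omega)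
  have hLr : (1 : ℝ) ≤ (L : ℝ) := by exact_mod_cast hL
  have ht' : |(t : ℝ)| ≤ (L : ℝ) := by exact_mod_cast ht
  have h1 : |F t j| ≤ 1000 * ((L : ℝ) + 1) ^ 2 := by
    refine hb.trans ?_
    have h2 : (|(t : ℝ)| + 1) ^ 2 ≤ ((L : ℝ) + 1) ^ 2 :=
      pow_le_pow_left₀ (by positivity) (by linarith) 2
    have h3 : 0 ≤ ((L : ℝ) + 1) ^ 2 := by positivity
    linarith
  have h2 : (((|PowerSeries.coeff j (FF t)| : ℚ)) : ℝ) ≤ ((1000 * ((L : ℚ) + 1) ^ 2 : ℚ) : ℝ) := by
    rw [Rat.cast_abs]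
    push_cast
    exact h1
  exact_mod_cast h2

end Pool.Agent.H80.HF
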