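import Mathlib

/-!
# HF: definitions (helper80)

Project HF (MP_ef6a16): the non-Wieferich primes have mass `> 1/2`, from helper40's function.
Variable `t`, nodes `t ∈ [-L, L]` (integers), three jets at every node.
`F_0 = 1`, `F_(t+1)(y) F_t(y) = (3(t+y)+2) / (3(t+y)+1)` for all integers `t`
(so `F_(t+2) = r(t+y) F_t`, `r(x) = (3x+1)(3x+5)/((3x+2)(3x+4))`).
`F_t = NN t / DN t` with `NN t, DN t ∈ ℤ[y]` products of the linear factors `n + 3y`:
for `t > 0`: `n < 3t`, `3 ∤ n`, exponent `-(-1)^(n+t)`; for `t < 0`: factors `-n + 3y`, `n < 3|t|`, `3 ∤ n`,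
exponent `(-1)^(n+t)`.
Rows `(t, j)`: the coefficient of `y^j` in `A(t+y) - F_t(y) B(t+y)`; columns: the coefficients of `A` and of `B`,
both of degree `< 3L`. `DD L ρ` is the minor with the rows `ρ`.
-/

set_option autoImplicit false

namespace Pool.Agent.H80.HF

open Finset

/-- the linear factor `n + 3 y` -/
noncomputable def lf (n : ℤ) : Polynomial ℤ := Polynomial.C 3 * Polynomial.X + Polynomial.C n

/-- numerator and denominator of `F_n`, `n ≥ 0` -/
noncomputable def NDp : ℕ → Polynomial ℤ × Polynomial ℤ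
  | 0 => (1, 1)
  | (n + 1) => (lf (3 * n + 2) * (NDp n).2, lf (3 * n + 1) * (NDp n).1)

/-- numerator and denominator of `F_(-n)`, `n ≥ 0` -/
noncomputable def NDm : ℕ → Polynomial ℤ × Polynomial ℤ
  | 0 => (1, 1)
  | (n + 1) => (lf (-(3 * n) - 1) * (NDm n).2, lf (-(3 * n) - 2) * (NDm n).1)

/-- numerator of `F_t` -/
noncomputable def NN (t : ℤ) : Polynomial ℤ := if 0 ≤ t then (NDp t.toNat).1 else (NDm (-t).toNat).1

/-- denominator of `F_t` -/
noncomputable def DN (t : ℤ) : Polynomial ℤ := if 0 ≤ t then (NDp t.toNat).2 else (NDm (-t).toNat).2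

/-- a polynomial over `ℤ` as a power series over `ℚ` -/
noncomputable def toPS (P : Polynomial ℤ) : PowerSeries ℚ := ((P.map (Int.castRingHom ℚ) : Polynomial ℚ) : PowerSeries ℚ)

/-- `F_t(y)` -/
noncomputable def FF (t : ℤ) : PowerSeries ℚ := toPS (NN t) * (toPS (DN t))⁻¹

/-- the power series `u + y` -/
noncomputable def lin (u : ℚ) : PowerSeries ℚ := PowerSeries.X + PowerSeries.C u

/-- Taylor expansion of a polynomial at the integer `t`: the power series `P(t + y)` -/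
noncomputable def tay (t : ℤ) (P : Polynomial ℚ) : PowerSeries ℚ :=
  ((P.comp (Polynomial.X + Polynomial.C (t : ℚ)) : Polynomial ℚ) : PowerSeries ℚ)

/-- column labels -/
abbrev Col (L : ℕ) := Fin (3 * L) ⊕ Fin (3 * L)

/-- the matrix entries -/
noncomputable def ent (L : ℕ) (r : ℤ × Fin 3) : Col L → ℚ
  | Sum.inl i => PowerSeries.coeff (r.2 : ℕ) (lin (r.1 : ℚ) ^ (i : ℕ))
  | Sum.inr i => -PowerSeries.coeff (r.2 : ℕ) (FF r.1 * lin (r.1 : ℚ) ^ (i : ℕ))

/-- the minor with rows `ρ` -/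
noncomputable def DD (L : ℕ) (ρ : Col L → ℤ × Fin 3) : ℚ :=
  Matrix.det (Matrix.of fun c => ent L (ρ c))

/-- admissible choices of rows -/
structure Rows (L : ℕ) (ρ : Col L → ℤ × Fin 3) : Prop where
  inj : Function.Injective ρ
  le : ∀ c, |(ρ c).1| ≤ (L : ℤ)

/-- Wieferich primes -/
def Wie (p : ℕ) : Prop := (p : ℤ) ^ 2 ∣ 2 ^ (p - 1) - 1

/-- the number of even integers in `(p/3, 2p/3)` -/
def dd (p : ℕ) : ℕ := p / 3 - p / 6

/-- the valuation of `F_t` at a prime `q ≥ 5` with `3L < q^2` -/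
def Ee (q : ℕ) (t : ℤ) : ℤ :=
  if ((q / 3 : ℕ) : ℤ) < t % q ∧ t % q ≤ ((2 * q / 3 : ℕ) : ℤ) then (if t % q % 2 = 0 then 1 else -1) else 0

/-- entries of the local expansion at `q`: coefficients of `(t - c + y)^k`, resp. `F_t(y) (t - c + y)^k`,
where `c` is the balanced residue of `t` modulo `q` -/
noncomputable def SS (q : ℕ) (r : ℤ × Fin 3) : Bool → ℕ → ℚ
  | true, k => PowerSeries.coeff (r.2 : ℕ) (lin ((r.1 - Int.bmod r.1 q : ℤ) : ℚ) ^ k)
  | false, k => PowerSeries.coeff (r.2 : ℕ) (FF r.1 * lin ((r.1 - Int.bmod r.1 q : ℤ) : ℚ) ^ k)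

/-- cost of the node `t` at the prime 2 -/
def ww (q : ℕ) (t : ℤ) : ℕ :=
  if q = 2 ∧ ((0 < t ∧ t % 2 = 0) ∨ (t < 0 ∧ t % 2 = 1)) then 2 * t.natAbs else 0

/-- total cost of the rows at 2 -/
def WW (q L : ℕ) : ℕ := if q = 2 then 3 * L * (L + 1) else 0

/-- the integral matrix entries -/
noncomputable def entI (L : ℕ) (r : ℤ × Fin 3) : Col L → ℤ
  | Sum.inl i => (DN r.1 * (Polynomial.X + Polynomial.C r.1) ^ (i : ℕ)).coeff (r.2 : ℕ)
  | Sum.inr i => -(NN r.1 * (Polynomial.X + Polynomial.C r.1) ^ (i : ℕ)).coeff (r.2 : ℕ)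

end Pool.Agent.H80.HF
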