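import Mathlib

/-!
# HF DetL: multilinear expansion of a determinant in its rows

PROOF. `Matrix.det` is alternating and multilinear in the rows (`Matrix.detRowAlternating`), `MultilinearMap.map_sum`,
`map_smul_univ`; a term with `f` not injective on rows has two equal rows. Norm version: ultrametric
(`padicNorm` of a finite sum is at most the maximum), `padicNorm (det X∘f) ≤ 1` as all entries are integers.
-/

set_option autoImplicit false

namespace Pool.Agent.H80.HF

open Finset

theorem det_expand {R : Type} [CommRing R] {ι U : Type} [Fintype ι] [DecidableEq ι] [Fintype U] [DecidableEq U]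
    (S : ι → U → R) (X : U → ι → R) :
    Matrix.det (Matrix.of fun r c => ∑ u, S r u * X u c) =
      ∑ f : ι → U, (∏ r, S r (f r)) * Matrix.det (Matrix.of fun r => X (f r)) := by
  have h1 : (Matrix.of fun r c => ∑ u, S r u * X u c : Matrix ι ι R) =
      fun r => ∑ u, (S r u • X u : ι → R) := by
    funext r c
    rw [Matrix.of_apply, Finset.sum_apply]
    rfl
  have h2 : ∀ M : Matrix ι ι R, M.det =
      (Matrix.detRowAlternating (R := R) (n := ι)).toMultilinearMap M := fun _ => rfl
  rw [h2, h1, MultilinearMap.map_sum]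
  refine Finset.sum_congr rfl fun f _ => ?_
  have h3 := (Matrix.detRowAlternating (R := R) (n := ι)).toMultilinearMap.map_smul_univ
    (fun r => S r (f r)) (fun r => X (f r))
  rw [h3]
  rfl

theorem padicNorm_sum_le' (q : ℕ) [Fact q.Prime] {α : Type} (s : Finset α) (F : α → ℚ) (B : ℚ)
    (hB : 0 ≤ B) (h : ∀ a ∈ s, padicNorm q (F a) ≤ B) : padicNorm q (∑ a ∈ s, F a) ≤ B := by
  classical
  induction s using Finset.induction_on with
  | empty => simpa using hB
  | insert a s ha ih =>
    rw [Finset.sum_insert ha]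
    exact (padicNorm.nonarchimedean).trans
      (max_le (h a (mem_insert_self a s)) (ih fun b hb => h b (mem_insert_of_mem hb)))

theorem padicNorm_prod' (q : ℕ) [Fact q.Prime] {α : Type} (s : Finset α) (F : α → ℚ) :
    padicNorm q (∏ a ∈ s, F a) = ∏ a ∈ s, padicNorm q (F a) := by
  classical
  induction s using Finset.induction_on with
  | empty => simp
  | insert a s ha ih =>
    rw [Finset.prod_insert ha, Finset.prod_insert ha, padicNorm.mul, ih]

theorem det_ultra (q : ℕ) [Fact q.Prime] {ι U : Type} [Fintype ι] [DecidableEq ι] [Fintype U] [DecidableEq U]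
    (S : ι → U → ℚ) (X : U → ι → ℤ) (B : ℚ) (hB : 0 ≤ B)
    (h : ∀ f : ι → U, Function.Injective f → Matrix.det (Matrix.of fun r => X (f r)) ≠ 0 →
      ∏ r, padicNorm q (S r (f r)) ≤ B) :
    padicNorm q (Matrix.det (Matrix.of fun r c => ∑ u, S r u * (X u c : ℚ))) ≤ B := by
  rw [det_expand S fun u c => (X u c : ℚ)]
  refine padicNorm_sum_le' q _ _ B hB fun f _ => ?_
  have hcast : Matrix.det (Matrix.of fun r => (fun c => (X (f r) c : ℚ))) =
      ((Matrix.det (Matrix.of fun r => X (f r)) : ℤ) : ℚ) := by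
    have := RingHom.map_det (Int.castRingHom ℚ) (Matrix.of fun r => X (f r))
    rw [eq_intCast] at this
    rw [this]
    rfl
  rw [hcast]
  by_cases hd : Matrix.det (Matrix.of fun r => X (f r)) = 0
  · rw [hd]
    simpa using hB
  have hf : Function.Injective f := by
    intro r r' hrr
    by_contra hne
    apply hd
    refine Matrix.det_zero_of_row_eq hne ?_
    change X (f r) = X (f r')
    rw [hrr]
  rw [padicNorm.mul, padicNorm_prod']
  have h1 := h f hf hd
  have h2 : padicNorm q ((Matrix.det (Matrix.of fun r => X (f r)) : ℤ) : ℚ) ≤ 1 :=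
    padicNorm.of_int _
  calc (∏ r, padicNorm q (S r (f r))) * padicNorm q ((Matrix.det (Matrix.of fun r => X (f r)) : ℤ) : ℚ)
      ≤ (∏ r, padicNorm q (S r (f r))) * 1 :=
        mul_le_mul_of_nonneg_left h2 (Finset.prod_nonneg fun _ _ => padicNorm.nonneg _)
    _ ≤ B := by rw [mul_one]; exact h1

theorem det_norm {ι U : Type} [Fintype ι] [DecidableEq ι] [Fintype U] [DecidableEq U]
    (S : ι → U → ℂ) (X : U → ι → ℂ) (s B : ℝ) (hs : 0 ≤ s) (hB : 0 ≤ B) (hS : ∀ r, ∑ u, ‖S r u‖ ≤ s)
    (h : ∀ f : ι → U, ‖Matrix.det (Matrix.of fun r => X (f r))‖ ≤ B) :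
    ‖Matrix.det (Matrix.of fun r c => ∑ u, S r u * X u c)‖ ≤ s ^ Fintype.card ι * B := by
  rw [det_expand S X]
  have h1 : ‖∑ f : ι → U, (∏ r, S r (f r)) * Matrix.det (Matrix.of fun r => X (f r))‖ ≤
      ∑ f : ι → U, (∏ r, ‖S r (f r)‖) * B := by
    refine (norm_sum_le _ _).trans (Finset.sum_le_sum fun f _ => ?_)
    rw [norm_mul, norm_prod]
    exact mul_le_mul_of_nonneg_left (h f) (Finset.prod_nonneg fun _ _ => norm_nonneg _)
  refine h1.trans ?_
  rw [← Finset.sum_mul]
  refine mul_le_mul_of_nonneg_right ?_ hB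
  have h2 : ∑ f : ι → U, ∏ r, ‖S r (f r)‖ = ∏ r, ∑ u, ‖S r u‖ := by
    rw [Finset.prod_univ_sum, Fintype.piFinset_univ]
  rw [h2]
  calc ∏ r, ∑ u, ‖S r u‖ ≤ ∏ _r : ι, s :=
        Finset.prod_le_prod (fun _ _ => Finset.sum_nonneg fun _ _ => norm_nonneg _) fun r _ => hS r
    _ = s ^ Fintype.card ι := by rw [Finset.prod_const, Finset.card_univ]

end Pool.Agent.H80.HF
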