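import Pool.Agent.H80.HF.Rec
import Pool.Agent.H51.QD.Ser

/-!
# HF Fsm: `q`-adic size of the coefficients of `F_t`, all primes `q`

`Λ = Nat.log q (3L)`. PROOF. (1) Constant term: for `t > 0` `F_t(0) = ∏ n^(-(-1)^(n+t))` over `n < 3t`, `3 ∤ n`. `q ≥ 5` (odd):
`v_q(F_t(0)) = ∑_(l ≥ 1) (-1)^(t+1) ∑_(j < 3t/q^l, 3 ∤ j) (-1)^j`, the inner sums are in `{-1, 0, 1}` and `0` for `q^l ≥ 3t`, so
`|v_q| ≤ Λ`. `q = 3`: a unit. `q = 2`: for even `t` `v = -V`, for odd `t` `v = V`, with `V = ∑_(n < 3t, 3 ∤ n) v_2(n)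
= ∑_(l ≥ 1) (⌊(3t-1)/2^l⌋ - ⌊(3t-1)/(3 2^l)⌋) ≤ ∑_(1 ≤ l ≤ Λ) ((2/3) (3t-1)/2^l + 2/3) ≤ 2t + Λ`. `F_(-t)(0) = ± 1/F_t(0)`.
(2) Coefficients: `F_t(y) = F_t(0) ∏ (1 + 3y/n)^(±1)`, `v_q(3/n) ≥ -Λ` as `q^(v_q(n)) ≤ |n| < 3L`, so
`padicNorm (coeff j (F/F(0))) ≤ q^(jΛ)` (predicate closed under products and inverses).
-/

set_option autoImplicit false

namespace Pool.Agent.H80.HF

open Finset H51QD

/-- the valuation of `F_n(0)`, `n ≥ 0` -/
def fsE (q : ℕ) : ℕ → ℤ
  | 0 => 0
  | (n + 1) => (padicValNat q (3 * n + 2) : ℤ) - padicValNat q (3 * n + 1) - fsE q n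

theorem fs_toPS_lf (n : ℤ) : toPS (lf n) = PowerSeries.C (n : ℚ) + PowerSeries.C ((3 : ℤ) : ℚ) * PowerSeries.X := by
  have h1 : (lf n).map (Int.castRingHom ℚ) =
      Polynomial.C (3 : ℚ) * Polynomial.X + Polynomial.C (n : ℚ) := by
    unfold lf
    rw [Polynomial.map_add, Polynomial.map_mul, Polynomial.map_C, Polynomial.map_C,
      Polynomial.map_X]
    norm_num
  unfold toPS
  rw [h1, Polynomial.coe_add, Polynomial.coe_mul, Polynomial.coe_C, Polynomial.coe_C,
    Polynomial.coe_X, add_comm]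
  norm_num

theorem fs_log (q : ℕ) [hq : Fact q.Prime] (L : ℕ) (x : ℤ) (hx : x ≠ 0) (hL : |x| ≤ 3 * L) :
    padicValInt q x ≤ Nat.log q (3 * L) := by
  apply Nat.le_log_of_pow_le hq.out.one_lt
  have h1 : q ^ padicValInt q x ∣ x.natAbs := pow_padicValNat_dvd
  have h2 := Nat.le_of_dvd (Int.natAbs_pos.2 hx) h1
  have h3 : (x.natAbs : ℤ) = |x| := Int.natCast_natAbs x
  omega

/-- one step of the recursion, upwards -/
theorem fs_step (q : ℕ) [hq : Fact q.Prime] (Lam : ℕ) (u v : ℤ) (A B : PowerSeries ℚ) (e : ℤ)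
    (hu : u ≠ 0) (hv : v ≠ 0) (hu' : padicValInt q u ≤ Lam) (hv' : padicValInt q v ≤ Lam)
    (hA : PowerSeries.constantCoeff A ≠ 0) (hB : PowerSeries.constantCoeff B ≠ 0)
    (h : toPS (lf u) * (B * A) = toPS (lf v))
    (h1 : PB q e Lam A) (h2 : PB q (-e) Lam A⁻¹) :
    PB q ((padicValInt q v : ℤ) - padicValInt q u - e) Lam B ∧
      PB q (-((padicValInt q v : ℤ) - padicValInt q u - e)) Lam B⁻¹ := by
  rw [fs_toPS_lf, fs_toPS_lf] at h
  set U := PowerSeries.C (u : ℚ) + PowerSeries.C ((3 : ℤ) : ℚ) * PowerSeries.X with hU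
  set V := PowerSeries.C (v : ℚ) + PowerSeries.C ((3 : ℤ) : ℚ) * PowerSeries.X with hV
  have hU0 : PowerSeries.constantCoeff U ≠ 0 := by
    simp [hU]
    exact_mod_cast hu
  have hV0 : PowerSeries.constantCoeff V ≠ 0 := by
    simp [hV]
    exact_mod_cast hv
  have hAi : A * A⁻¹ = 1 := PowerSeries.mul_inv_cancel A hA
  have hBi : B * B⁻¹ = 1 := PowerSeries.mul_inv_cancel B hB
  have hUi : U * U⁻¹ = 1 := PowerSeries.mul_inv_cancel U hU0
  have hVi : V * V⁻¹ = 1 := PowerSeries.mul_inv_cancel V hV0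
  have eB : B = V * U⁻¹ * A⁻¹ := by
    linear_combination (U⁻¹ * A⁻¹) * h - B * (A * A⁻¹) * hUi - B * hAi
  have eBi : B⁻¹ = U * V⁻¹ * A := by
    linear_combination (-(B⁻¹ * V⁻¹)) * h + (-B⁻¹) * hVi + U * V⁻¹ * A * hBi
  constructor
  · rw [eB]
    refine (((PB.linear v 3 Lam hv').mul (PB.linear_inv u 3 hu Lam hu')).mul h2).mono ?_
    omega
  · rw [eBi]
    refine (((PB.linear u 3 Lam hu').mul (PB.linear_inv v 3 hv Lam hv')).mul h1).mono ?_
    omega

theorem fs_main (q : ℕ) [hq : Fact q.Prime] (L : ℕ) (n : ℕ) (hn : n ≤ L) :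
    (PB q (fsE q n) (Nat.log q (3 * L)) (FF n) ∧
      PB q (-fsE q n) (Nat.log q (3 * L)) (FF n)⁻¹) ∧
    (PB q (-fsE q n) (Nat.log q (3 * L)) (FF (-(n : ℤ))) ∧
      PB q (fsE q n) (Nat.log q (3 * L)) (FF (-(n : ℤ)))⁻¹) := by
  induction n with
  | zero =>
    have h1 : FF ((0 : ℕ) : ℤ) = 1 := by
      rw [Nat.cast_zero]
      exact FF_zero
    have h2 : FF (-((0 : ℕ) : ℤ)) = 1 := by
      rw [Nat.cast_zero, neg_zero]
      exact FF_zero
    have h3 : (1 : PowerSeries ℚ)⁻¹ = 1 := by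
      rw [PowerSeries.inv_eq_iff_mul_eq_one (by simp)]
      simp
    rw [h1, h2, h3]
    simp only [fsE, neg_zero]
    exact ⟨⟨PB.one, PB.one⟩, ⟨PB.one, PB.one⟩⟩
  | succ n ih =>
    obtain ⟨⟨a1, a2⟩, ⟨b1, b2⟩⟩ := ih (by omega)
    have hp1 : padicValInt q (3 * (n : ℤ) + 1) = padicValNat q (3 * n + 1) := by
      have : (3 * (n : ℤ) + 1) = ((3 * n + 1 : ℕ) : ℤ) := by push_cast; ring
      rw [this, padicValInt.of_nat]
    have hp2 : padicValInt q (3 * (n : ℤ) + 2) = padicValNat q (3 * n + 2) := by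
      have : (3 * (n : ℤ) + 2) = ((3 * n + 2 : ℕ) : ℤ) := by push_cast; ring
      rw [this, padicValInt.of_nat]
    have hl1 : padicValInt q (3 * (n : ℤ) + 1) ≤ Nat.log q (3 * L) := by
      apply fs_log _ _ _ (by omega)
      rw [abs_of_nonneg (by omega)]
      omega
    have hl2 : padicValInt q (3 * (n : ℤ) + 2) ≤ Nat.log q (3 * L) := by
      apply fs_log _ _ _ (by omega)
      rw [abs_of_nonneg (by omega)]
      omega
    constructor
    · have h := fs_step q (Nat.log q (3 * L)) (3 * n + 1) (3 * n + 2) (FF n) (FF ((n : ℤ) + 1))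
        (fsE q n) (by omega) (by omega) hl1 hl2 (FF_coeff_ne _) (FF_coeff_ne _) (FF_rec n) a1 a2
      rw [hp1, hp2] at h
      push_cast
      simpa only [fsE] using h
    · have hrec := FF_rec (-(n : ℤ) - 1)
      have e1 : (3 : ℤ) * (-(n : ℤ) - 1) + 1 = -(3 * (n : ℤ) + 2) := by ring
      have e2 : (3 : ℤ) * (-(n : ℤ) - 1) + 2 = -(3 * (n : ℤ) + 1) := by ring
      have e3 : -(n : ℤ) - 1 + 1 = -(n : ℤ) := by ring
      rw [e1, e2, e3] at hrec
      have hv1 : padicValInt q (-(3 * (n : ℤ) + 1)) = padicValNat q (3 * n + 1) := by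
        rw [padicValInt, Int.natAbs_neg, ← padicValInt, hp1]
      have hv2 : padicValInt q (-(3 * (n : ℤ) + 2)) = padicValNat q (3 * n + 2) := by
        rw [padicValInt, Int.natAbs_neg, ← padicValInt, hp2]
      have h := fs_step q (Nat.log q (3 * L)) (-(3 * n + 2)) (-(3 * n + 1)) (FF (-(n : ℤ)))
        (FF (-(n : ℤ) - 1)) (-fsE q n) (by omega) (by omega) (by rw [hv2, ← hp2]; exact hl2)
        (by rw [hv1, ← hp1]; exact hl1) (FF_coeff_ne _) (FF_coeff_ne _)
        (by rw [mul_comm (FF (-(n : ℤ) - 1))]; exact hrec) b1 (by rw [neg_neg]; exact b2)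
      rw [hv1, hv2] at h
      have e4 : -((n + 1 : ℕ) : ℤ) = -(n : ℤ) - 1 := by push_cast; ring
      rw [e4]
      have e5 : -fsE q (n + 1) = (padicValNat q (3 * n + 1) : ℤ) - padicValNat q (3 * n + 2) - -fsE q n := by
        simp only [fsE]
        ring
      refine ⟨by rw [e5]; exact h.1, ?_⟩
      have e6 : fsE q (n + 1) = -((padicValNat q (3 * n + 1) : ℤ) - padicValNat q (3 * n + 2) - -fsE q n) := by
        rw [← e5, neg_neg]
      rw [e6]
      exact h.2

/-- the valuation as a sum over prime powers -/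
theorem fs_val (q : ℕ) [hq : Fact q.Prime] (L m : ℕ) (hm : 0 < m) (hL : m ≤ 3 * L) :
    (padicValNat q m : ℤ) = ∑ l ∈ Ico 1 (Nat.log q (3 * L) + 1), ind (q ^ l) m := by
  have h1 : m < q ^ (Nat.log q (3 * L) + 1) :=
    lt_of_le_of_lt hL (Nat.lt_pow_succ_log_self hq.out.one_lt _)
  rw [← Nat.factorization_def _ hq.out, Nat.factorization_eq_card_pow_dvd_of_lt hq.out hm h1,
    Finset.card_filter]
  push_cast
  refine Finset.sum_congr rfl fun l _ => ?_
  unfold ind
  have : ((q ^ l : ℕ) : ℤ) ∣ (m : ℤ) ↔ q ^ l ∣ m := Int.natCast_dvd_natCast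
  split_ifs with ha hb hb
  · rfl
  · exact absurd (this.2 ha) hb
  · exact absurd (this.1 hb) ha
  · rfl

theorem fs_ge5 (q : ℕ) [hq : Fact q.Prime] (h5 : 5 ≤ q) (L : ℕ) (n : ℕ) :
    (n ≤ L → fsE q n = ∑ l ∈ Ico 1 (Nat.log q (3 * L) + 1), eF (q ^ l) n) ∧
    (n + 1 ≤ L → fsE q (n + 1) = ∑ l ∈ Ico 1 (Nat.log q (3 * L) + 1), eF (q ^ l) ((n + 1 : ℕ) : ℤ)) := by
  have hq3 : ∀ l ∈ Ico 1 (Nat.log q (3 * L) + 1), 5 ≤ q ^ l := by
    intro l hl
    rw [Finset.mem_Ico] at hl
    calc 5 ≤ q := h5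
      _ = q ^ 1 := (pow_one q).symm
      _ ≤ q ^ l := Nat.pow_le_pow_right (by omega) hl.1
  have hcop : q.Coprime 6 := by
    rw [Nat.Prime.coprime_iff_not_dvd hq.out]
    intro h
    have := Nat.le_of_dvd (by norm_num) h
    have h6 : q = 5 ∨ q = 6 := by omega
    rcases h6 with h6 | h6
    · rw [h6] at h
      norm_num at h
    · have := hq.out
      rw [h6] at this
      norm_num at this
  induction n with
  | zero =>
    constructor
    · intro _
      simp only [fsE, Nat.cast_zero, eF_zero, Finset.sum_const_zero]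
    · intro _
      have h2 : padicValNat q 2 = 0 :=
        padicValNat.eq_zero_of_not_dvd fun h => by
          have := Nat.le_of_dvd (by norm_num) h
          omega
      simp only [fsE, zero_add, mul_zero, Nat.cast_one, padicValNat_one_right, h2]
      rw [Finset.sum_eq_zero]
      · simp
      · intro l hl
        exact eF_one _ (by have := hq3 l hl; omega)
  | succ n ih =>
    refine ⟨ih.2, fun hn => ?_⟩
    have ih1 := ih.1 (by omega)
    have h2 : fsE q (n + 1 + 1) = (padicValNat q (3 * (n + 1) + 2) : ℤ) -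
        padicValNat q (3 * (n + 1) + 1) - padicValNat q (3 * n + 2) + padicValNat q (3 * n + 1) +
        fsE q n := by
      simp only [fsE]
      ring
    rw [h2, ih1, fs_val q L _ (by omega) (by omega), fs_val q L _ (by omega) (by omega),
      fs_val q L _ (by omega) (by omega), fs_val q L _ (by omega) (by omega),
      ← Finset.sum_sub_distrib, ← Finset.sum_sub_distrib, ← Finset.sum_add_distrib,
      ← Finset.sum_add_distrib]
    refine Finset.sum_congr rfl fun l hl => ?_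
    have h3 := eF_step (q ^ l) (Nat.Coprime.pow_left l hcop) (by have := hq3 l hl; omega) n
    have e1 : ((n + 1 + 1 : ℕ) : ℤ) = (n : ℤ) + 2 := by push_cast; ring
    have e2 : ((3 * (n + 1) + 2 : ℕ) : ℤ) = 3 * (n : ℤ) + 5 := by push_cast; ring
    have e3 : ((3 * (n + 1) + 1 : ℕ) : ℤ) = 3 * (n : ℤ) + 4 := by push_cast; ring
    have e4 : ((3 * n + 2 : ℕ) : ℤ) = 3 * (n : ℤ) + 2 := by push_cast; ring
    have e5 : ((3 * n + 1 : ℕ) : ℤ) = 3 * (n : ℤ) + 1 := by push_cast; ring
    rw [e1, e2, e3, e4, e5]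
    linear_combination -h3

theorem fs_abs5 (q : ℕ) [hq : Fact q.Prime] (h5 : 5 ≤ q) (L : ℕ) (n : ℕ) (hn : n ≤ L) :
    |fsE q n| ≤ Nat.log q (3 * L) := by
  rw [(fs_ge5 q h5 L n).1 hn]
  refine (Finset.abs_sum_le_sum_abs _ _).trans ?_
  refine (Finset.sum_le_card_nsmul _ _ 1 ?_).trans ?_
  · intro l _
    unfold eF
    split_ifs <;> simp
  · simp

theorem fs_three (n : ℕ) : fsE 3 n = 0 := by
  induction n with
  | zero => rfl
  | succ n ih =>
    have h1 : padicValNat 3 (3 * n + 1) = 0 := padicValNat.eq_zero_of_not_dvd (by omega)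
    have h2 : padicValNat 3 (3 * n + 2) = 0 := padicValNat.eq_zero_of_not_dvd (by omega)
    simp only [fsE, h1, h2, ih]
    norm_num

/-- `V_n = v_2((3n)!/n!)` -/
theorem fs_two (n : ℕ) :
    fsE 2 n = (if n % 2 = 0 then -1 else 1) *
      ((padicValNat 2 (3 * n).factorial : ℤ) - padicValNat 2 n.factorial) := by
  induction n with
  | zero => simp [fsE]
  | succ n ih =>
    have h1 : padicValNat 2 (3 * (n + 1)).factorial = padicValNat 2 (3 * (n + 1)) +
        (padicValNat 2 (3 * n + 2) + (padicValNat 2 (3 * n + 1) + padicValNat 2 (3 * n).factorial)) := by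
      rw [show 3 * (n + 1) = 3 * n + 1 + 1 + 1 by ring, Nat.factorial_succ, Nat.factorial_succ,
        Nat.factorial_succ, padicValNat.mul (by omega) (by positivity),
        padicValNat.mul (by omega) (by positivity), padicValNat.mul (by omega) (by positivity)]
    have h2 : padicValNat 2 (n + 1).factorial = padicValNat 2 (n + 1) + padicValNat 2 n.factorial := by
      rw [Nat.factorial_succ, padicValNat.mul (by omega) (by positivity)]
    have h3 : padicValNat 2 (3 * (n + 1)) = padicValNat 2 (n + 1) := by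
      rw [padicValNat.mul (by norm_num) (by omega)]
      have : padicValNat 2 3 = 0 := padicValNat.eq_zero_of_not_dvd (by norm_num)
      omega
    simp only [fsE]
    rw [ih, h1, h2, h3]
    rcases Nat.mod_two_eq_zero_or_one n with h | h
    · have h4 : padicValNat 2 (3 * n + 1) = 0 := padicValNat.eq_zero_of_not_dvd (by omega)
      rw [if_pos h, if_neg (by omega), h4]
      push_cast
      ring
    · have h4 : padicValNat 2 (3 * n + 2) = 0 := padicValNat.eq_zero_of_not_dvd (by omega)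
      rw [if_neg (by omega), if_pos (by omega), h4]
      push_cast
      ring

theorem fs_V (L n : ℕ) (hn : n ≤ L) :
    padicValNat 2 (3 * n).factorial ≤ padicValNat 2 n.factorial + 2 * n + Nat.log 2 (3 * L) := by
  have hlog : Nat.log 2 (3 * n) < Nat.log 2 (3 * L) + 1 := by
    have := Nat.log_mono_right (b := 2) (show 3 * n ≤ 3 * L by omega)
    omega
  have hlog' : Nat.log 2 n < Nat.log 2 (3 * L) + 1 := by
    have := Nat.log_mono_right (b := 2) (show n ≤ 3 * L by omega)
    omega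
  have : Fact (Nat.Prime 2) := ⟨Nat.prime_two⟩
  rw [padicValNat_factorial hlog, padicValNat_factorial hlog']
  have h1 : ∀ i ∈ Ico 1 (Nat.log 2 (3 * L) + 1), 3 * n / 2 ^ i ≤ n / 2 ^ i + 2 * n / 2 ^ i + 1 := by
    intro i _
    have hp : 0 < 2 ^ i := by positivity
    have a1 := Nat.div_add_mod n (2 ^ i)
    have a2 := Nat.div_add_mod (2 * n) (2 ^ i)
    have a3 := Nat.mod_lt n hp
    have a4 := Nat.mod_lt (2 * n) hp
    rw [← Nat.lt_succ_iff, Nat.div_lt_iff_lt_mul hp]
    nlinarith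
  have h2 := Finset.sum_le_sum h1
  rw [Finset.sum_add_distrib, Finset.sum_add_distrib, Finset.sum_const, Nat.card_Ico] at h2
  have h3 := Nat.geom_sum_Ico_le (b := 2) le_rfl (2 * n) (Nat.log 2 (3 * L) + 1)
  simp only [Nat.add_sub_cancel, smul_eq_mul, mul_one] at h2
  norm_num at h3
  omega

theorem fs_Vnonneg (n : ℕ) : padicValNat 2 n.factorial ≤ padicValNat 2 (3 * n).factorial := by
  have : Fact (Nat.Prime 2) := ⟨Nat.prime_two⟩
  apply (padicValNat_dvd_iff_le (by positivity)).1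
  exact pow_padicValNat_dvd.trans (Nat.factorial_dvd_factorial (by omega))

theorem fs_bound (q : ℕ) [hq : Fact q.Prime] (L : ℕ) (n : ℕ) (hn : n ≤ L) :
    -((ww q n : ℤ) + Nat.log q (3 * L)) ≤ fsE q n ∧
    -((ww q (-(n : ℤ)) : ℤ) + Nat.log q (3 * L)) ≤ -fsE q n := by
  rcases lt_or_ge q 5 with h | h
  · have h23 : q = 2 ∨ q = 3 := by
      have := hq.out.two_le
      have : q ≠ 4 := by
        rintro rfl
        exact absurd hq.out (by norm_num)
      omega
    rcases h23 with rfl | rfl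
    · have hV := fs_V L n hn
      have hV0 := fs_Vnonneg n
      have e := fs_two n
      unfold ww
      rcases Nat.mod_two_eq_zero_or_one n with hp | hp
      · rw [if_pos hp] at e
        rw [e]
        constructor
        · rcases Nat.eq_zero_or_pos n with h0 | h0
          · subst h0
            simp
          · rw [if_pos (by constructor; · rfl
                           · left; omega)]
            simp only [Int.natAbs_natCast]
            omega
        · split_ifs <;> omega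
      · rw [if_neg (by omega)] at e
        rw [e]
        constructor
        · split_ifs <;> omega
        · rw [if_pos (by constructor; · rfl
                         · right; omega)]
          simp only [Int.natAbs_neg, Int.natAbs_natCast]
          omega
    · rw [fs_three]
      omega
  · have h1 := abs_le.1 (fs_abs5 q h L n hn)
    omega

theorem F_small (q : ℕ) [Fact q.Prime] (L : ℕ) (hL : 1 ≤ L) (t : ℤ) (ht : |t| ≤ (L : ℤ)) (j : ℕ) :
    padicNorm q (PowerSeries.coeff j (FF t)) ≤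
      (q : ℚ) ^ ((j * Nat.log q (3 * L) + ww q t + Nat.log q (3 * L) : ℕ) : ℤ) := by
  have key : ∀ e : ℤ, PB q e (Nat.log q (3 * L)) (FF t) → -((ww q t : ℤ) + Nat.log q (3 * L)) ≤ e →
      padicNorm q (PowerSeries.coeff j (FF t)) ≤
      (q : ℚ) ^ ((j * Nat.log q (3 * L) + ww q t + Nat.log q (3 * L) : ℕ) : ℤ) := by
    intro e he hle
    by_cases h0 : PowerSeries.coeff j (FF t) = 0
    · rw [h0, padicNorm.zero]
      positivity
    · rw [padicNorm.eq_zpow_of_nonzero h0]
      have hq1 : (1 : ℚ) ≤ q := by exact_mod_cast (Fact.out : q.Prime).one_lt.le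
      apply zpow_le_zpow_right₀ hq1
      have := he j h0
      push_cast
      linarith
  rcases le_total 0 t with h | h
  · obtain ⟨n, rfl⟩ := Int.eq_ofNat_of_zero_le h
    rw [abs_of_nonneg h] at ht
    exact key _ (fs_main q L n (by omega)).1.1 (fs_bound q L n (by omega)).1
  · obtain ⟨n, hn⟩ := Int.eq_ofNat_of_zero_le (a := -t) (by omega)
    have hn' : t = -(n : ℤ) := by omega
    subst hn'
    rw [abs_neg, abs_of_nonneg (by omega)] at ht
    exact key _ (fs_main q L n (by omega)).2.1 (fs_bound q L n (by omega)).2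

end Pool.Agent.H80.HF
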