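import Pool.Agent.H80.HF.Defs
import Pool.Agent.H40.HF.Jets

/-!
# HF Har: the harmonic sum between `p/6` and `p/3` vanishes for a Wieferich prime

See `Pool.Agent.H40.HF.third_harm`: with `h_A, h_B, h_C` the sums of `1/j` over `(0,p/6)`, `(p/6,p/3)`, `(p/3,p/2)` the even
and the odd numbers below `p/3` give `h_A + h_B = h_A/2 - h_C/2`, hence `h_B = -(h_A + h_B + h_C) = -H_((p-1)/2) = 2 q_p(2)`.
-/

set_option autoImplicit false

namespace Pool.Agent.H80.HF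

open Finset

theorem wf_of_wie {p : ℕ} (hW : Wie p) : Pool.Agent.H11.NW.Wf p := by
  have h1 : (1 : ℕ) ≤ 2 ^ (p - 1) := Nat.one_le_two_pow
  have h2 : ((p ^ 2 : ℕ) : ℤ) ∣ ((2 ^ (p - 1) - 1 : ℕ) : ℤ) := by
    rw [Nat.cast_sub h1]
    push_cast
    exact hW
  exact Int.natCast_dvd_natCast.1 h2

theorem har (p : ℕ) [Fact p.Prime] (hp : 5 ≤ p) (hW : Wie p) :
    ∑ j ∈ Ioc (p / 6) (p / 3), (1 : ZMod p) / (j : ZMod p) = 0 := by
  have h := Pool.Agent.H40.HF.third_harm_zero p hp (wf_of_wie hW)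
  rw [← h]
  exact sum_congr rfl fun j _ => one_div _

end Pool.Agent.H80.HF
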