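import Pool.Agent.H85.Fold.RankDrop

/-!
# HF KerM: a `d`-dimensional kernel modulo `p` makes an integral determinant divisible by `p^d`

PROOF. `Fold.pow_dvd_det` (helper85): `p ^ (r - rank)` divides the determinant of an integral `r × r` matrix; reindex, and
rank + dimension of the kernel `= r`.
-/

set_option autoImplicit false

namespace Pool.Agent.H80.HF

open Finset

theorem det_pow (p : ℕ) [Fact p.Prime] {ι : Type} [Fintype ι] [DecidableEq ι]
    (M : Matrix ι ι ℤ) (V : Submodule (ZMod p) (ι → ZMod p))
    (hV : ∀ v ∈ V, (M.map (Int.castRingHom (ZMod p))).mulVec v = 0) (d : ℕ)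
    (hd : d ≤ Module.finrank (ZMod p) V) :
    (p : ℤ) ^ d ∣ M.det := by
  classical
  have e := Fintype.equivFin ι
  have h := Pool.Agent.H85.Fold.pow_dvd_det (M.submatrix e.symm e.symm) p
  rw [Matrix.det_submatrix_equiv_self] at h
  refine dvd_trans (pow_dvd_pow _ ?_) h
  have h1 : ((M.submatrix e.symm e.symm).map (Int.cast : ℤ → ZMod p)).rank =
      (M.map (Int.castRingHom (ZMod p))).rank := by
    have h2 : (M.submatrix e.symm e.symm).map (Int.cast : ℤ → ZMod p) =
        (M.map (Int.castRingHom (ZMod p))).submatrix e.symm e.symm := rfl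
    rw [h2]
    exact Matrix.rank_submatrix _ _ _
  rw [h1]
  have h3 := LinearMap.finrank_range_add_finrank_ker (M.map (Int.castRingHom (ZMod p))).mulVecLin
  have h4 : (M.map (Int.castRingHom (ZMod p))).rank =
      Module.finrank (ZMod p) (LinearMap.range (M.map (Int.castRingHom (ZMod p))).mulVecLin) := rfl
  rw [← h4, Module.finrank_fintype_fun_eq_card] at h3
  have h5 : V ≤ LinearMap.ker (M.map (Int.castRingHom (ZMod p))).mulVecLin := fun v hv => hV v hv
  have h6 := Submodule.finrank_mono h5
  omega

end Pool.Agent.H80.HF
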