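import Pool.Agent.H80.HF.Defs

/-!
# HF Rec: the recursions

PROOF. `rec_cross`: for `t ≥ 0` `NN (t+1) = lf (3t+2) * DN t`, `DN (t+1) = lf (3t+1) * NN t`; for `t < 0` (`t = -n-1`,
`3t+2 = -3n-1`, `3t+1 = -3n-2`) `NN t = lf (3t+2) * DN (t+1)`, `DN t = lf (3t+1) * NN (t+1)`. Constant terms are products of
the constants `3t+1`, `3t+2`, nonzero. `FF_rec` in `ℚ[[y]]` from `rec_cross`.
-/

set_option autoImplicit false

namespace Pool.Agent.H80.HF

theorem Rec_lf_coeff (n : ℤ) : (lf n).coeff 0 = n := by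
  simp [lf]

theorem Rec_pos (n : ℕ) : NN (n : ℤ) = (NDp n).1 ∧ DN (n : ℤ) = (NDp n).2 := by
  have h2 : (0 : ℤ) ≤ (n : ℤ) := by positivity
  have h4 : ((n : ℤ)).toNat = n := by omega
  rw [NN, DN, if_pos h2, if_pos h2, h4]
  exact ⟨rfl, rfl⟩

theorem NN_zero : NN 0 = 1 := by
  have := (Rec_pos 0).1
  simpa [NDp] using this

theorem DN_zero : DN 0 = 1 := by
  have := (Rec_pos 0).2
  simpa [NDp] using this

theorem Rec_neg (n : ℕ) : NN (-(n : ℤ)) = (NDm n).1 ∧ DN (-(n : ℤ)) = (NDm n).2 := by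
  rcases Nat.eq_zero_or_pos n with h | h
  · subst h
    simp only [Nat.cast_zero, neg_zero, NN_zero, DN_zero, NDm, and_self]
  · have h1 : ¬ (0 : ℤ) ≤ -(n : ℤ) := by omega
    have h2 : (-(-(n : ℤ))).toNat = n := by omega
    rw [NN, DN, if_neg h1, if_neg h1, h2]
    exact ⟨rfl, rfl⟩

theorem Rec_pos_succ (n : ℕ) : NN ((n : ℤ) + 1) = lf (3 * n + 2) * DN n ∧
    DN ((n : ℤ) + 1) = lf (3 * n + 1) * NN n := by
  have h := Rec_pos (n + 1)
  push_cast at h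
  rw [h.1, h.2, (Rec_pos n).1, (Rec_pos n).2, NDp]
  exact ⟨rfl, rfl⟩

theorem Rec_neg_succ (n : ℕ) : NN (-((n : ℤ) + 1)) = lf (-(3 * n) - 1) * DN (-(n : ℤ)) ∧
    DN (-((n : ℤ) + 1)) = lf (-(3 * n) - 2) * NN (-(n : ℤ)) := by
  have h := Rec_neg (n + 1)
  push_cast at h
  rw [h.1, h.2, (Rec_neg n).1, (Rec_neg n).2, NDm]
  exact ⟨rfl, rfl⟩

theorem rec_cross (t : ℤ) :
    lf (3 * t + 1) * (NN (t + 1) * NN t) = lf (3 * t + 2) * (DN (t + 1) * DN t) := by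
  rcases le_or_gt 0 t with h | h
  · obtain ⟨n, rfl⟩ := Int.eq_ofNat_of_zero_le h
    rw [(Rec_pos_succ n).1, (Rec_pos_succ n).2]
    ring
  · obtain ⟨n, hn⟩ := Int.eq_ofNat_of_zero_le (show 0 ≤ -(t + 1) by omega)
    have ht : t = -((n : ℤ) + 1) := by omega
    subst ht
    have e : -((n : ℤ) + 1) + 1 = -(n : ℤ) := by ring
    have e1 : (3 : ℤ) * -((n : ℤ) + 1) + 1 = -(3 * n) - 2 := by ring
    have e2 : (3 : ℤ) * -((n : ℤ) + 1) + 2 = -(3 * n) - 1 := by ring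
    rw [e, e1, e2, (Rec_neg_succ n).1, (Rec_neg_succ n).2]
    ring

theorem Rec_ne (n : ℕ) : ((NN (n : ℤ)).coeff 0 ≠ 0 ∧ (DN (n : ℤ)).coeff 0 ≠ 0) ∧
    ((NN (-(n : ℤ))).coeff 0 ≠ 0 ∧ (DN (-(n : ℤ))).coeff 0 ≠ 0) := by
  induction n with
  | zero => simp [NN_zero, DN_zero]
  | succ n ih =>
    obtain ⟨⟨h1, h2⟩, h3, h4⟩ := ih
    push_cast
    rw [(Rec_pos_succ n).1, (Rec_pos_succ n).2, (Rec_neg_succ n).1, (Rec_neg_succ n).2]
    simp only [Polynomial.mul_coeff_zero, Rec_lf_coeff]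
    exact ⟨⟨mul_ne_zero (by omega) h2, mul_ne_zero (by omega) h1⟩,
      mul_ne_zero (by omega) h4, mul_ne_zero (by omega) h3⟩

theorem NN_coeff_ne (t : ℤ) : (NN t).coeff 0 ≠ 0 := by
  obtain ⟨n, rfl | rfl⟩ := Int.eq_nat_or_neg t
  · exact (Rec_ne n).1.1
  · exact (Rec_ne n).2.1

theorem DN_coeff_ne (t : ℤ) : (DN t).coeff 0 ≠ 0 := by
  obtain ⟨n, rfl | rfl⟩ := Int.eq_nat_or_neg t
  · exact (Rec_ne n).1.2
  · exact (Rec_ne n).2.2

theorem Rec_const (P : Polynomial ℤ) : PowerSeries.constantCoeff (toPS P) = (P.coeff 0 : ℚ) := by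
  unfold toPS
  rw [← PowerSeries.coeff_zero_eq_constantCoeff_apply, Polynomial.coeff_coe, Polynomial.coeff_map]
  simp

theorem Rec_toPS_mul (P Q : Polynomial ℤ) : toPS (P * Q) = toPS P * toPS Q := by
  unfold toPS
  rw [Polynomial.map_mul, Polynomial.coe_mul]

theorem Rec_toPS_one : toPS 1 = 1 := by
  unfold toPS
  rw [Polynomial.map_one, Polynomial.coe_one]

theorem FF_zero : FF 0 = 1 := by
  rw [FF, NN_zero, DN_zero, Rec_toPS_one, one_mul]
  have h : PowerSeries.constantCoeff (1 : PowerSeries ℚ) ≠ 0 := by simp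
  have h2 := PowerSeries.mul_inv_cancel (1 : PowerSeries ℚ) h
  rwa [one_mul] at h2

theorem Rec_DN_const_ne (t : ℤ) : PowerSeries.constantCoeff (toPS (DN t)) ≠ 0 := by
  rw [Rec_const]
  exact_mod_cast DN_coeff_ne t

theorem FF_DN (t : ℤ) : FF t * toPS (DN t) = toPS (NN t) := by
  rw [FF, mul_assoc, PowerSeries.inv_mul_cancel _ (Rec_DN_const_ne t), mul_one]

theorem FF_coeff_ne (t : ℤ) : PowerSeries.constantCoeff (FF t) ≠ 0 := by
  intro h
  have h1 := congrArg (PowerSeries.constantCoeff (R := ℚ)) (FF_DN t)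
  rw [map_mul, h, zero_mul, Rec_const] at h1
  exact NN_coeff_ne t (by exact_mod_cast h1.symm)

theorem Rec_DN_ne (t : ℤ) : toPS (DN t) ≠ 0 := by
  intro h
  exact Rec_DN_const_ne t (by rw [h, map_zero])

theorem FF_rec (t : ℤ) : toPS (lf (3 * t + 1)) * (FF (t + 1) * FF t) = toPS (lf (3 * t + 2)) := by
  have h := congrArg toPS (rec_cross t)
  simp only [Rec_toPS_mul] at h
  rw [← FF_DN (t + 1), ← FF_DN t] at h
  have h1 : toPS (DN (t + 1)) * toPS (DN t) ≠ 0 := mul_ne_zero (Rec_DN_ne _) (Rec_DN_ne _)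
  apply mul_right_cancel₀ h1
  linear_combination h

theorem Rec_lf_ne (n : ℤ) : toPS (lf n) ≠ 0 := by
  intro h
  have h1 := congrArg (PowerSeries.coeff (R := ℚ) 1) h
  unfold toPS lf at h1
  rw [Polynomial.coeff_coe, Polynomial.coeff_map, Polynomial.coeff_add, Polynomial.coeff_C_mul,
    Polynomial.coeff_X_one, Polynomial.coeff_C_of_ne_zero one_ne_zero] at h1
  norm_num at h1

/-- two steps -/
theorem FF_rec2 (t : ℤ) : toPS (lf (3 * t + 2)) * toPS (lf (3 * t + 4)) * FF (t + 2) =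
    toPS (lf (3 * t + 1)) * toPS (lf (3 * t + 5)) * FF t := by
  have h1 := FF_rec t
  have h2 := FF_rec (t + 1)
  have e1 : 3 * (t + 1) + 1 = 3 * t + 4 := by ring
  have e2 : 3 * (t + 1) + 2 = 3 * t + 5 := by ring
  have e3 : t + 1 + 1 = t + 2 := by ring
  rw [e1, e2, e3] at h2
  rw [← h1, ← h2]
  ring

end Pool.Agent.H80.HF
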