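import Pool.Agent.H80.HF.KerI
import Pool.Agent.H80.HF.Rec
import Pool.Agent.H80.HF.KerM

/-!
# HF IntM: the minors times `∏ DN t (0)^3` are integers, highly divisible by the Wieferich primes

PROOF. The rows are `[-L,L] × Fin 3` (`6L+3` of them), `ρ` misses three of them: `e : Col L ⊕ Fin 3 ≃ [-L,L] × Fin 3` extending `ρ`
(cardinality). Padded matrix `P` (index `Col L ⊕ Fin 3` for rows via `e` and for columns): in the columns of `Col L` the entries `ent`,
in the column `k : Fin 3` the unit vector of the row `inr k`: block triangular, `det P = DD L ρ` (`Matrix.det_fromBlocks_zero₁₂`).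
Multiply from the left by the matrix `T`, `T (t,j) (t',j') = coeff (j-j') (DN t)` if `t = t'` and `j' ≤ j`, else 0:
`det T = ∏_t (DN t).coeff 0 ^ 3` (block diagonal, each block lower triangular; or reindex to `[-L,L] × Fin 3`,
`Matrix.det_blockDiagonal`). `T P` is integral: row `(t,j)` becomes `entI L (t,j)` (`FF_DN`:
`DN t (A(t+y) - F_t B(t+y)) = DN t A(t+y) - NN t B(t+y)`), and `coeff (j - j_k) (DN t)` in the unit columns. So `z = det (T P)`.
Wieferich `p`: for a polynomial `g` over `ZMod p` of degree `< 3L - dd p` the vector (coefficients of `A g`, coefficients of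
`B g`, `0`) is in the kernel of `T P` modulo `p`: row `(t,j)` is `coeff j ((DN t A(t+y) - NN t B(t+y)) g(t+y)) = 0` (`ker_id`).
`g ↦` vector is injective (`A ≠ 0`), so the kernel has dimension `≥ 3L - dd p`; `det_pow`.
-/

set_option autoImplicit false

namespace Pool.Agent.H80.HF

open Finset

/-- the nodes -/
private abbrev Nd (L : ℕ) := {t : ℤ // t ∈ Icc (-(L : ℤ)) L}

private theorem card_Nd (L : ℕ) : Fintype.card (Nd L × Fin 3) = 6 * L + 3 := by
  rw [Fintype.card_prod, Fintype.card_coe, Int.card_Icc, Fintype.card_fin]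
  omega

private theorem exists_e (L : ℕ) (ρ : Col L → ℤ × Fin 3) (hρ : Rows L ρ) :
    ∃ e : (Col L ⊕ Fin 3) ≃ (Nd L × Fin 3), ∀ c : Col L,
      (((e (Sum.inl c)).1 : ℤ), (e (Sum.inl c)).2) = ρ c := by
  classical
  have hmem : ∀ c, (ρ c).1 ∈ Icc (-(L : ℤ)) L := fun c => mem_Icc.2 (abs_le.1 (hρ.le c))
  let ρ' : Col L → Nd L × Fin 3 := fun c => (⟨(ρ c).1, hmem c⟩, (ρ c).2)
  have hinj : Function.Injective ρ' := by
    intro a b h
    apply hρ.inj
    have h1 := congrArg (fun x : Nd L × Fin 3 => ((x.1 : ℤ), x.2)) h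
    exact h1
  have hcard : Fintype.card {x : Nd L × Fin 3 // x ∉ Set.range ρ'} = 3 := by
    have h1 := Fintype.card_subtype_compl (fun x : Nd L × Fin 3 => x ∈ Set.range ρ')
    have h2 : Fintype.card {x : Nd L × Fin 3 // x ∈ Set.range ρ'} = Fintype.card (Col L) :=
      Fintype.card_congr (Equiv.ofInjective ρ' hinj).symm
    rw [h1, h2, card_Nd, Fintype.card_sum, Fintype.card_fin]
    omega
  let e2 : Fin 3 ≃ {x : Nd L × Fin 3 // x ∉ Set.range ρ'} :=
    (Fintype.equivFinOfCardEq hcard).symm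
  refine ⟨((Equiv.ofInjective ρ' hinj).sumCongr e2).trans
    (Equiv.sumCompl (fun x : Nd L × Fin 3 => x ∈ Set.range ρ')), fun c => ?_⟩
  rfl

/-- the Toeplitz multiplier -/
private noncomputable def TT (L : ℕ) : Matrix (Nd L × Fin 3) (Nd L × Fin 3) ℤ :=
  fun r r' => if r.1 = r'.1 then
    (if r'.2 ≤ r.2 then (DN r.1).coeff ((r.2 : ℕ) - (r'.2 : ℕ)) else 0) else 0

private theorem det_TT (L : ℕ) : (TT L).det = ∏ t ∈ Icc (-(L : ℤ)) L, (DN t).coeff 0 ^ 3 := by
  classical
  have h1 : (TT L).submatrix Prod.swap Prod.swap = Matrix.blockDiagonal (fun t : Nd L =>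
      (fun j j' : Fin 3 => if j' ≤ j then (DN t).coeff ((j : ℕ) - (j' : ℕ)) else 0 :
        Matrix (Fin 3) (Fin 3) ℤ)) := by
    ext ⟨j, t⟩ ⟨j', t'⟩
    rw [Matrix.blockDiagonal_apply]
    rfl
  have h2 := Matrix.det_submatrix_equiv_self (Equiv.prodComm (Fin 3) (Nd L)) (TT L)
  have h3 : (TT L).submatrix (Equiv.prodComm (Fin 3) (Nd L)) (Equiv.prodComm (Fin 3) (Nd L)) =
      (TT L).submatrix Prod.swap Prod.swap := rfl
  rw [← h2, h3, h1, Matrix.det_blockDiagonal]
  rw [← Finset.prod_coe_sort (Icc (-(L : ℤ)) L) (fun t => (DN t).coeff 0 ^ 3)]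
  refine Finset.prod_congr rfl fun t _ => ?_
  rw [Matrix.det_fin_three]
  simp
  ring

/-- the padded matrix -/
private noncomputable def PP (L : ℕ) (e : (Col L ⊕ Fin 3) ≃ (Nd L × Fin 3)) :
    Matrix (Nd L × Fin 3) (Col L ⊕ Fin 3) ℚ :=
  fun r c => match c with
    | Sum.inl c => ent L ((r.1 : ℤ), r.2) c
    | Sum.inr k => if e (Sum.inr k) = r then 1 else 0

private theorem det_PP (L : ℕ) (ρ : Col L → ℤ × Fin 3) (e : (Col L ⊕ Fin 3) ≃ (Nd L × Fin 3))
    (he : ∀ c : Col L, (((e (Sum.inl c)).1 : ℤ), (e (Sum.inl c)).2) = ρ c) :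
    ((PP L e).submatrix e id).det = DD L ρ := by
  classical
  have h1 : (PP L e).submatrix e id = Matrix.fromBlocks (Matrix.of fun c => ent L (ρ c)) 0
      (Matrix.of fun k c => ent L (((e (Sum.inr k)).1 : ℤ), (e (Sum.inr k)).2) c) 1 := by
    ext a b
    rcases a with a | a <;> rcases b with b | b
    · show ent L (((e (Sum.inl a)).1 : ℤ), (e (Sum.inl a)).2) b = ent L (ρ a) b
      rw [he]
    · show (if e (Sum.inr b) = e (Sum.inl a) then (1 : ℚ) else 0) = 0
      rw [if_neg]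
      intro h
      exact absurd (e.injective h) (by simp)
    · rfl
    · show (if e (Sum.inr b) = e (Sum.inr a) then (1 : ℚ) else 0) = (1 : Matrix (Fin 3) (Fin 3) ℚ) a b
      rw [Matrix.one_apply]
      by_cases hab : a = b
      · subst hab; simp
      · rw [if_neg hab, if_neg]
        intro h
        exact hab (Sum.inr_injective (e.injective h)).symm
  rw [h1, Matrix.det_fromBlocks_zero₁₂, Matrix.det_one, mul_one]
  rfl

/-- the integral matrix -/
private noncomputable def ZZ (L : ℕ) (e : (Col L ⊕ Fin 3) ≃ (Nd L × Fin 3)) :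
    Matrix (Nd L × Fin 3) (Col L ⊕ Fin 3) ℤ :=
  fun r c => match c with
    | Sum.inl c => entI L ((r.1 : ℤ), r.2) c
    | Sum.inr k => TT L r (e (Sum.inr k))

private theorem toPS_coeff (P : Polynomial ℤ) (n : ℕ) :
    PowerSeries.coeff n (toPS P) = ((P.coeff n : ℤ) : ℚ) := by
  unfold toPS
  rw [Polynomial.coeff_coe, Polynomial.coeff_map]
  rfl

private theorem toPS_mul (P Q : Polynomial ℤ) : toPS (P * Q) = toPS P * toPS Q := by
  unfold toPS
  rw [Polynomial.map_mul, Polynomial.coe_mul]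

private theorem toPS_lin (t : ℤ) (i : ℕ) :
    toPS ((Polynomial.X + Polynomial.C t) ^ i) = lin (t : ℚ) ^ i := by
  unfold toPS lin
  rw [Polynomial.map_pow, Polynomial.coe_pow, Polynomial.map_add, Polynomial.map_X,
    Polynomial.map_C, Polynomial.coe_add, Polynomial.coe_X, Polynomial.coe_C]
  rfl

private theorem sum_T (L : ℕ) (r : Nd L × Fin 3) (G : PowerSeries ℚ) (f : Nd L × Fin 3 → ℚ)
    (hf : ∀ j : Fin 3, f (r.1, j) = PowerSeries.coeff (j : ℕ) G) :
    ∑ r', ((TT L r r' : ℤ) : ℚ) * f r' = PowerSeries.coeff (r.2 : ℕ) (toPS (DN r.1) * G) := by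
  classical
  obtain ⟨t, j⟩ := r
  rw [Fintype.sum_prod_type]
  rw [Finset.sum_eq_single t]
  · rw [Fin.sum_univ_three]
    simp only at hf
    rw [hf 0, hf 1, hf 2]
    unfold TT
    simp only [if_true]
    rw [PowerSeries.coeff_mul]
    fin_cases j
    · simp [toPS_coeff]
    · simp [Finset.Nat.antidiagonal_succ, toPS_coeff]
      ring
    · simp [Finset.Nat.antidiagonal_succ, toPS_coeff]
      ring
  · intro b _ hb
    refine Finset.sum_eq_zero fun j' _ => ?_
    unfold TT
    rw [if_neg (fun h => hb h.symm)]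
    simp
  · intro h
    exact absurd (Finset.mem_univ _) h

private theorem ZZ_eq (L : ℕ) (e : (Col L ⊕ Fin 3) ≃ (Nd L × Fin 3)) :
    (ZZ L e).map (Int.castRingHom ℚ) = (TT L).map (Int.castRingHom ℚ) * PP L e := by
  classical
  ext r c
  rw [Matrix.mul_apply]
  simp only [Matrix.map_apply, eq_intCast]
  rcases c with c | k
  · rcases c with i | i
    · rw [sum_T L r (lin ((r.1 : ℤ) : ℚ) ^ (i : ℕ)) (fun r' => PP L e r' (Sum.inl (Sum.inl i)))
        (fun j => rfl)]
      show (((DN r.1 * (Polynomial.X + Polynomial.C (r.1 : ℤ)) ^ (i : ℕ)).coeff (r.2 : ℕ) : ℤ) : ℚ) = _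
      rw [← toPS_lin, ← toPS_mul, toPS_coeff]
    · rw [sum_T L r (-(FF r.1 * lin ((r.1 : ℤ) : ℚ) ^ (i : ℕ)))
        (fun r' => PP L e r' (Sum.inl (Sum.inr i))) (fun j => by
          rw [map_neg]; rfl)]
      show ((-(NN r.1 * (Polynomial.X + Polynomial.C (r.1 : ℤ)) ^ (i : ℕ)).coeff (r.2 : ℕ) : ℤ) : ℚ) = _
      have h1 : toPS (DN r.1) * -(FF r.1 * lin ((r.1 : ℤ) : ℚ) ^ (i : ℕ)) =
          -toPS (NN r.1 * (Polynomial.X + Polynomial.C (r.1 : ℤ)) ^ (i : ℕ)) := by
        rw [toPS_mul, toPS_lin, ← FF_DN]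
        ring
      rw [h1, map_neg, toPS_coeff]
      push_cast
      rfl
  · rw [Finset.sum_eq_single (e (Sum.inr k))]
    · show ((TT L r (e (Sum.inr k)) : ℤ) : ℚ) = _ * (if e (Sum.inr k) = e (Sum.inr k) then (1 : ℚ) else 0)
      rw [if_pos rfl, mul_one]
    · intro r' _ hr'
      show _ * (if e (Sum.inr k) = r' then (1 : ℚ) else 0) = 0
      rw [if_neg (fun h => hr' h.symm), mul_zero]
    · intro h
      exact absurd (Finset.mem_univ _) h

private theorem det_ZZ (L : ℕ) (ρ : Col L → ℤ × Fin 3) (e : (Col L ⊕ Fin 3) ≃ (Nd L × Fin 3))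
    (he : ∀ c : Col L, (((e (Sum.inl c)).1 : ℤ), (e (Sum.inl c)).2) = ρ c) :
    DD L ρ * ((∏ t ∈ Icc (-(L : ℤ)) L, (DN t).coeff 0 ^ 3 : ℤ) : ℚ) =
      (((ZZ L e).submatrix e id).det : ℤ) := by
  classical
  have h1 : (((ZZ L e).submatrix e id).det : ℚ) =
      (((ZZ L e).submatrix e id).map (Int.castRingHom ℚ)).det := by
    rw [← RingHom.mapMatrix_apply, ← RingHom.map_det]
    rfl
  have h2 : ((ZZ L e).submatrix e id).map (Int.castRingHom ℚ) =
      ((TT L).map (Int.castRingHom ℚ)).submatrix e e * (PP L e).submatrix e id := by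
    have h3 : ((ZZ L e).submatrix e id).map (Int.castRingHom ℚ) =
        ((ZZ L e).map (Int.castRingHom ℚ)).submatrix e id := rfl
    rw [h3, ZZ_eq, Matrix.submatrix_mul_equiv]
  have h4 : (((TT L).map (Int.castRingHom ℚ)).submatrix e e).det =
      ((∏ t ∈ Icc (-(L : ℤ)) L, (DN t).coeff 0 ^ 3 : ℤ) : ℚ) := by
    rw [Matrix.det_submatrix_equiv_self, ← det_TT, ← RingHom.mapMatrix_apply, ← RingHom.map_det]
    rfl
  rw [h1, h2, Matrix.det_mul, h4, det_PP L ρ e he, mul_comm]

section ker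

open Polynomial

variable (p : ℕ) [Fact p.Prime] (L : ℕ)

/-- the kernel vector of `g` -/
private noncomputable def vec : (ZMod p)[X] →ₗ[ZMod p] ((Col L ⊕ Fin 3) → ZMod p) where
  toFun g := fun c => match c with
    | Sum.inl (Sum.inl i) => (AA p * g).coeff i
    | Sum.inl (Sum.inr i) => (BB p * g).coeff i
    | Sum.inr _ => 0
  map_add' g h := by
    funext c
    rcases c with (i | i) | k
    · show (AA p * (g + h)).coeff i = (AA p * g).coeff i + (AA p * h).coeff i
      rw [mul_add, coeff_add]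
    · show (BB p * (g + h)).coeff i = (BB p * g).coeff i + (BB p * h).coeff i
      rw [mul_add, coeff_add]
    · show (0 : ZMod p) = 0 + 0
      rw [add_zero]
  map_smul' a g := by
    funext c
    rcases c with (i | i) | k
    · show (AA p * (a • g)).coeff i = a * (AA p * g).coeff i
      rw [mul_smul_comm, coeff_smul, smul_eq_mul]
    · show (BB p * (a • g)).coeff i = a * (BB p * g).coeff i
      rw [mul_smul_comm, coeff_smul, smul_eq_mul]
    · show (0 : ZMod p) = a * 0
      rw [mul_zero]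

/-- the sum of the coefficients times the powers is the composition -/
private theorem sum_comp (D : ℤ[X]) (t : ℤ) (Q : (ZMod p)[X]) (hQ : Q.natDegree < 3 * L) (j : ℕ) :
    ∑ i : Fin (3 * L), (((D * (X + C t) ^ (i : ℕ)).coeff j : ℤ) : ZMod p) * Q.coeff i =
      (D.map (Int.castRingHom (ZMod p)) * Q.comp (X + C (t : ZMod p))).coeff j := by
  have h1 : ∀ i : ℕ, (((D * (X + C t) ^ i).coeff j : ℤ) : ZMod p) =
      (D.map (Int.castRingHom (ZMod p)) * (X + C (t : ZMod p)) ^ i).coeff j := by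
    intro i
    have h2 : (((D * (X + C t) ^ i).coeff j : ℤ) : ZMod p) =
        ((D * (X + C t) ^ i).map (Int.castRingHom (ZMod p))).coeff j := by
      rw [coeff_map]; rfl
    rw [h2, Polynomial.map_mul, Polynomial.map_pow, Polynomial.map_add, map_X, map_C]
    rfl
  simp_rw [h1]
  have h3 : Q.comp (X + C (t : ZMod p)) = ∑ i : Fin (3 * L), C (Q.coeff i) * (X + C (t : ZMod p)) ^ (i : ℕ) := by
    rw [Fin.sum_univ_eq_sum_range (fun i => C (Q.coeff i) * (X + C (t : ZMod p)) ^ i) (3 * L)]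
    conv_lhs => rw [Q.as_sum_range' (3 * L) hQ]
    rw [← Polynomial.coe_compRingHom_apply, map_sum]
    refine Finset.sum_congr rfl fun i _ => ?_
    rw [Polynomial.coe_compRingHom_apply, monomial_comp]
  rw [h3, Finset.mul_sum, finsetSum_coeff]
  refine Finset.sum_congr rfl fun i _ => ?_
  rw [mul_left_comm, coeff_C_mul, mul_comm]

private theorem vec_ker (hp : 5 ≤ p) (hW : Wie p) (e : (Col L ⊕ Fin 3) ≃ (Nd L × Fin 3))
    (g : (ZMod p)[X]) (hg : (AA p * g).natDegree < 3 * L) (hg' : (BB p * g).natDegree < 3 * L) :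
    (((ZZ L e).submatrix e id).map (Int.castRingHom (ZMod p))).mulVec (vec p L g) = 0 := by
  funext a
  show ∑ c : Col L ⊕ Fin 3, (((ZZ L e).submatrix e id).map (Int.castRingHom (ZMod p))) a c *
    vec p L g c = 0
  rw [Fintype.sum_sum_type, Fintype.sum_sum_type]
  obtain ⟨r, hr'⟩ : ∃ r, r = e a := ⟨_, rfl⟩
  obtain ⟨⟨t, ht⟩, j⟩ := r
  have hr := hr'.symm
  have e1 : ∑ i : Fin (3 * L), (((ZZ L e).submatrix e id).map (Int.castRingHom (ZMod p))) a
      (Sum.inl (Sum.inl i)) * vec p L g (Sum.inl (Sum.inl i)) =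
      ((DN t).map (Int.castRingHom (ZMod p)) * (AA p * g).comp (X + C (t : ZMod p))).coeff j := by
    rw [← sum_comp p L (DN t) t (AA p * g) hg j]
    refine Finset.sum_congr rfl fun i _ => ?_
    show ((entI L (((e a).1 : ℤ), (e a).2) (Sum.inl i) : ℤ) : ZMod p) * (AA p * g).coeff i = _
    rw [hr]
    rfl
  have e2 : ∑ i : Fin (3 * L), (((ZZ L e).submatrix e id).map (Int.castRingHom (ZMod p))) a
      (Sum.inl (Sum.inr i)) * vec p L g (Sum.inl (Sum.inr i)) =
      -((NN t).map (Int.castRingHom (ZMod p)) * (BB p * g).comp (X + C (t : ZMod p))).coeff j := by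
    rw [← sum_comp p L (NN t) t (BB p * g) hg' j, ← Finset.sum_neg_distrib]
    refine Finset.sum_congr rfl fun i _ => ?_
    show ((entI L (((e a).1 : ℤ), (e a).2) (Sum.inr i) : ℤ) : ZMod p) * (BB p * g).coeff i = _
    rw [hr]
    show ((-(NN t * (X + C t) ^ (i : ℕ)).coeff (j : ℕ) : ℤ) : ZMod p) * (BB p * g).coeff i = _
    push_cast
    ring
  have e3 : ∑ k : Fin 3, (((ZZ L e).submatrix e id).map (Int.castRingHom (ZMod p))) a
      (Sum.inr k) * vec p L g (Sum.inr k) = 0 := by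
    refine Finset.sum_eq_zero fun k _ => ?_
    show _ * (0 : ZMod p) = 0
    rw [mul_zero]
  rw [e1, e2, e3, add_zero, ← sub_eq_add_neg, ← coeff_sub]
  have h4 : (DN t).map (Int.castRingHom (ZMod p)) * (AA p * g).comp (X + C (t : ZMod p)) -
      (NN t).map (Int.castRingHom (ZMod p)) * (BB p * g).comp (X + C (t : ZMod p)) =
      ((DN t).map (Int.castRingHom (ZMod p)) * (AA p).comp (X + C (t : ZMod p)) -
      (NN t).map (Int.castRingHom (ZMod p)) * (BB p).comp (X + C (t : ZMod p))) *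
        g.comp (X + C (t : ZMod p)) := by
    rw [mul_comp, mul_comp]
    ring
  rw [h4]
  have h5 : (X : (ZMod p)[X]) ^ 3 ∣ ((DN t).map (Int.castRingHom (ZMod p)) * (AA p).comp (X + C (t : ZMod p)) -
      (NN t).map (Int.castRingHom (ZMod p)) * (BB p).comp (X + C (t : ZMod p))) *
        g.comp (X + C (t : ZMod p)) := (ker_id p hp hW t).mul_right _
  exact (X_pow_dvd_iff.1 h5) _ j.2

private theorem vec_inj (hp : 5 ≤ p) (g : (ZMod p)[X]) (hg : (AA p * g).natDegree < 3 * L)
    (h : vec p L g = 0) : g = 0 := by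
  have hA : AA p ≠ 0 := by
    intro h0
    have := (AB_deg p hp).2.2.1
    rw [h0] at this
    exact this (coeff_zero 0)
  have h1 : AA p * g = 0 := by
    ext i
    rw [coeff_zero]
    rcases lt_or_ge i (3 * L) with hi | hi
    · have := congrFun h (Sum.inl (Sum.inl ⟨i, hi⟩))
      exact this
    · exact coeff_eq_zero_of_natDegree_lt (lt_of_lt_of_le hg hi)
  exact (mul_eq_zero.1 h1).resolve_left hA

end ker

theorem int_mult (L : ℕ) (hL : 1 ≤ L) (ρ : Col L → ℤ × Fin 3) (hρ : Rows L ρ) :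
    ∃ z : ℤ, DD L ρ * ((∏ t ∈ Icc (-(L : ℤ)) L, (DN t).coeff 0 ^ 3 : ℤ) : ℚ) = z ∧
      ∀ p : ℕ, p.Prime → 5 ≤ p → Wie p → (p : ℤ) ^ (3 * L - dd p) ∣ z := by
  classical
  obtain ⟨e, he⟩ := exists_e L ρ hρ
  refine ⟨((ZZ L e).submatrix e id).det, det_ZZ L ρ e he, fun p hp h5 hW => ?_⟩
  have : Fact p.Prime := ⟨hp⟩
  obtain ⟨dA, dB, cA, cB⟩ := AB_deg p h5
  have hA0 : AA p ≠ 0 := by rintro h0; rw [h0] at cA; exact cA (Polynomial.coeff_zero 0)
  have hdeg : ∀ g ∈ Polynomial.degreeLT (ZMod p) (3 * L - dd p),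
      (AA p * g).natDegree < 3 * L ∧ (BB p * g).natDegree < 3 * L := by
    intro g hg
    by_cases hg0 : g = 0
    · subst hg0
      simp only [mul_zero, Polynomial.natDegree_zero]
      omega
    · rw [Polynomial.mem_degreeLT, ← Polynomial.natDegree_lt_iff_degree_lt hg0] at hg
      have h1 := Polynomial.natDegree_mul_le (p := AA p) (q := g)
      have h2 := Polynomial.natDegree_mul_le (p := BB p) (q := g)
      omega
  let V : Submodule (ZMod p) ((Col L ⊕ Fin 3) → ZMod p) :=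
    (Polynomial.degreeLT (ZMod p) (3 * L - dd p)).map (vec p L)
  refine det_pow p _ V ?_ (3 * L - dd p) ?_
  · rintro v ⟨g, hg, rfl⟩
    exact vec_ker p L h5 hW e g (hdeg g hg).1 (hdeg g hg).2
  · have hinj : Function.Injective ((vec p L).domRestrict (Polynomial.degreeLT (ZMod p) (3 * L - dd p))) := by
      rw [← LinearMap.ker_eq_bot, LinearMap.ker_eq_bot']
      rintro ⟨g, hg⟩ h
      have := vec_inj p L h5 g (hdeg g hg).1 h
      exact Subtype.ext this
    have h1 := LinearMap.finrank_range_of_inj hinj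
    have h2 : LinearMap.range ((vec p L).domRestrict (Polynomial.degreeLT (ZMod p) (3 * L - dd p))) = V := by
      rw [LinearMap.range_domRestrict]
    rw [h2] at h1
    rw [h1]
    have h3 := (Polynomial.degreeLTEquiv (ZMod p) (3 * L - dd p)).finrank_eq
    rw [h3, Module.finrank_fin_fun]

end Pool.Agent.H80.HF
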