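import Pool.Agent.H80.HF.KerP

/-!
# HF KerI: `DN t(y) A(t+y) = NN t(y) B(t+y) + O(y^3)` modulo a Wieferich prime, for all integers `t`

From `Pool.Agent.H40.HF.jets_nat`, `jets_neg`: `NDp n = nd ℤ n`, and `NDm n` is `(-1)^n` times
`(den_n(-X), num_n(-X))`.
-/

set_option autoImplicit false

namespace Pool.Agent.H80.HF

open Finset Polynomial
open Pool.Agent.H40.HF (nd nd_zero nd_succ nd_map Num Den)

theorem NDp_eq (n : ℕ) : NDp n = nd ℤ n := by
  induction n with
  | zero => rfl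
  | succ n ih =>
    rw [nd_succ, ← ih]
    show (lf (3 * n + 2) * (NDp n).2, lf (3 * n + 1) * (NDp n).1) = _
    unfold lf
    ext1
    · show (C 3 * X + C (3 * (n : ℤ) + 2)) * (NDp n).2 = (C (3 * (n : ℤ) + 2) + C 3 * X) * (NDp n).2
      ring
    · show (C 3 * X + C (3 * (n : ℤ) + 1)) * (NDp n).1 = (C (3 * (n : ℤ) + 1) + C 3 * X) * (NDp n).1
      ring

theorem NDm_eq (n : ℕ) : (NDm n).1 = (-1) ^ n * (nd ℤ n).2.comp (-X) ∧
    (NDm n).2 = (-1) ^ n * (nd ℤ n).1.comp (-X) := by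
  induction n with
  | zero => simp [NDm, nd_zero]
  | succ n ih =>
    obtain ⟨h1, h2⟩ := ih
    rw [nd_succ]
    refine ⟨?_, ?_⟩
    · show lf (-(3 * n) - 1) * (NDm n).2 = _
      rw [h2]
      unfold lf
      simp only [mul_comp, add_comp, C_comp, X_comp, C_add, C_sub, C_neg, C_mul]
      ring
    · show lf (-(3 * n) - 2) * (NDm n).1 = _
      rw [h1]
      unfold lf
      simp only [mul_comp, add_comp, C_comp, X_comp, C_add, C_sub, C_neg, C_mul]
      ring

theorem ker_id (p : ℕ) [Fact p.Prime] (hp : 5 ≤ p) (hW : Wie p) (t : ℤ) :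
    (X : (ZMod p)[X]) ^ 3 ∣ (DN t).map (Int.castRingHom (ZMod p)) * (AA p).comp (X + C (t : ZMod p)) -
      (NN t).map (Int.castRingHom (ZMod p)) * (BB p).comp (X + C (t : ZMod p)) := by
  rw [AA_eq, BB_eq]
  unfold NN DN
  by_cases ht : 0 ≤ t
  · rw [if_pos ht, if_pos ht]
    obtain ⟨n, rfl⟩ := Int.eq_ofNat_of_zero_le ht
    have h := Pool.Agent.H40.HF.jets_nat p hp (wf_of_wie hW) n
    have hm := nd_map (Int.castRingHom (ZMod p)) n
    rw [Int.toNat_natCast, NDp_eq, Int.cast_natCast]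
    rw [← hm] at h
    exact h
  · rw [if_neg ht, if_neg ht]
    obtain ⟨n, hn⟩ := Int.eq_ofNat_of_zero_le (show 0 ≤ -t by omega)
    obtain rfl : t = -(n : ℤ) := by omega
    have h := Pool.Agent.H40.HF.jets_neg p hp (wf_of_wie hW) n
    have hm := nd_map (Int.castRingHom (ZMod p)) n
    obtain ⟨h1, h2⟩ := NDm_eq n
    rw [neg_neg, Int.toNat_natCast, h1, h2]
    rw [← hm] at h
    simp only [Polynomial.map_mul, Polynomial.map_pow, Polynomial.map_neg, Polynomial.map_one,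
      Polynomial.map_comp, Polynomial.map_X] 
    have e : (X + C (((-(n : ℤ) : ℤ)) : ZMod p) : (ZMod p)[X]) = X - C (n : ZMod p) := by
      push_cast
      rw [C_neg]
      ring
    rw [e]
    obtain ⟨w, hw⟩ := h
    refine ⟨(-1) ^ n * w, ?_⟩
    linear_combination (-1) ^ n * hw

end Pool.Agent.H80.HF
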