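import Pool.Agent.H80.HF.Har

/-!
# HF KerP: the kernel polynomials modulo a Wieferich prime

`A = ∏ (u - X)`, `B = ∏ (u + X)`, `u = 2j` over the even numbers in `(p/3, 2p/3)`, i.e. `⌊p/6⌋ < j ≤ ⌊p/3⌋`.
The proofs are in `Pool.Agent.H40.HF.Jets` (`Num = A`, `Den = B`).
-/

set_option autoImplicit false

namespace Pool.Agent.H80.HF

open Finset Polynomial

noncomputable def AA (p : ℕ) : (ZMod p)[X] := ∏ j ∈ Ioc (p / 6) (p / 3), (C (2 * (j : ZMod p)) - X)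

noncomputable def BB (p : ℕ) : (ZMod p)[X] := ∏ j ∈ Ioc (p / 6) (p / 3), (C (2 * (j : ZMod p)) + X)

theorem AA_eq (p : ℕ) : AA p = Pool.Agent.H40.HF.Num p := by
  unfold AA Pool.Agent.H40.HF.Num
  refine prod_congr rfl fun j _ => ?_
  push_cast
  rfl

theorem BB_eq (p : ℕ) : BB p = Pool.Agent.H40.HF.Den p := by
  unfold BB Pool.Agent.H40.HF.Den
  refine prod_congr rfl fun j _ => ?_
  push_cast
  rfl

theorem AB_deg (p : ℕ) [Fact p.Prime] (hp : 5 ≤ p) :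
    (AA p).natDegree = dd p ∧ (BB p).natDegree = dd p ∧ (AA p).coeff 0 ≠ 0 ∧ (BB p).coeff 0 ≠ 0 := by
  rw [AA_eq, BB_eq]
  refine ⟨Pool.Agent.H40.HF.Num_natDegree p, Pool.Agent.H40.HF.Den_natDegree p, ?_,
    Pool.Agent.H40.HF.Den_coeff_zero_ne p hp⟩
  have h1 := Pool.Agent.H40.HF.Den_coeff_zero_ne p hp
  rw [coeff_zero_eq_eval_zero] at h1 ⊢
  rw [← Pool.Agent.H40.HF.Den_comp_neg, eval_comp]
  simpa using h1

theorem AB_step (p : ℕ) [Fact p.Prime] (hp : 5 ≤ p) :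
    (C 3 * X + C 1) * ((AA p).comp (X + C 1) * AA p) =
      (C 3 * X + C 2) * ((BB p).comp (X + C 1) * BB p) := by
  have h := Pool.Agent.H40.HF.one_step p hp
  rw [AA_eq, BB_eq]
  have h3 : (C (3 : ZMod p) : (ZMod p)[X]) = 3 := rfl
  have h2 : (C (2 : ZMod p) : (ZMod p)[X]) = 2 := rfl
  rw [C_1, h3, h2]
  linear_combination h

theorem AB_jet (p : ℕ) [Fact p.Prime] (hp : 5 ≤ p) (hW : Wie p) : (X : (ZMod p)[X]) ^ 3 ∣ AA p - BB p := by
  rw [AA_eq, BB_eq]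
  exact Pool.Agent.H40.HF.cube_dvd p hp (wf_of_wie hW)

end Pool.Agent.H80.HF
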