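import Pool.Agent.H80.HF.DetL
import Pool.Agent.H80.HF.Fbd

/-!
# HF Loc: local expansion at a prime `q`

PROOF of `loc_bound`. `c = Int.bmod t q`. `(t + y)^i = ∑_k choose i k c^(i-k) (t - c + y)^k`: `ent L (t,j) = ∑_u S(r,u) X(u, ·)`,
`U` = (class `ZMod q` or `Fin q`) × `Bool` × `Fin (3L)`, `S((t,j), (C, b, k)) = SS q (t,j) b k` if `t` is in the class `C`,
else `0`; `X((C, true, k), inl i) = choose i k c_C^(i-k)`, `X((C, true, k), inr i) = 0`,
`X((C, false, k), inr i) = -choose i k c_C^(i-k)`, `0` on `inl`. Apply `det_ultra`: `f` injective gives the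
hypothesis on `k`; the determinant is zero unless exactly `3L` rows have type `true` (rows of type `true` are supported on the
`3L` columns `inl`, the others on the `3L` columns `inr`: if there are more than `3L` rows of type `true` they are
linearly dependent, same for `false`). If some `S r (f r) = 0` the product is `0 ≤ B`.
The bounds of `SS`: `t - c` is a multiple of `q`; `coeff j ((y+u)^k) = choose k j u^(k-j)`.
-/

set_option autoImplicit false

namespace Pool.Agent.H80.HF

open Finset

/-- If more than `#T` rows of a square matrix are supported on the column set `T`, the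
determinant vanishes. -/
theorem det_eq_zero_of_support' {R : Type} [CommRing R] {ι : Type} [Fintype ι] [DecidableEq ι]
    (M : Matrix ι ι R) (S T : Finset ι)
    (h : ∀ r ∈ S, ∀ c, c ∉ T → M r c = 0) (hc : T.card < S.card) : M.det = 0 := by
  classical
  rw [Matrix.det_apply']
  refine Finset.sum_eq_zero fun σ _ => ?_
  have h1 : ∃ r ∈ S, σ.symm r ∉ T := by
    by_contra hcon
    push Not at hcon
    have h2 : S.map σ.symm.toEmbedding ⊆ T := by
      intro x hx
      rw [mem_map] at hx
      obtain ⟨r, hr, rfl⟩ := hx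
      exact hcon r hr
    have h3 := card_le_card h2
    rw [card_map] at h3
    omega
  obtain ⟨r, hr, hrT⟩ := h1
  have : ∏ i, M (σ i) i = 0 := by
    refine Finset.prod_eq_zero (mem_univ (σ.symm r)) ?_
    rw [Equiv.apply_symm_apply]
    exact h r hr _ hrT
  rw [this, mul_zero]

theorem lin_zero : lin 0 = PowerSeries.X := by
  unfold lin
  rw [map_zero, add_zero]

theorem coeff_lin_pow (u : ℚ) (k j : ℕ) :
    PowerSeries.coeff j (lin u ^ k) = (k.choose j : ℚ) * u ^ (k - j) := by
  have h1 : lin u ^ k =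
      (((Polynomial.X + Polynomial.C u) ^ k : Polynomial ℚ) : PowerSeries ℚ) := by
    unfold lin
    rw [Polynomial.coe_pow, Polynomial.coe_add, Polynomial.coe_X, Polynomial.coe_C]
  rw [h1, Polynomial.coeff_coe, Polynomial.coeff_X_add_C_pow]
  ring

theorem lin_pow_expand (t : ℤ) (c : ℤ) (i n : ℕ) (hi : i < n) :
    lin (t : ℚ) ^ i = ∑ k ∈ range n,
      PowerSeries.C ((i.choose k : ℚ) * (c : ℚ) ^ (i - k)) * lin ((t - c : ℤ) : ℚ) ^ k := by
  have h1 : lin (t : ℚ) = lin ((t - c : ℤ) : ℚ) + PowerSeries.C (c : ℚ) := by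
    unfold lin
    rw [add_assoc, ← map_add]
    push_cast
    congr 2
    ring
  rw [h1, add_pow]
  have h2 : range (i + 1) ⊆ range n := range_subset_range.2 hi
  rw [← Finset.sum_subset h2]
  · refine Finset.sum_congr rfl fun k _ => ?_
    rw [map_mul, map_pow, map_natCast]
    ring
  · intro k _ hk
    have hk' : i < k := by
      rw [mem_range] at hk
      omega
    rw [Nat.choose_eq_zero_of_lt hk']
    simp

/-- the balanced residue of a class -/
def cres (q : ℕ) (C : ZMod q) : ℤ := Int.bmod (C.val : ℤ) q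

theorem cres_intCast (q : ℕ) [NeZero q] (t : ℤ) : cres q (t : ZMod q) = Int.bmod t q := by
  unfold cres
  rw [ZMod.val_intCast, Int.emod_bmod]

theorem loc_bound (q : ℕ) [Fact q.Prime] (L : ℕ) (hL : 1 ≤ L) (ρ : Col L → ℤ × Fin 3) (B : ℚ) (hB : 0 ≤ B)
    (h : ∀ (b : Col L → Bool) (k : Col L → ℕ), (univ.filter (fun c => b c = true)).card = 3 * L →
      (∀ c c', c ≠ c' → (ρ c).1 % q = (ρ c').1 % q → b c = b c' → k c ≠ k c') →
      (∀ c, SS q (ρ c) (b c) (k c) ≠ 0) →
      ∏ c, padicNorm q (SS q (ρ c) (b c) (k c)) ≤ B) :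
    padicNorm q (DD L ρ) ≤ B := by
  classical
  have _hL := hL
  have : NeZero q := ⟨(Fact.out : q.Prime).ne_zero⟩
  set S : Col L → (ZMod q × Bool × Fin (3 * L)) → ℚ := fun r u =>
    if ((ρ r).1 : ZMod q) = u.1 then SS q (ρ r) u.2.1 (u.2.2 : ℕ) else 0 with hS
  set X : (ZMod q × Bool × Fin (3 * L)) → Col L → ℤ := fun u c =>
    match u.2.1, c with
    | true, Sum.inl i => ((i : ℕ).choose (u.2.2 : ℕ) : ℤ) * cres q u.1 ^ ((i : ℕ) - (u.2.2 : ℕ))
    | true, Sum.inr _ => 0
    | false, Sum.inl _ => 0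
    | false, Sum.inr i =>
      -(((i : ℕ).choose (u.2.2 : ℕ) : ℤ) * cres q u.1 ^ ((i : ℕ) - (u.2.2 : ℕ))) with hX
  have hD : DD L ρ = Matrix.det (Matrix.of fun r c => ∑ u, S r u * (X u c : ℚ)) := by
    unfold DD
    congr 1
    ext r c
    rw [Matrix.of_apply, Matrix.of_apply]
    rw [Fintype.sum_prod_type, Finset.sum_eq_single ((ρ r).1 : ZMod q)]
    · rw [Fintype.sum_prod_type, Fintype.sum_bool]
      cases c with
      | inl i =>
        simp only [hS, hX, if_true, Int.cast_zero, mul_zero, Finset.sum_const_zero, add_zero]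
        rw [ent, lin_pow_expand (ρ r).1 (Int.bmod (ρ r).1 q) (i : ℕ) (3 * L) i.2, map_sum,
          Finset.sum_range]
        refine Finset.sum_congr rfl fun k _ => ?_
        rw [PowerSeries.coeff_C_mul, cres_intCast, SS]
        push_cast
        ring
      | inr i =>
        simp only [hS, hX, if_true, Int.cast_zero, mul_zero, Finset.sum_const_zero, zero_add]
        rw [ent, lin_pow_expand (ρ r).1 (Int.bmod (ρ r).1 q) (i : ℕ) (3 * L) i.2, Finset.mul_sum,
          map_sum, Finset.sum_range, ← Finset.sum_neg_distrib]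
        refine Finset.sum_congr rfl fun k _ => ?_
        rw [mul_left_comm, PowerSeries.coeff_C_mul, cres_intCast, SS]
        push_cast
        ring
    · intro C _ hC
      refine Finset.sum_eq_zero fun u _ => ?_
      simp [hS, Ne.symm hC]
    · intro h
      exact absurd (mem_univ _) h
  rw [hD]
  refine det_ultra q S X B hB fun f hf hdet => ?_
  by_cases h0 : ∃ r, S r (f r) = 0
  · obtain ⟨r, hr⟩ := h0
    rw [Finset.prod_eq_zero (mem_univ r) (by rw [hr]; simp)]
    exact hB
  push Not at h0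
  have hcls : ∀ r, ((ρ r).1 : ZMod q) = (f r).1 := by
    intro r
    by_contra hne
    apply h0 r
    simp [hS, hne]
  have hval : ∀ r, S r (f r) = SS q (ρ r) (f r).2.1 ((f r).2.2 : ℕ) := by
    intro r
    simp [hS, hcls r]
  have hmain := h (fun r => (f r).2.1) (fun r => ((f r).2.2 : ℕ)) ?_ ?_ ?_
  · refine le_trans (le_of_eq ?_) hmain
    exact Finset.prod_congr rfl fun r _ => by rw [hval]
  · -- exactly `3L` rows of type `true`
    have hcl : (univ.filter fun c : Col L => c.isLeft = true).card = 3 * L := by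
      have : (univ.filter fun c : Col L => c.isLeft = true) =
          (univ : Finset (Fin (3 * L))).map Function.Embedding.inl := by
        ext c
        cases c <;> simp
      rw [this, card_map, card_univ, Fintype.card_fin]
    have hcr : (univ.filter fun c : Col L => c.isRight = true).card = 3 * L := by
      have : (univ.filter fun c : Col L => c.isRight = true) =
          (univ : Finset (Fin (3 * L))).map Function.Embedding.inr := by
        ext c
        cases c <;> simp
      rw [this, card_map, card_univ, Fintype.card_fin]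
    have h1 : (univ.filter fun r => (f r).2.1 = true).card ≤ 3 * L := by
      by_contra hcon
      push Not at hcon
      apply hdet
      refine det_eq_zero_of_support' _ (univ.filter fun r => (f r).2.1 = true)
        (univ.filter fun c : Col L => c.isLeft = true) ?_ (by rw [hcl]; exact hcon)
      intro r hr c hc
      rw [mem_filter] at hr hc
      rw [Matrix.of_apply]
      cases c with
      | inl i => exact absurd ⟨mem_univ _, rfl⟩ hc
      | inr i => simp [hX, hr.2]
    have h2 : (univ.filter fun r => (f r).2.1 = false).card ≤ 3 * L := by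
      by_contra hcon
      push Not at hcon
      apply hdet
      refine det_eq_zero_of_support' _ (univ.filter fun r => (f r).2.1 = false)
        (univ.filter fun c : Col L => c.isRight = true) ?_ (by rw [hcr]; exact hcon)
      intro r hr c hc
      rw [mem_filter] at hr hc
      rw [Matrix.of_apply]
      cases c with
      | inr i => exact absurd ⟨mem_univ _, rfl⟩ hc
      | inl i => simp [hX, hr.2]
    have h3 : (univ.filter fun r => (f r).2.1 = true).card +
        (univ.filter fun r => (f r).2.1 = false).card = 3 * L + 3 * L := by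
      have h4 := Finset.card_filter_add_card_filter_not (s := (univ : Finset (Col L)))
        (fun r => (f r).2.1 = true)
      have h5 : (univ.filter fun r => ¬ (f r).2.1 = true) =
          univ.filter fun r => (f r).2.1 = false := by
        ext r
        simp
      rw [h5] at h4
      rw [h4, card_univ, Fintype.card_sum, Fintype.card_fin]
    omega
  · intro c c' hne hmod hb hk
    apply hne
    apply hf
    have h1 : (f c).1 = (f c').1 := by
      rw [← hcls c, ← hcls c']
      rw [ZMod.intCast_eq_intCast_iff]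
      exact hmod
    exact Prod.ext h1 (Prod.ext hb (Fin.ext hk))
  · intro r
    rw [← hval]
    exact h0 r

theorem padicNorm_pow_le (q : ℕ) [Fact q.Prime] (u : ℤ) (hu : (q : ℤ) ∣ u) (m : ℕ) :
    padicNorm q ((u : ℚ) ^ m) ≤ (q : ℚ) ^ (-(m : ℤ)) := by
  have hq : (q : ℚ) ≠ 0 := by exact_mod_cast (Fact.out : q.Prime).ne_zero
  have h1 : padicNorm q (u : ℚ) ≤ (q : ℚ) ^ (-(1 : ℤ)) := by
    have := (padicNorm.dvd_iff_norm_le (p := q) (n := 1) (z := u)).1 (by simpa using hu)
    simpa using this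
  induction m with
  | zero => simp
  | succ m ih =>
    rw [pow_succ, padicNorm.mul]
    have h2 : (q : ℚ) ^ (-((m + 1 : ℕ) : ℤ)) = (q : ℚ) ^ (-(m : ℤ)) * (q : ℚ) ^ (-(1 : ℤ)) := by
      rw [← zpow_add₀ hq]
      congr 1
      push_cast
      ring
    rw [h2]
    exact mul_le_mul ih h1 (padicNorm.nonneg _) (zpow_nonneg (Nat.cast_nonneg _) _)

theorem dvd_sub_bmod (q : ℕ) (t : ℤ) : (q : ℤ) ∣ t - Int.bmod t q :=
  (show Int.bmod t q ≡ t [ZMOD q] from Int.bmod_emod).dvd

theorem padicNorm_coeff_lin_pow (q : ℕ) [Fact q.Prime] (u : ℤ) (hu : (q : ℤ) ∣ u) (k j : ℕ) :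
    padicNorm q (PowerSeries.coeff j (lin (u : ℚ) ^ k)) ≤ (q : ℚ) ^ ((j : ℤ) - k) := by
  rw [coeff_lin_pow, padicNorm.mul]
  rcases Nat.lt_or_ge k j with h | h
  · rw [Nat.choose_eq_zero_of_lt h]
    simp only [Nat.cast_zero, padicNorm.zero, zero_mul]
    exact zpow_nonneg (Nat.cast_nonneg _) _
  · have h1 : padicNorm q ((k.choose j : ℚ)) ≤ 1 := by
      have := padicNorm.of_nat (p := q) (k.choose j)
      simpa using this
    have h2 := padicNorm_pow_le q u hu (k - j)
    have h3 : -((k - j : ℕ) : ℤ) = (j : ℤ) - k := by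
      rw [Nat.cast_sub h]
      ring
    rw [h3] at h2
    calc padicNorm q ((k.choose j : ℚ)) * padicNorm q ((u : ℚ) ^ (k - j))
        ≤ 1 * (q : ℚ) ^ ((j : ℤ) - k) :=
          mul_le_mul h1 h2 (padicNorm.nonneg _) zero_le_one
      _ = (q : ℚ) ^ ((j : ℤ) - k) := one_mul _

theorem SS_true (q : ℕ) [Fact q.Prime] (r : ℤ × Fin 3) (k : ℕ) :
    padicNorm q (SS q r true k) ≤ (q : ℚ) ^ (((r.2 : ℕ) : ℤ) - k) := by
  rw [SS]
  exact padicNorm_coeff_lin_pow q _ (dvd_sub_bmod q r.1) k _

theorem SS_false (q : ℕ) [Fact q.Prime] (h5 : 5 ≤ q) (L : ℕ) (hL : 3 * L < q ^ 2) (r : ℤ × Fin 3)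
    (hr : |r.1| ≤ (L : ℤ)) (k : ℕ) :
    padicNorm q (SS q r false k) ≤ (q : ℚ) ^ (((r.2 : ℕ) : ℤ) - k - Ee q r.1) := by
  have hq : (q : ℚ) ≠ 0 := by exact_mod_cast (Fact.out : q.Prime).ne_zero
  rw [SS, PowerSeries.coeff_mul]
  refine padicNorm_sum_le' q _ _ _ (zpow_nonneg (Nat.cast_nonneg _) _) fun p hp => ?_
  rw [Finset.HasAntidiagonal.mem_antidiagonal] at hp
  have h1 := F_bound q h5 L hL r.1 hr p.1
  have h2 := padicNorm_coeff_lin_pow q _ (dvd_sub_bmod q r.1) k p.2
  rw [padicNorm.mul]
  have h3 : (q : ℚ) ^ (((r.2 : ℕ) : ℤ) - k - Ee q r.1) =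
      (q : ℚ) ^ ((p.1 : ℤ) - Ee q r.1) * (q : ℚ) ^ ((p.2 : ℤ) - k) := by
    rw [← zpow_add₀ hq]
    congr 1
    rw [← hp]
    push_cast
    ring
  rw [h3]
  exact mul_le_mul h1 h2 (padicNorm.nonneg _) (zpow_nonneg (Nat.cast_nonneg _) _)

/-- a node which is its own balanced residue -/
theorem SS_single_true (q : ℕ) (r : ℤ × Fin 3) (hr : Int.bmod r.1 q = r.1) (k : ℕ)
    (h : SS q r true k ≠ 0) : k = (r.2 : ℕ) ∧ SS q r true k = 1 := by
  rw [SS, hr, sub_self, Int.cast_zero, lin_zero, PowerSeries.coeff_X_pow] at h ⊢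
  by_cases hk : (r.2 : ℕ) = k
  · rw [if_pos hk]
    exact ⟨hk.symm, rfl⟩
  · rw [if_neg hk] at h
    exact absurd rfl h

theorem SS_single_false (q : ℕ) (r : ℤ × Fin 3) (hr : Int.bmod r.1 q = r.1) (k : ℕ)
    (h : SS q r false k ≠ 0) :
    k ≤ (r.2 : ℕ) ∧ SS q r false k = PowerSeries.coeff ((r.2 : ℕ) - k) (FF r.1) := by
  rw [SS, hr, sub_self, Int.cast_zero, lin_zero, PowerSeries.coeff_mul_X_pow'] at h ⊢
  by_cases hk : k ≤ (r.2 : ℕ)
  · rw [if_pos hk]
    exact ⟨hk, rfl⟩
  · rw [if_neg hk] at h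
    exact absurd rfl h

end Pool.Agent.H80.HF
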