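import Pool.Agent.H80.HF.ZeroB
import Pool.Agent.H80.HF.Rec

/-!
# HF ZeroA: the zero estimate (full column rank)

PROOF. `E = (3X+1) A(X+1) A - (3X+2) B(X+1) B` has degree `≤ 1 + 2 (3L-1) = 6L - 1`.
At a node `t`, `-L ≤ t ≤ L-1`: `tay t A = F_t tay t B + O(y^3)`, `tay (t+1) A = F_(t+1) tay (t+1) B + O(y^3)`, `FF_rec`: the
product of both and of `3(t+y)+1` gives `tay t E = O(y^3)`, i.e. `(X - t)^3 ∣ E` (`tay t (P.comp (X+1)) = tay (t+1) P`);
`2L` different nodes: `6L` zeros `> deg E`, so `E = 0`. By `no_sol` `A = 0` or `B = 0`, then both (`E = 0` gives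
`(3X+2) B(X+1) B = 0`).
-/

set_option autoImplicit false

namespace Pool.Agent.H80.HF

open Polynomial

theorem ZeroA_tay_mul (t : ℤ) (P Q : ℚ[X]) : tay t (P * Q) = tay t P * tay t Q := by
  simp [tay]

theorem ZeroA_tay_sub (t : ℤ) (P Q : ℚ[X]) : tay t (P - Q) = tay t P - tay t Q := by
  unfold tay
  rw [sub_comp, Polynomial.coe_sub]

theorem ZeroA_tay_shift (t : ℤ) (P : ℚ[X]) : tay t (P.comp (X + C 1)) = tay (t + 1) P := by
  unfold tay
  rw [comp_assoc]
  congr 2
  simp only [add_comp, X_comp, C_comp]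
  push_cast
  rw [C_add]
  ring

theorem ZeroA_tay_lin (t a : ℤ) : tay t (C 3 * X + C (a : ℚ)) = toPS (lf (3 * t + a)) := by
  unfold tay toPS lf
  have h1 : (C 3 * X + C (3 * t + a) : ℤ[X]).map (Int.castRingHom ℚ) = C 3 * X + C (3 * (t : ℚ) + a) := by
    rw [Polynomial.map_add, Polynomial.map_mul, Polynomial.map_C, map_X, Polynomial.map_C, eq_intCast, eq_intCast]
    push_cast
    rfl
  rw [h1]
  congr 1
  rw [add_comp, mul_comp, C_comp, X_comp, C_comp, C_add, C_mul]
  ring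

/-- the order of vanishing in terms of the Taylor expansion -/
theorem ZeroA_dvd (t : ℤ) (E : ℚ[X]) (n : ℕ) (h : PowerSeries.X ^ n ∣ tay t E) : (X - C (t : ℚ)) ^ n ∣ E := by
  rw [PowerSeries.X_pow_dvd_iff] at h
  have h1 : X ^ n ∣ E.comp (X + C (t : ℚ)) := by
    rw [Polynomial.X_pow_dvd_iff]
    intro d hd
    have := h d hd
    unfold tay at this
    rwa [Polynomial.coeff_coe] at this
  have h2 := map_dvd (compRingHom (X - C (t : ℚ))) h1
  have h3 : compRingHom (X - C (t : ℚ)) (E.comp (X + C (t : ℚ))) = E := by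
    rw [coe_compRingHom_apply, comp_assoc]
    simp
  rw [h3, map_pow] at h2
  have h4 : compRingHom (X - C (t : ℚ)) X = X - C (t : ℚ) := by
    rw [coe_compRingHom_apply, X_comp]
  rwa [h4] at h2

theorem full_rank (L : ℕ) (hL : 1 ≤ L) (A B : ℚ[X]) (hA : A.degree < ((3 * L : ℕ) : WithBot ℕ))
    (hB : B.degree < ((3 * L : ℕ) : WithBot ℕ))
    (h : ∀ t : ℤ, |t| ≤ (L : ℤ) → ∀ j : Fin 3, PowerSeries.coeff (j : ℕ) (tay t A) =
      PowerSeries.coeff (j : ℕ) (FF t * tay t B)) : A = 0 ∧ B = 0 := by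
  classical
  have hdeg : ∀ P : ℚ[X], P.degree < ((3 * L : ℕ) : WithBot ℕ) → P.natDegree ≤ 3 * L - 1 := by
    intro P hP
    by_cases h0 : P = 0
    · rw [h0, natDegree_zero]; exact Nat.zero_le _
    · have := (natDegree_lt_iff_degree_lt h0).mpr hP
      omega
  have hdvd : ∀ t : ℤ, |t| ≤ (L : ℤ) → PowerSeries.X ^ 3 ∣ tay t A - FF t * tay t B := by
    intro t ht
    rw [PowerSeries.X_pow_dvd_iff]
    intro m hm
    rw [map_sub, sub_eq_zero]
    exact h t ht ⟨m, hm⟩
  let E : ℚ[X] := (C 3 * X + C 1) * (A.comp (X + C 1) * A) - (C 3 * X + C 2) * (B.comp (X + C 1) * B)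
  have hnode : ∀ t : ℤ, -(L : ℤ) ≤ t → t < L → (X - C (t : ℚ)) ^ 3 ∣ E := by
    intro t h1 h2
    apply ZeroA_dvd
    have e1 : tay t E = toPS (lf (3 * t + 1)) * (tay (t + 1) A * tay t A) - toPS (lf (3 * t + 2)) * (tay (t + 1) B * tay t B) := by
      simp only [E]
      rw [ZeroA_tay_sub, ZeroA_tay_mul, ZeroA_tay_mul, ZeroA_tay_mul, ZeroA_tay_mul, ZeroA_tay_shift, ZeroA_tay_shift]
      have h3 := ZeroA_tay_lin t 1
      have h4 := ZeroA_tay_lin t 2
      push_cast at h3 h4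
      rw [h3, h4]
    have e2 : tay t E = toPS (lf (3 * t + 1)) * ((tay t A - FF t * tay t B) * tay (t + 1) A +
        FF t * tay t B * (tay (t + 1) A - FF (t + 1) * tay (t + 1) B)) := by
      rw [e1, ← FF_rec t]
      ring
    rw [e2]
    refine Dvd.dvd.mul_left (dvd_add ?_ ?_) _
    · exact (hdvd t (abs_le.mpr ⟨h1, h2.le⟩)).mul_right _
    · exact (hdvd (t + 1) (abs_le.mpr ⟨by omega, by omega⟩)).mul_left _
  have hE : E = 0 := by
    by_contra hne
    have hprod : (∏ t ∈ Finset.Ico (-(L : ℤ)) L, (X - C (t : ℚ)) ^ 3) ∣ E := by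
      refine Finset.prod_dvd_of_coprime ?_ fun t ht => hnode t (Finset.mem_Ico.mp ht).1 (Finset.mem_Ico.mp ht).2
      intro a _ b _ hab
      refine IsCoprime.pow ?_
      exact isCoprime_X_sub_C_of_isUnit_sub (by
        have : (a : ℚ) - b ≠ 0 := sub_ne_zero.mpr (by exact_mod_cast hab)
        exact this.isUnit)
    have hle := natDegree_le_of_dvd hprod hne
    rw [natDegree_prod_of_monic _ _ fun a _ => (monic_X_sub_C _).pow _] at hle
    simp only [natDegree_pow, natDegree_X_sub_C, mul_one, Finset.sum_const, Int.card_Ico, smul_eq_mul] at hle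
    have hlin : ∀ a : ℚ, (C 3 * X + C a : ℚ[X]).natDegree ≤ 1 := fun a => natDegree_linear_le
    have hterm : ∀ (a : ℚ) (P : ℚ[X]), P.natDegree ≤ 3 * L - 1 → ((C 3 * X + C a) * (P.comp (X + C 1) * P)).natDegree ≤ 6 * L - 1 := by
      intro a P hP
      refine natDegree_mul_le.trans ?_
      have h5 : (P.comp (X + C 1)).natDegree ≤ 3 * L - 1 := by
        rw [natDegree_comp, natDegree_X_add_C, mul_one]; exact hP
      have h6 := (natDegree_mul_le (p := P.comp (X + C 1)) (q := P))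
      have := hlin a
      omega
    have hdE : E.natDegree ≤ 6 * L - 1 :=
      (natDegree_sub_le _ _).trans (max_le (hterm 1 A (hdeg A hA)) (hterm 2 B (hdeg B hB)))
    omega
  have hEq : (C 3 * X + C 1) * (A.comp (X + C 1) * A) = (C 3 * X + C 2) * (B.comp (X + C 1) * B) := sub_eq_zero.mp hE
  have hcomp : ∀ P : ℚ[X], P.comp (X + C 1) = 0 → P = 0 := by
    intro P hP
    have h7 := congrArg (fun Q : ℚ[X] => Q.comp (X - C 1)) hP
    simp only [comp_assoc, zero_comp] at h7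
    have h8 : ((X + C 1 : ℚ[X]).comp (X - C 1)) = X := by simp
    rwa [h8, comp_X] at h7
  have hl : ∀ a : ℚ, (C 3 * X + C a : ℚ[X]) ≠ 0 := by
    intro a h0
    have h9 := congrArg (fun p : ℚ[X] => p.coeff 1) h0
    simp [coeff_C] at h9
  have hz : ∀ P : ℚ[X], P.comp (X + C 1) * P = 0 → P = 0 := by
    intro P hP
    rcases mul_eq_zero.mp hP with h0 | h0
    · exact hcomp P h0
    · exact h0
  rcases no_sol A B hEq with h0 | h0
  · refine ⟨h0, ?_⟩
    rw [h0, mul_zero, mul_zero] at hEq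
    exact hz B ((mul_eq_zero.mp hEq.symm).resolve_left (hl 2))
  · refine ⟨?_, h0⟩
    rw [h0, mul_zero, mul_zero] at hEq
    exact hz A ((mul_eq_zero.mp hEq).resolve_left (hl 1))

end Pool.Agent.H80.HF
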