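import Pool.Agent.H80.HF.Defs

/-!
# HF ZeroB: `f(x+1) f(x) = (3x+2)/(3x+1)` has no rational solution

PROOF. Suppose `A, B ≠ 0`. For `c = -1/3 + n`, `n : ℤ`, put `φ n = rootMultiplicity c A - rootMultiplicity c B` (in `ℤ`).
`rootMultiplicity c (A.comp (X+1)) = rootMultiplicity (c+1) A`. At `c = -1/3 + n` the factor `3X+2` does not vanish and
`3X+1` vanishes iff `n = 0`. Comparing multiplicities: `[n=0] + φ(n+1) + φ(n) = 0`. `φ n = 0` for `|n|` large (finitely many
roots), so `φ = 0` on `n ≥ 1` and on `n ≤ 0`, contradiction at `n = 0`.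
-/

set_option autoImplicit false

namespace Pool.Agent.H80.HF

open Polynomial

theorem ZeroB_shift (c : ℚ) (A : ℚ[X]) : (A.comp (X + C 1)).rootMultiplicity c = A.rootMultiplicity (c + 1) := by
  rw [rootMultiplicity_eq_rootMultiplicity, rootMultiplicity_eq_rootMultiplicity (p := A)]
  congr 1
  rw [comp_assoc]
  congr 1
  simp only [add_comp, X_comp, C_comp, C_add]
  ring

theorem ZeroB_lin_ne (a : ℚ) : (C 3 * X + C a : ℚ[X]) ≠ 0 := by
  intro h0
  have h9 := congrArg (fun p : ℚ[X] => p.coeff 1) h0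
  simp [coeff_C] at h9

theorem ZeroB_lin_pos (c a : ℚ) (h : 3 * c + a = 0) : (C 3 * X + C a : ℚ[X]).rootMultiplicity c = 1 := by
  have h1 : (C 3 * X + C a : ℚ[X]) = C 3 * (X - C c) := by
    have : a = -(3 * c) := by linarith
    rw [this, C_neg, C_mul]; ring
  rw [h1, rootMultiplicity_mul (by rw [← h1]; exact ZeroB_lin_ne a), rootMultiplicity_C, rootMultiplicity_X_sub_C_self]

theorem ZeroB_lin_neg (c a : ℚ) (h : 3 * c + a ≠ 0) : (C 3 * X + C a : ℚ[X]).rootMultiplicity c = 0 := by
  rw [rootMultiplicity_eq_zero]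
  simp only [IsRoot.def, eval_add, eval_mul, eval_C, eval_X]
  exact h

theorem no_sol (A B : ℚ[X])
    (h : (C 3 * X + C 1) * (A.comp (X + C 1) * A) = (C 3 * X + C 2) * (B.comp (X + C 1) * B)) :
    A = 0 ∨ B = 0 := by
  classical
  by_contra hcon
  push Not at hcon
  obtain ⟨hA, hB⟩ := hcon
  have hcomp : ∀ P : ℚ[X], P ≠ 0 → P.comp (X + C 1) ≠ 0 := by
    intro P hP hP0
    apply hP
    have h7 := congrArg (fun Q : ℚ[X] => Q.comp (X - C 1)) hP0
    simp only [comp_assoc, zero_comp] at h7
    have h8 : ((X + C 1 : ℚ[X]).comp (X - C 1)) = X := by simp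
    rwa [h8, comp_X] at h7
  let φ : ℤ → ℤ := fun n => (A.rootMultiplicity (-1/3 + (n : ℚ)) : ℤ) - (B.rootMultiplicity (-1/3 + (n : ℚ)) : ℤ)
  have hφ : ∀ n : ℤ, (if n = 0 then 1 else 0) + φ (n + 1) + φ n = 0 := by
    intro n
    have h1 := congrArg (rootMultiplicity (-1/3 + (n : ℚ))) h
    have hA1 := mul_ne_zero (hcomp A hA) hA
    have hB1 := mul_ne_zero (hcomp B hB) hB
    rw [rootMultiplicity_mul (mul_ne_zero (ZeroB_lin_ne 1) hA1), rootMultiplicity_mul (mul_ne_zero (ZeroB_lin_ne 2) hB1),
      rootMultiplicity_mul hA1, rootMultiplicity_mul hB1, ZeroB_shift, ZeroB_shift] at h1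
    have h2 : (C 3 * X + C 2 : ℚ[X]).rootMultiplicity (-1/3 + (n : ℚ)) = 0 := by
      apply ZeroB_lin_neg
      intro h0
      have h3 : (3 * n + 1 : ℚ) = 0 := by linarith
      have h4 : 3 * n + 1 = 0 := by exact_mod_cast h3
      omega
    have e1 : (-1/3 + (n : ℚ)) + 1 = -1/3 + ((n + 1 : ℤ) : ℚ) := by push_cast; ring
    rw [h2, e1] at h1
    by_cases hn : n = 0
    · have h5 : (C 3 * X + C 1 : ℚ[X]).rootMultiplicity (-1/3 + (n : ℚ)) = 1 := by
        apply ZeroB_lin_pos
        rw [hn]; norm_num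
      rw [h5] at h1
      simp only [φ, if_pos hn]
      omega
    · have h5 : (C 3 * X + C 1 : ℚ[X]).rootMultiplicity (-1/3 + (n : ℚ)) = 0 := by
        apply ZeroB_lin_neg
        intro h0
        have h3 : (3 * n : ℚ) = 0 := by linarith
        have h4 : 3 * n = 0 := by exact_mod_cast h3
        omega
      rw [h5] at h1
      simp only [φ, if_neg hn]
      omega
  have hAB := mul_ne_zero hA hB
  -- infinitely many nonzero values are impossible
  have hinf : ∀ g : ℕ → ℤ, Function.Injective g → ∃ k, φ (g k) = 0 := by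
    intro g hg
    by_contra hne
    push Not at hne
    apply hAB
    apply eq_zero_of_infinite_isRoot
    have hinj : Function.Injective (fun k : ℕ => (-1/3 + (g k : ℚ))) := by
      intro a b hab
      apply hg
      have : (g a : ℚ) = g b := by
        simp only at hab
        linarith
      exact_mod_cast this
    refine (Set.infinite_range_of_injective hinj).mono ?_
    rintro _ ⟨k, rfl⟩
    have h1 := hne k
    show IsRoot (A * B) _
    by_contra h2
    apply h1
    have h3 : ¬ IsRoot A (-1/3 + (g k : ℚ)) := fun h4 => h2 (by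
      simp only [IsRoot.def, eval_mul] at h4 ⊢
      rw [h4, zero_mul])
    have h5 : ¬ IsRoot B (-1/3 + (g k : ℚ)) := fun h4 => h2 (by
      simp only [IsRoot.def, eval_mul] at h4 ⊢
      rw [h4, mul_zero])
    simp only [φ]
    rw [rootMultiplicity_eq_zero h3, rootMultiplicity_eq_zero h5]
    simp
  have hpos : φ 1 = 0 := by
    obtain ⟨k, hk⟩ := hinf (fun k => (k : ℤ) + 1) (fun a b hab => by simp only at hab; omega)
    have : ∀ k : ℕ, φ ((k : ℤ) + 1) = 0 → φ 1 = 0 := by
      intro k
      induction k with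
      | zero => intro h0; simpa using h0
      | succ k ih =>
        intro h0
        apply ih
        have h1 := hφ ((k : ℤ) + 1)
        rw [if_neg (by omega)] at h1
        push_cast at h0
        omega
    exact this k hk
  have hneg : φ 0 = 0 := by
    obtain ⟨k, hk⟩ := hinf (fun k => -(k : ℤ)) (fun a b hab => by simp only at hab; omega)
    have : ∀ k : ℕ, φ (-(k : ℤ)) = 0 → φ 0 = 0 := by
      intro k
      induction k with
      | zero => intro h0; simpa using h0
      | succ k ih =>
        intro h0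
        apply ih
        have h1 := hφ (-((k : ℤ) + 1))
        rw [if_neg (by omega)] at h1
        push_cast at h0
        have e1 : -((k : ℤ) + 1) + 1 = -(k : ℤ) := by ring
        have e2 : -1 + -(k : ℤ) = -((k : ℤ) + 1) := by ring
        rw [e1] at h1
        try rw [e2] at h0
        omega
    exact this k hk
  have h1 := hφ 0
  rw [if_pos rfl, zero_add, hpos, hneg] at h1
  omega

end Pool.Agent.H80.HF
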