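import Pool.Agent.H80.HF.ZeroA

/-!
# HF ZeroC: some minor is nonzero

PROOF. The columns, as functions on the finite set of rows `{t : |t| ≤ L} × Fin 3`, are linearly independent
(`full_rank`, `ent` is the coefficient of `tay t (X^i)`), so the matrix has a set of `card Col` linearly independent rows
(row rank = column rank; e.g. `exists_linearIndependent`, or `Matrix.rank`), and the square matrix of these rows is
invertible.
-/

set_option autoImplicit false

namespace Pool.Agent.H80.HF

theorem tay_X_pow (t : ℤ) (i : ℕ) : tay t (Polynomial.X ^ i) = lin (t : ℚ) ^ i := by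
  unfold tay lin
  rw [Polynomial.X_pow_comp, Polynomial.coe_pow, Polynomial.coe_add, Polynomial.coe_X, Polynomial.coe_C]

theorem tay_add (t : ℤ) (P Q : Polynomial ℚ) : tay t (P + Q) = tay t P + tay t Q := by
  simp [tay]

theorem tay_smul (t : ℤ) (a : ℚ) (P : Polynomial ℚ) : tay t (Polynomial.C a * P) = PowerSeries.C a * tay t P := by
  simp [tay]

theorem tay_sum {ι : Type*} (t : ℤ) (s : Finset ι) (f : ι → Polynomial ℚ) : tay t (∑ i ∈ s, f i) = ∑ i ∈ s, tay t (f i) := by
  classical
  induction s using Finset.induction_on with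
  | empty => simp [tay]
  | insert a s ha ih => rw [Finset.sum_insert ha, Finset.sum_insert ha, tay_add, ih]

/-- the polynomial with coefficients `v` -/
noncomputable def polyOf (L : ℕ) (v : Fin (3 * L) → ℚ) : Polynomial ℚ := ∑ i, Polynomial.C (v i) * Polynomial.X ^ (i : ℕ)

theorem polyOf_degree (L : ℕ) (v : Fin (3 * L) → ℚ) : (polyOf L v).degree < ((3 * L : ℕ) : WithBot ℕ) := by
  unfold polyOf
  refine (Polynomial.degree_sum_le _ _).trans_lt ?_
  rw [Finset.sup_lt_iff (WithBot.bot_lt_coe _)]
  intro i _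
  refine (Polynomial.degree_C_mul_X_pow_le _ _).trans_lt ?_
  exact_mod_cast i.2

theorem polyOf_coeff (L : ℕ) (v : Fin (3 * L) → ℚ) (i : Fin (3 * L)) : (polyOf L v).coeff i = v i := by
  unfold polyOf
  rw [Polynomial.finsetSum_coeff, Finset.sum_eq_single i]
  · simp
  · intro j _ hj
    rw [Polynomial.coeff_C_mul, Polynomial.coeff_X_pow, if_neg (fun h => hj (Fin.ext h.symm)), mul_zero]
  · intro h; exact absurd (Finset.mem_univ i) h

theorem sum_ent (L : ℕ) (r : ℤ × Fin 3) (v : Col L → ℚ) : ∑ c, ent L r c * v c =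
    PowerSeries.coeff (r.2 : ℕ) (tay r.1 (polyOf L (fun i => v (Sum.inl i)))) -
      PowerSeries.coeff (r.2 : ℕ) (FF r.1 * tay r.1 (polyOf L (fun i => v (Sum.inr i)))) := by
  rw [Fintype.sum_sum_type]
  unfold polyOf
  rw [tay_sum, tay_sum, Finset.mul_sum, map_sum, map_sum, sub_eq_add_neg, ← Finset.sum_neg_distrib]
  congr 1
  · refine Finset.sum_congr rfl fun i _ => ?_
    rw [tay_smul, tay_X_pow, PowerSeries.coeff_C_mul]
    exact mul_comm _ _
  · refine Finset.sum_congr rfl fun i _ => ?_
    rw [tay_smul, tay_X_pow]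
    have : FF r.1 * (PowerSeries.C (v (Sum.inr i)) * lin (r.1 : ℚ) ^ (i : ℕ)) = PowerSeries.C (v (Sum.inr i)) * (FF r.1 * lin (r.1 : ℚ) ^ (i : ℕ)) := by ring
    rw [this, PowerSeries.coeff_C_mul]
    show -_ * _ = _
    ring

theorem exists_minor (L : ℕ) (hL : 1 ≤ L) : ∃ ρ : Col L → ℤ × Fin 3, Rows L ρ ∧ DD L ρ ≠ 0 := by
  classical
  let R := {t : ℤ // t ∈ Finset.Icc (-(L : ℤ)) L} × Fin 3
  let toR : R → ℤ × Fin 3 := fun r => (r.1.1, r.2)
  have htoR : Function.Injective toR := by
    rintro ⟨⟨a, ha⟩, j⟩ ⟨⟨b, hb⟩, k⟩ h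
    have h1 := congrArg Prod.fst h
    have h2 := congrArg Prod.snd h
    simp only [toR] at h1 h2
    subst h1; subst h2; rfl
  let w : R → (Col L → ℚ) := fun r => ent L (toR r)
  -- the rows span
  have hspan : Submodule.span ℚ (Set.range w) = ⊤ := by
    by_contra hne
    obtain ⟨f, hf0, hf⟩ := Submodule.exists_le_ker_of_lt_top _ (lt_top_iff_ne_top.mpr hne)
    apply hf0
    let v : Col L → ℚ := fun c => f (Pi.single c 1)
    have hfv : ∀ x : Col L → ℚ, f x = ∑ c, x c * v c := by
      intro x
      conv_lhs => rw [pi_eq_sum_univ' x]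
      rw [map_sum]
      refine Finset.sum_congr rfl fun c _ => ?_
      rw [map_smul, smul_eq_mul]
    have hz : ∀ r : R, ∑ c, ent L (toR r) c * v c = 0 := by
      intro r
      rw [← hfv]
      exact hf (Submodule.subset_span ⟨r, rfl⟩)
    have hfr := full_rank L hL (polyOf L (fun i => v (Sum.inl i))) (polyOf L (fun i => v (Sum.inr i)))
      (polyOf_degree _ _) (polyOf_degree _ _) (by
        intro t ht j
        have h1 := hz (⟨t, Finset.mem_Icc.mpr (abs_le.mp ht)⟩, j)
        rw [sum_ent] at h1
        exact sub_eq_zero.mp h1)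
    have hv0 : v = 0 := by
      funext c
      rcases c with i | i
      · have := polyOf_coeff L (fun i => v (Sum.inl i)) i
        rw [hfr.1, Polynomial.coeff_zero] at this
        exact this.symm
      · have := polyOf_coeff L (fun i => v (Sum.inr i)) i
        rw [hfr.2, Polynomial.coeff_zero] at this
        exact this.symm
    ext x
    rw [LinearMap.comp_apply, hfv, hv0]
    simp
  obtain ⟨κ, a, ha, hsp, hli⟩ := exists_linearIndependent' ℚ w
  have : Finite κ := Finite.of_injective a ha
  let _ : Fintype κ := Fintype.ofFinite κ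
  rw [hspan] at hsp
  let b := Module.Basis.mk hli (by rw [hsp])
  have hcard : Fintype.card (Col L) = Fintype.card κ := by
    rw [← Module.finrank_eq_card_basis b, Module.finrank_fintype_fun_eq_card]
  let e := Fintype.equivOfCardEq hcard
  refine ⟨fun c => toR (a (e c)), ⟨fun c c' h => e.injective (ha (htoR h)), fun c => ?_⟩, ?_⟩
  · exact abs_le.mpr (Finset.mem_Icc.mp (a (e c)).1.2)
  · unfold DD
    have hli2 : LinearIndependent ℚ (fun c => w (a (e c))) := hli.comp e e.injective
    have h1 : IsUnit (Matrix.of fun c => ent L (toR (a (e c)))) := by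
      rw [← Matrix.linearIndependent_rows_iff_isUnit]
      exact hli2
    rw [Matrix.isUnit_iff_isUnit_det] at h1
    exact h1.ne_zero

end Pool.Agent.H80.HF
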